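import Mathlib

/-!
# MP_c2ffe9_gt: cubical chains in a topological space, definitions

All cubes are continuous maps `T : W → X` from the Hilbert cube `W = ℕ → [0,1]`. An `n`-cube is a map that
depends only on the coordinates `i < n` (`IsCube n T`). It is degenerate (`Deg n T`) if it does not depend on
one of them. `M n U` is the module of the formal combinations (coefficients in `R`) of `n`-cubes which are
degenerate or have their values in `U`. So everything is done modulo degenerate cubes.
-/

namespace Pool.Agent.Lib.MP_c2ffe9_gt

open unitInterval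

/-- The Hilbert cube. -/
abbrev W : Type := ℕ → unitInterval

/-- Insert `a` at the place `i`. -/
def ins (i : ℕ) (a : unitInterval) (t : W) : W :=
  fun j => if j < i then t j else if j = i then a else t (j - 1)

theorem continuous_ins (i : ℕ) (a : unitInterval) : Continuous (ins i a) := by
  refine continuous_pi fun j => ?_
  unfold ins
  split_ifs
  · exact continuous_apply j
  · exact continuous_const
  · exact continuous_apply (j - 1)

/-- `ins` as a continuous map. -/
def insC (i : ℕ) (a : unitInterval) : C(W, W) := ⟨ins i a, continuous_ins i a⟩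

variable {R : Type} [CommRing R] {X Y : Type} [TopologicalSpace X] [TopologicalSpace Y]

/-- Formal combinations of maps `W → X`. -/
abbrev Ch (R : Type) [CommRing R] (X : Type) [TopologicalSpace X] : Type := C(W, X) →₀ R

/-- Composition on the right with `g : W → W`. -/
noncomputable def pull (R : Type) [CommRing R] (X : Type) [TopologicalSpace X] (g : C(W, W)) :
    Module.End R (Ch R X) :=
  Finsupp.lmapDomain R R fun T : C(W, X) => T.comp g

/-- Composition on the left with `f : X → Y`. -/
noncomputable def push (R : Type) [CommRing R] (f : C(X, Y)) : Ch R X →ₗ[R] Ch R Y :=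
  Finsupp.lmapDomain R R fun T : C(W, X) => f.comp T

/-- The difference of the two faces in the direction `i`. -/
noncomputable def bd (R : Type) [CommRing R] (X : Type) [TopologicalSpace X] (i : ℕ) :
    Module.End R (Ch R X) :=
  pull R X (insC i 1) - pull R X (insC i 0)

/-- The boundary of `n`-chains. -/
noncomputable def d (R : Type) [CommRing R] (X : Type) [TopologicalSpace X] (n : ℕ) :
    Module.End R (Ch R X) :=
  ∑ i ∈ Finset.range n, ((-1 : R) ^ i) • bd R X i

/-- `T` depends only on the first `n` coordinates. -/
def IsCube (n : ℕ) (T : C(W, X)) : Prop := ∀ s t : W, (∀ i < n, s i = t i) → T s = T t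

/-- `T` does not depend on the coordinate `i`. -/
def Indep (i : ℕ) (T : C(W, X)) : Prop := ∀ s t : W, (∀ j, j ≠ i → s j = t j) → T s = T t

/-- `T` is a degenerate `n`-cube. -/
def Deg (n : ℕ) (T : C(W, X)) : Prop := ∃ i < n, Indep i T

/-- The chains of `n`-cubes that are degenerate or have values in `U`. -/
def M (R : Type) [CommRing R] (n : ℕ) (U : Set X) : Submodule R (Ch R X) :=
  Finsupp.supported R R {T : C(W, X) | IsCube n T ∧ ((∀ t, T t ∈ U) ∨ Deg n T)}

/-- A relative cycle modulo the complement of `L`. -/
def RelCyc (R : Type) [CommRing R] (n : ℕ) (L : Set X) (α : Ch R X) : Prop :=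
  α ∈ M R n Set.univ ∧ d R X n α ∈ M R (n - 1) Lᶜ

/-- `α` is a relative boundary modulo the complement of `L`. -/
def Triv (R : Type) [CommRing R] (n : ℕ) (L : Set X) (α : Ch R X) : Prop :=
  ∃ e ∈ M R (n + 1) (Set.univ : Set X), α - d R X (n + 1) e ∈ M R n Lᶜ

/-- `L` is big: `L` is closed and the relative homology of the space modulo the complement of `L` is not
zero. -/
def Big (R : Type) [CommRing R] (L : Set X) : Prop :=
  IsClosed L ∧ ∃ n α, RelCyc R n L α ∧ ¬ Triv R n L α

/-- `x / 2` and `(1 + x) / 2`. -/
noncomputable def halfI (e : Bool) (x : unitInterval) : unitInterval :=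
  ⟨((x : ℝ) + (if e then 1 else 0)) / 2, by
    have h0 := x.2.1
    have h1 := x.2.2
    constructor
    · split_ifs <;> linarith
    · split_ifs <;> linarith⟩

theorem continuous_halfI (e : Bool) : Continuous (halfI e) := by
  unfold halfI
  fun_prop

/-- Replace the coordinate `i` by its half (`e = false`) or by `(1 + t i) / 2` (`e = true`). -/
noncomputable def half (i : ℕ) (e : Bool) : C(W, W) :=
  ⟨fun t => Function.update t i (halfI e (t i)), by
    exact (continuous_id).update i ((continuous_halfI e).comp (continuous_apply i))⟩

/-- Subdivision in the direction `i`. -/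
noncomputable def hh (R : Type) [CommRing R] (X : Type) [TopologicalSpace X] (i : ℕ) :
    Module.End R (Ch R X) :=
  pull R X (half i false) + pull R X (half i true)

/-- Subdivision of `n`-chains. -/
noncomputable def sd (R : Type) [CommRing R] (X : Type) [TopologicalSpace X] :
    ℕ → Module.End R (Ch R X)
  | 0 => 1
  | n + 1 => sd R X n * hh R X n

/-- `x (1 + s) / 2` (`e = false`) and `(1 + s + x (1 - s)) / 2` (`e = true`). -/
noncomputable def etaI (e : Bool) (x s : unitInterval) : unitInterval :=
  ⟨if e then (1 + (s : ℝ) + x * (1 - s)) / 2 else (x : ℝ) * (1 + s) / 2, by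
    have h0 := x.2.1
    have h1 := x.2.2
    have h2 := s.2.1
    have h3 := s.2.2
    constructor
    · split_ifs
      · nlinarith [mul_nonneg h0 (sub_nonneg.2 h3)]
      · nlinarith [mul_nonneg h0 h2]
    · split_ifs
      · nlinarith [mul_nonneg (sub_nonneg.2 h1) (sub_nonneg.2 h3)]
      · nlinarith [mul_nonneg (sub_nonneg.2 h1) h2, mul_nonneg h0 (sub_nonneg.2 h3)]⟩

theorem continuous_etaI (e : Bool) : Continuous fun p : unitInterval × unitInterval => etaI e p.1 p.2 := by
  unfold etaI
  cases e
  · simp only [Bool.false_eq_true, if_false]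
    fun_prop
  · simp only [if_true]
    fun_prop

/-- Replace the coordinate `i` by `etaI e (t i) (t m)`. -/
noncomputable def tw (m i : ℕ) (e : Bool) : C(W, W) :=
  ⟨fun t => Function.update t i (etaI e (t i) (t m)), by
    exact (continuous_id).update i
      ((continuous_etaI e).comp (f := fun t : W => (t i, t m))
        ((continuous_apply i).prodMk (continuous_apply m)))⟩

/-- The homotopy from the identity to the subdivision, one direction. -/
noncomputable def th (R : Type) [CommRing R] (X : Type) [TopologicalSpace X] (m i : ℕ) :
    Module.End R (Ch R X) :=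
  pull R X (tw m i false) + pull R X (tw m i true)

/-- The product of the `th m i`, `i < n`. -/
noncomputable def Th (R : Type) [CommRing R] (X : Type) [TopologicalSpace X] (m : ℕ) :
    ℕ → Module.End R (Ch R X)
  | 0 => 1
  | n + 1 => Th R X m n * th R X m n

/-- The chain homotopy between the identity and the subdivision. -/
noncomputable def Phi (R : Type) [CommRing R] (X : Type) [TopologicalSpace X] (n : ℕ) :
    Module.End R (Ch R X) :=
  ((-1 : R) ^ n) • Th R X n n

/-- The cylinder: `T` goes to `t ↦ (T t, t n)`. -/
noncomputable def cyl (R : Type) [CommRing R] (X : Type) [TopologicalSpace X] (n : ℕ) :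
    Ch R X →ₗ[R] Ch R (X × unitInterval) :=
  Finsupp.lmapDomain R R fun T : C(W, X) =>
    (⟨fun t => (T t, t n), T.continuous.prodMk (continuous_apply n)⟩ : C(W, X × unitInterval))

/-- `x ↦ (x, a)`. -/
def incl (X : Type) [TopologicalSpace X] (a : unitInterval) : C(X, X × unitInterval) :=
  ⟨fun x => (x, a), continuous_id.prodMk continuous_const⟩

end Pool.Agent.Lib.MP_c2ffe9_gt
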