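import Mathlib
import Pool.Agent.Lib.MP_c2ffe9_gt.Defs

section

/-!
# Basic properties of the operators `pull`, `push`, `bd`, `d` and of the modules `M`
-/

namespace Pool.Agent.Lib.MP_c2ffe9_gt

open unitInterval

variable {R : Type} [CommRing R] {X Y Z : Type} [TopologicalSpace X] [TopologicalSpace Y]
  [TopologicalSpace Z]

theorem pull_single (g : C(W, W)) (T : C(W, X)) (r : R) :
    pull R X g (Finsupp.single T r) = Finsupp.single (T.comp g) r := by
  simp [pull]

theorem push_single (f : C(X, Y)) (T : C(W, X)) (r : R) :
    push R f (Finsupp.single T r) = Finsupp.single (f.comp T) r := by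
  simp [push]

theorem pull_mul (g h : C(W, W)) : pull R X g * pull R X h = pull R X (h.comp g) := by
  refine Finsupp.lhom_ext' fun T => LinearMap.ext_ring ?_
  simp [pull_single, Module.End.mul_apply, ContinuousMap.comp_assoc]

theorem push_pull (f : C(X, Y)) (g : C(W, W)) (c : Ch R X) :
    push R f (pull R X g c) = pull R Y g (push R f c) := by
  induction c using Finsupp.induction_linear with
  | zero => simp
  | add a b ha hb => simp [map_add, ha, hb]
  | single T r => simp [pull_single, push_single, ContinuousMap.comp_assoc]

theorem push_push (f : C(X, Y)) (g : C(Y, Z)) (c : Ch R X) :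
    push R g (push R f c) = push R (g.comp f) c := by
  induction c using Finsupp.induction_linear with
  | zero => simp
  | add a b ha hb => simp [map_add, ha, hb]
  | single T r => simp [push_single, ContinuousMap.comp_assoc]

theorem push_id (c : Ch R X) : push R (ContinuousMap.id X) c = c := by
  induction c using Finsupp.induction_linear with
  | zero => simp
  | add a b ha hb => simp [map_add, ha, hb]
  | single T r => simp [push_single]

theorem insC_comp {i j : ℕ} (h : i ≤ j) (a b : unitInterval) :
    (insC (j + 1) b).comp (insC i a) = (insC i a).comp (insC j b) := by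
  ext t k
  simp only [insC, ContinuousMap.comp_apply, ContinuousMap.coe_mk, ins]
  rcases lt_trichotomy k i with h1 | h1 | h1
  · have h2 : k < j + 1 := by omega
    have h3 : k < j := by omega
    simp [h1, h2, h3]
  · subst h1
    have h2 : k < j + 1 := by omega
    simp [h2]
  · have h2 : ¬ k < i := by omega
    have h3 : ¬ k = i := by omega
    rcases lt_trichotomy k (j + 1) with h4 | h4 | h4
    · have h5 : k - 1 < j := by omega
      simp [h2, h3, h4, h5]
    · subst h4
      simp [h2, h3]
    · have h5 : ¬ k < j + 1 := by omega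
      have h6 : ¬ k = j + 1 := by omega
      have h7 : ¬ k - 1 < j := by omega
      have h8 : ¬ k - 1 = j := by omega
      have h9 : ¬ k - 1 < i := by omega
      have h10 : ¬ k - 1 = i := by omega
      simp only [h2, h3, h5, h6, h7, h8, h9, h10, if_false]

theorem bd_bd {i j : ℕ} (h : i ≤ j) :
    bd R X i * bd R X (j + 1) = bd R X j * bd R X i := by
  have hp : ∀ (a b : unitInterval) (c : Ch R X),
      pull R X (insC i a) (pull R X (insC (j + 1) b) c) =
        pull R X (insC j b) (pull R X (insC i a) c) := by
    intro a b c
    have h1 : pull R X (insC i a) * pull R X (insC (j + 1) b) =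
        pull R X (insC j b) * pull R X (insC i a) := by
      rw [pull_mul, pull_mul, insC_comp h]
    exact LinearMap.congr_fun h1 c
  refine LinearMap.ext fun c => ?_
  simp only [bd, Module.End.mul_apply, LinearMap.sub_apply, map_sub, hp]
  abel

theorem d_zero (c : Ch R X) : d R X 0 c = 0 := by
  simp [d]

/-- `d ∘ d = 0`. Split the double sum over `i < n`, `j < n + 1` into `j ≤ i` and `i < j`, and use `bd_bd`. -/
theorem d_d (n : ℕ) (c : Ch R X) : d R X n (d R X (n + 1) c) = 0 := by
  have key : d R X n * d R X (n + 1) = 0 := by
    unfold d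
    rw [Finset.sum_mul_sum, ← Finset.sum_product']
    refine Finset.sum_involution
      (fun p _ => if p.1 < p.2 then (p.2 - 1, p.1) else (p.2, p.1 + 1)) ?_ ?_ ?_ ?_
    · rintro ⟨i, j⟩ hij
      by_cases h : i < j
      · obtain ⟨k, rfl⟩ : ∃ k, j = k + 1 := ⟨j - 1, by omega⟩
        have hik : i ≤ k := by omega
        simp only [h, if_true, Nat.add_sub_cancel, smul_mul_smul_comm, bd_bd hik, ← pow_add]
        rw [← add_smul]
        have : ((-1 : R) ^ (i + (k + 1)) + (-1 : R) ^ (k + i)) = 0 := by
          rw [show i + (k + 1) = k + i + 1 by omega, pow_succ]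
          ring
        rw [this, zero_smul]
      · have hji : j ≤ i := by omega
        simp only [h, if_false, smul_mul_smul_comm, bd_bd hji, ← pow_add]
        rw [← add_smul]
        have : ((-1 : R) ^ (i + j) + (-1 : R) ^ (j + (i + 1))) = 0 := by
          rw [show j + (i + 1) = i + j + 1 by omega, pow_succ]
          ring
        rw [this, zero_smul]
    · rintro ⟨i, j⟩ hij _
      by_cases h : i < j
      · simp only [h, if_true, ne_eq, Prod.mk.injEq, not_and]
        omega
      · simp only [h, if_false, ne_eq, Prod.mk.injEq, not_and]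
        omega
    · rintro ⟨i, j⟩ hij
      simp only [Finset.mem_product, Finset.mem_range] at hij
      by_cases h : i < j
      · simp only [h, if_true, Finset.mem_product, Finset.mem_range]
        omega
      · simp only [h, if_false, Finset.mem_product, Finset.mem_range]
        omega
    · rintro ⟨i, j⟩ hij
      by_cases h : i < j
      · have h2 : ¬ (j - 1 < i) := by omega
        have h3 : j - 1 + 1 = j := by omega
        simp only [h, if_true, h2, if_false, h3]
      · have h2 : j < i + 1 := by omega
        simp only [h, if_false, h2, if_true, Nat.add_sub_cancel]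
  have := congrArg (fun f : Module.End R (Ch R X) => f c) key
  simpa using this

theorem d_push (f : C(X, Y)) (n : ℕ) (c : Ch R X) :
    d R Y n (push R f c) = push R f (d R X n c) := by
  simp only [d, LinearMap.sum_apply, LinearMap.smul_apply, bd, LinearMap.sub_apply, map_sum,
    map_smul, map_sub, push_pull]

theorem M_mono {U V : Set X} (h : U ⊆ V) (n : ℕ) : M R n U ≤ M R n V := by
  refine Finsupp.supported_mono fun T hT => ⟨hT.1, hT.2.imp (fun h1 t => h (h1 t)) id⟩

theorem M_inf (n : ℕ) (U V : Set X) : M R n U ⊓ M R n V ≤ M R n (U ∩ V) := by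
  unfold M
  rw [← Finsupp.supported_inter]
  refine Finsupp.supported_mono ?_
  rintro T ⟨⟨h1, h2⟩, ⟨_, h3⟩⟩
  refine ⟨h1, ?_⟩
  rcases h2 with h2 | h2
  · rcases h3 with h3 | h3
    · exact Or.inl fun t => ⟨h2 t, h3 t⟩
    · exact Or.inr h3
  · exact Or.inr h2

theorem mem_M_inter {n : ℕ} {U V : Set X} {c : Ch R X} (h1 : c ∈ M R n U) (h2 : c ∈ M R n V) :
    c ∈ M R n (U ∩ V) := M_inf n U V ⟨h1, h2⟩

/-- An operator that is given on cubes maps `M R n U` to a submodule if it does so on the cubes. -/
theorem M_induction {n : ℕ} {U : Set X} {N : Type} [AddCommGroup N] [Module R N] (P : Submodule R N)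
    (φ : Ch R X →ₗ[R] N)
    (h : ∀ T : C(W, X), IsCube n T → ((∀ t, T t ∈ U) ∨ Deg n T) → φ (Finsupp.single T 1) ∈ P)
    {c : Ch R X} (hc : c ∈ M R n U) : φ c ∈ P := by
  rw [← Finsupp.sum_single c, Finsupp.sum, map_sum]
  refine Submodule.sum_mem _ fun T hT => ?_
  have h1 := (Finsupp.mem_supported R c).1 hc hT
  have h2 : Finsupp.single T (c T) = c T • (Finsupp.single T (1 : R)) := by simp
  rw [h2, map_smul]
  exact Submodule.smul_mem _ _ (h T h1.1 h1.2)

private theorem isCube_face {n i : ℕ} (hi : i < n + 1) (a : unitInterval) {T : C(W, X)}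
    (hT : IsCube (n + 1) T) : IsCube n (T.comp (insC i a)) := by
  intro s t hst
  refine hT _ _ fun k hk => ?_
  simp only [insC, ContinuousMap.coe_mk, ins]
  split_ifs with h1 h2
  · exact hst k (by omega)
  · rfl
  · exact hst (k - 1) (by omega)

private theorem face_eq {i : ℕ} {T : C(W, X)} (h : Indep i T) (a b : unitInterval) :
    T.comp (insC i a) = T.comp (insC i b) := by
  ext t
  refine h _ _ fun k hk => ?_
  simp only [insC, ContinuousMap.coe_mk, ins, hk, if_false]

private theorem indep_face_lt {i j : ℕ} (hij : i < j) {T : C(W, X)} (h : Indep j T)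
    (a : unitInterval) : Indep (j - 1) (T.comp (insC i a)) := by
  intro s t hst
  refine h _ _ fun k hk => ?_
  simp only [insC, ContinuousMap.coe_mk, ins]
  split_ifs with h1 h2
  · exact hst k (by omega)
  · rfl
  · exact hst (k - 1) (by omega)

private theorem indep_face_gt {i j : ℕ} (hij : j < i) {T : C(W, X)} (h : Indep j T)
    (a : unitInterval) : Indep j (T.comp (insC i a)) := by
  intro s t hst
  refine h _ _ fun k hk => ?_
  simp only [insC, ContinuousMap.coe_mk, ins]
  split_ifs with h1 h2
  · exact hst k hk
  · rfl
  · exact hst (k - 1) (by omega)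

/-- The boundary of a chain of `(n+1)`-cubes (degenerate or in `U`) is a chain of `n`-cubes (degenerate or in
`U`). If `T` does not depend on the coordinate `i` then `bd i T = 0` and the other faces do not depend on the
coordinate `i` or `i - 1`. -/
theorem d_mem {n : ℕ} {U : Set X} {c : Ch R X} (h : c ∈ M R (n + 1) U) :
    d R X (n + 1) c ∈ M R n U := by
  refine M_induction (M R n U) (d R X (n + 1)) (fun T hT hU => ?_) h
  simp only [d, LinearMap.sum_apply, LinearMap.smul_apply]
  refine Submodule.sum_mem _ fun i hi => Submodule.smul_mem _ _ ?_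
  have hi' : i < n + 1 := Finset.mem_range.1 hi
  simp only [bd, LinearMap.sub_apply, pull_single]
  have face : ∀ a : unitInterval, ((∀ t, (T.comp (insC i a)) t ∈ U) ∨ Deg n (T.comp (insC i a))) →
      Finsupp.single (T.comp (insC i a)) (1 : R) ∈ M R n U := fun a ha =>
    Finsupp.single_mem_supported R _ ⟨isCube_face hi' a hT, ha⟩
  rcases hU with hU | ⟨j, hj, hT2⟩
  · exact Submodule.sub_mem _ (face 1 (Or.inl fun t => hU _)) (face 0 (Or.inl fun t => hU _))
  · rcases lt_trichotomy i j with hij | hij | hij
    · exact Submodule.sub_mem _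
        (face 1 (Or.inr ⟨j - 1, by omega, indep_face_lt hij hT2 1⟩))
        (face 0 (Or.inr ⟨j - 1, by omega, indep_face_lt hij hT2 0⟩))
    · subst hij
      rw [face_eq hT2 1 0, sub_self]
      exact Submodule.zero_mem _
    · exact Submodule.sub_mem _
        (face 1 (Or.inr ⟨j, by omega, indep_face_gt hij hT2 1⟩))
        (face 0 (Or.inr ⟨j, by omega, indep_face_gt hij hT2 0⟩))

theorem push_mem {f : C(X, Y)} {U : Set X} {V : Set Y} (h : ∀ x ∈ U, f x ∈ V) {n : ℕ} {c : Ch R X}
    (hc : c ∈ M R n U) : push R f c ∈ M R n V := by
  refine M_induction (M R n V) (push R f) (fun T hT hU => ?_) hc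
  rw [push_single]
  refine Finsupp.single_mem_supported R _ ⟨fun s t hst => ?_, ?_⟩
  · simp only [ContinuousMap.comp_apply, hT s t hst]
  · rcases hU with hU | ⟨j, hj, hT2⟩
    · exact Or.inl fun t => h _ (hU t)
    · exact Or.inr ⟨j, hj, fun s t hst => by simp only [ContinuousMap.comp_apply, hT2 s t hst]⟩

end Pool.Agent.Lib.MP_c2ffe9_gt
end

section

/-!
# Subdivision: chain map, naturality, chain homotopy to the identity
-/

namespace Pool.Agent.Lib.MP_c2ffe9_gt

open unitInterval

variable {R : Type} [CommRing R] {X Y : Type} [TopologicalSpace X] [TopologicalSpace Y]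

private theorem half_apply (i : ℕ) (e : Bool) (t : W) (k : ℕ) :
    half i e t k = if k = i then halfI e (t i) else t k := by
  show Function.update t i (halfI e (t i)) k = _
  by_cases h : k = i
  · subst h; simp
  · simp [h]

private theorem insC_apply (i : ℕ) (a : unitInterval) (t : W) (k : ℕ) :
    insC i a t k = if k < i then t k else if k = i then a else t (k - 1) := rfl

private theorem half_ins_lt {i j : ℕ} (h : j < i) (e : Bool) (a : unitInterval) :
    (half i e).comp (insC j a) = (insC j a).comp (half (i - 1) e) := by
  ext1 t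
  funext k
  simp only [ContinuousMap.comp_apply, half_apply, insC_apply]
  split_ifs <;> first | rfl | omega

private theorem half_ins_gt {i j : ℕ} (h : i < j) (e : Bool) (a : unitInterval) :
    (half i e).comp (insC j a) = (insC j a).comp (half i e) := by
  ext1 t
  funext k
  simp only [ContinuousMap.comp_apply, half_apply, insC_apply]
  split_ifs <;> first | rfl | omega

private theorem half_ins_self (i : ℕ) (e : Bool) (a : unitInterval) :
    (half i e).comp (insC i a) = insC i (halfI e a) := by
  ext1 t
  funext k
  simp only [ContinuousMap.comp_apply, half_apply, insC_apply]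
  split_ifs <;> first | rfl | omega

private theorem pull_pull (g h : C(W, W)) (c : Ch R X) :
    pull R X g (pull R X h c) = pull R X (h.comp g) c := by
  rw [← pull_mul, Module.End.mul_apply]

private theorem bd_apply (i : ℕ) (c : Ch R X) :
    bd R X i c = pull R X (insC i 1) c - pull R X (insC i 0) c := by
  unfold bd
  rw [LinearMap.sub_apply]

private theorem hh_apply (i : ℕ) (c : Ch R X) :
    hh R X i c = pull R X (half i false) c + pull R X (half i true) c := by
  unfold hh
  rw [LinearMap.add_apply]

/-- `(half i e).comp (insC j a)` is `(insC j a).comp (half (i - 1) e)` for `j < i`, and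
`(insC j a).comp (half i e)` for `i < j`. -/
theorem bd_hh_lt {i j : ℕ} (h : j < i) : bd R X j * hh R X i = hh R X (i - 1) * bd R X j := by
  refine LinearMap.ext fun c => ?_
  simp only [Module.End.mul_apply, bd_apply, hh_apply, map_add, map_sub, pull_pull, half_ins_lt h]
  abel

theorem bd_hh_gt {i j : ℕ} (h : i < j) : bd R X j * hh R X i = hh R X i * bd R X j := by
  refine LinearMap.ext fun c => ?_
  simp only [Module.End.mul_apply, bd_apply, hh_apply, map_add, map_sub, pull_pull, half_ins_gt h]
  abel

/-- The inner faces cancel: `halfI false 1 = halfI true 0`, `halfI false 0 = 0`, `halfI true 1 = 1`. -/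
theorem bd_hh_self (i : ℕ) : bd R X i * hh R X i = bd R X i := by
  have h1 : halfI false 0 = 0 := by
    apply Subtype.ext; simp [halfI]
  have h2 : halfI true 1 = 1 := by
    apply Subtype.ext; simp [halfI]
  have h3 : halfI true 0 = halfI false 1 := by
    apply Subtype.ext; simp [halfI]
  refine LinearMap.ext fun c => ?_
  simp only [Module.End.mul_apply, bd_apply, hh_apply, map_add, pull_pull, half_ins_self, h1, h2, h3]
  abel

/-- By induction on `n` from the three statements above (`sd (n+1) = sd n * hh n`): for `j < n` use
`bd j * sd n = sd (n-1) * bd j` and then `bd j * hh n = hh (n-1) * bd j`; for `j = n` use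
`bd n * sd n = sd n * bd n` (all `hh i`, `i < n`, commute with `bd n`) and `bd n * hh n = bd n`. -/
theorem bd_sd {j n : ℕ} (h : j < n + 1) : bd R X j * sd R X (n + 1) = sd R X n * bd R X j := by
  have hc : ∀ m n : ℕ, m ≤ n → bd R X n * sd R X m = sd R X m * bd R X n := by
    intro m n
    induction m with
    | zero => intro _; simp [sd]
    | succ m ih =>
      intro hm
      rw [sd, ← mul_assoc, ih (by omega), mul_assoc, bd_hh_gt (by omega), mul_assoc]
  induction n with
  | zero =>
    have hj : j = 0 := by omega
    subst hj
    show bd R X 0 * (1 * hh R X 0) = 1 * bd R X 0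
    rw [one_mul, one_mul, bd_hh_self]
  | succ n ih =>
    rcases Nat.lt_or_ge j (n + 1) with hj | hj
    · rw [sd, ← mul_assoc, ih hj, mul_assoc, bd_hh_lt hj, Nat.add_sub_cancel, ← mul_assoc, ← sd]
    · have hj' : j = n + 1 := by omega
      subst hj'
      rw [sd, ← mul_assoc, hc (n + 1) (n + 1) le_rfl, mul_assoc, bd_hh_self]

theorem d_sd (n : ℕ) (c : Ch R X) :
    d R X (n + 1) (sd R X (n + 1) c) = sd R X n (d R X (n + 1) c) := by
  have h : d R X (n + 1) * sd R X (n + 1) = sd R X n * d R X (n + 1) := by
    unfold d
    rw [Finset.sum_mul, Finset.mul_sum]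
    refine Finset.sum_congr rfl fun j hj => ?_
    rw [smul_mul_assoc, mul_smul_comm, bd_sd (Finset.mem_range.1 hj)]
  exact congrArg (fun φ : Module.End R (Ch R X) => φ c) h

theorem d_sd_pow (n N : ℕ) (c : Ch R X) :
    d R X (n + 1) ((sd R X (n + 1) ^ N) c) = (sd R X n ^ N) (d R X (n + 1) c) := by
  induction N generalizing c with
  | zero => simp
  | succ N ih => rw [pow_succ, pow_succ, Module.End.mul_apply, Module.End.mul_apply, ih, d_sd]

theorem push_sd (f : C(X, Y)) (n : ℕ) (c : Ch R X) :
    push R f (sd R X n c) = sd R Y n (push R f c) := by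
  induction n generalizing c with
  | zero => rfl
  | succ n ih =>
    rw [sd, sd, Module.End.mul_apply, Module.End.mul_apply, ih]
    unfold hh
    rw [LinearMap.add_apply, map_add, push_pull, push_pull, LinearMap.add_apply]

theorem push_sd_pow (f : C(X, Y)) (n N : ℕ) (c : Ch R X) :
    push R f ((sd R X n ^ N) c) = (sd R Y n ^ N) (push R f c) := by
  induction N generalizing c with
  | zero => simp
  | succ N ih => rw [pow_succ, pow_succ, Module.End.mul_apply, Module.End.mul_apply, ih, push_sd]

/-- `pull (half i e)` keeps `IsCube n` for `i < n` (in fact for all `i`: if `i ≥ n` then nothing changes), keeps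
`Indep j` and the values. -/
theorem sd_mem {n : ℕ} {U : Set X} {c : Ch R X} (h : c ∈ M R n U) : sd R X n c ∈ M R n U := by
  have hp : ∀ (i : ℕ) (e : Bool) (c : Ch R X), c ∈ M R n U → pull R X (half i e) c ∈ M R n U := by
    intro i e c hc
    refine M_induction (M R n U) (pull R X (half i e)) ?_ hc
    intro T hT hU
    rw [pull_single]
    refine Finsupp.single_mem_supported R _ ?_
    refine ⟨?_, ?_⟩
    · intro s t hst
      refine hT _ _ fun k hk => ?_
      rw [half_apply, half_apply]
      split_ifs with hki
      · rw [← hki, hst k hk]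
      · exact hst k hk
    · rcases hU with hU | ⟨j, hj, hI⟩
      · exact Or.inl fun t => hU _
      · refine Or.inr ⟨j, hj, ?_⟩
        intro s t hst
        refine hI _ _ fun k hk => ?_
        rw [half_apply, half_apply]
        split_ifs with hki
        · rw [← hki, hst k hk]
        · exact hst k hk
  have hs : ∀ (m : ℕ) (c : Ch R X), c ∈ M R n U → sd R X m c ∈ M R n U := by
    intro m
    induction m with
    | zero => intro c hc; exact hc
    | succ m ih =>
      intro c hc
      rw [sd, Module.End.mul_apply]
      refine ih _ ?_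
      unfold hh
      rw [LinearMap.add_apply]
      exact Submodule.add_mem _ (hp m false c hc) (hp m true c hc)
  exact hs n c h

theorem sd_pow_mem {n : ℕ} {U : Set X} {c : Ch R X} (h : c ∈ M R n U) (N : ℕ) :
    (sd R X n ^ N) c ∈ M R n U := by
  induction N generalizing c with
  | zero => simpa using h
  | succ N ih =>
    rw [pow_succ, Module.End.mul_apply]
    exact ih (sd_mem h)

end Pool.Agent.Lib.MP_c2ffe9_gt
end

section

/-!
# The chain homotopy between the identity and the subdivision
-/

namespace Pool.Agent.Lib.MP_c2ffe9_gt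

open unitInterval

variable {R : Type} [CommRing R] {X Y : Type} [TopologicalSpace X] [TopologicalSpace Y]

private theorem sub_mul' (a b c : Module.End R (Ch R X)) : (a - b) * c = a * c - b * c :=
  sub_mul a b c

private theorem mul_sub' (a b c : Module.End R (Ch R X)) : a * (b - c) = a * b - a * c :=
  mul_sub a b c

private theorem insC_apply' (i : ℕ) (a : unitInterval) (t : W) (j : ℕ) :
    insC i a t j = if j < i then t j else if j = i then a else t (j - 1) := rfl

private theorem tw_apply' (m i : ℕ) (e : Bool) (t : W) (j : ℕ) :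
    tw m i e t j = if j = i then etaI e (t i) (t m) else t j := by
  show Function.update t i (etaI e (t i) (t m)) j = _
  rw [Function.update_apply]

private theorem half_apply' (i : ℕ) (e : Bool) (t : W) (j : ℕ) :
    half i e t j = if j = i then halfI e (t i) else t j := by
  show Function.update t i (halfI e (t i)) j = _
  rw [Function.update_apply]

private theorem tw_ins_lt {m i j : ℕ} (h : j < i) (hm : i < m) (e : Bool) (a : unitInterval) :
    (tw m i e).comp (insC j a) = (insC j a).comp (tw (m - 1) (i - 1) e) := by
  ext t k
  simp only [ContinuousMap.comp_apply, insC_apply', tw_apply']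
  have h1 : ¬ i < j := by omega
  have h2 : i ≠ j := by omega
  have h3 : ¬ m < j := by omega
  have h4 : m ≠ j := by omega
  simp only [h1, h2, h3, h4, if_false]
  by_cases hk : k = i
  · subst hk
    simp [h1, h2]
  · simp only [hk, if_false]
    by_cases hk2 : k < j
    · have : k ≠ i - 1 := by omega
      simp [hk2, this]
    · by_cases hk3 : k = j
      · simp [hk3]
      · have : k - 1 ≠ i - 1 := by omega
        simp [hk2, hk3, this]

private theorem tw_ins_gt {m i j : ℕ} (h : i < j) (hm : j < m) (e : Bool) (a : unitInterval) :
    (tw m i e).comp (insC j a) = (insC j a).comp (tw (m - 1) i e) := by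
  ext t k
  simp only [ContinuousMap.comp_apply, insC_apply', tw_apply']
  have h3 : ¬ m < j := by omega
  have h4 : m ≠ j := by omega
  simp only [h, h3, h4, if_false, if_true]
  by_cases hk : k = i
  · subst hk
    simp [h]
  · simp only [hk, if_false]
    by_cases hk2 : k < j
    · simp [hk2]
    · by_cases hk3 : k = j
      · simp [hk3]
      · have : k - 1 ≠ i := by omega
        simp [hk2, hk3, this]

private theorem tw_ins_eq {m i : ℕ} (h : i < m) (e : Bool) (a : unitInterval) (t : W) (k : ℕ) :
    ((tw m i e).comp (insC i a)) t k = insC i (etaI e a (t (m - 1))) t k := by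
  simp only [ContinuousMap.comp_apply, insC_apply', tw_apply']
  have h3 : ¬ m < i := by omega
  have h4 : m ≠ i := by omega
  by_cases hk : k = i
  · subst hk
    simp [h3, h4]
  · simp [hk]

private theorem eta_false_zero (s : unitInterval) : etaI false 0 s = 0 := by
  ext
  simp [etaI]

private theorem eta_true_one (s : unitInterval) : etaI true 1 s = 1 := by
  ext
  simp [etaI]

private theorem eta_mid (s : unitInterval) : etaI false 1 s = etaI true 0 s := by
  ext
  simp [etaI]

private theorem eta_zero (e : Bool) (x : unitInterval) : etaI e x 0 = halfI e x := by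
  ext
  cases e
  · simp [etaI, halfI]
  · simp [etaI, halfI]
    ring

private theorem eta_false_one' (x : unitInterval) : etaI false x 1 = x := by
  ext
  simp [etaI]
  ring

private theorem eta_true_one' (x : unitInterval) : etaI true x 1 = 1 := by
  ext
  simp [etaI]

/-- `(tw m i e).comp (insC j a)` is `(insC j a).comp (tw (m - 1) (i - 1) e)` for `j < i < m`, and
`(insC j a).comp (tw (m - 1) i e)` for `i < j < m`. -/
theorem bd_th_lt {m i j : ℕ} (h : j < i) (hm : i < m) :
    bd R X j * th R X m i = th R X (m - 1) (i - 1) * bd R X j := by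
  simp only [bd, th, sub_mul', mul_add, mul_sub', add_mul, pull_mul, tw_ins_lt h hm]

theorem bd_th_gt {m i j : ℕ} (h : i < j) (hm : j < m) :
    bd R X j * th R X m i = th R X (m - 1) i * bd R X j := by
  simp only [bd, th, sub_mul', mul_add, mul_sub', add_mul, pull_mul, tw_ins_gt h hm]

/-- The inner faces cancel: `etaI false 1 s = etaI true 0 s`, `etaI false 0 s = 0`, `etaI true 1 s = 1`. -/
theorem bd_th_self {m i : ℕ} (h : i < m) : bd R X i * th R X m i = bd R X i := by
  have h1 : (tw m i false).comp (insC i 0) = insC i 0 := by
    ext t k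
    rw [tw_ins_eq h, eta_false_zero]
  have h2 : (tw m i true).comp (insC i 1) = insC i 1 := by
    ext t k
    rw [tw_ins_eq h, eta_true_one]
  have h3 : (tw m i false).comp (insC i 1) = (tw m i true).comp (insC i 0) := by
    ext t k
    rw [tw_ins_eq h, tw_ins_eq h, eta_mid]
  simp only [bd, th, sub_mul', mul_add, pull_mul, h1, h2, h3]
  abel

/-- As `bd_sd`. -/
theorem bd_Th {m j n : ℕ} (h : j < n + 1) (hm : n < m) :
    bd R X j * Th R X m (n + 1) = Th R X (m - 1) n * bd R X j := by
  have hcomm : ∀ (l j : ℕ), l ≤ j → j < m →
      bd R X j * Th R X m l = Th R X (m - 1) l * bd R X j := by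
    intro l
    induction l with
    | zero =>
      intro j _ _
      simp [Th]
    | succ l ih =>
      intro j hl hj
      rw [Th, Th, ← mul_assoc, ih j (by omega) hj, mul_assoc, bd_th_gt (by omega) hj, mul_assoc]
  induction n with
  | zero =>
    have hj : j = 0 := by omega
    subst hj
    simp only [Th, one_mul]
    exact bd_th_self hm
  | succ n ih =>
    by_cases hj : j < n + 1
    · rw [Th, ← mul_assoc, ih hj (by omega), mul_assoc, bd_th_lt hj hm, ← mul_assoc]
      simp only [Nat.add_sub_cancel, Th]
    · have hj2 : j = n + 1 := by omega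
      subst hj2
      rw [Th, ← mul_assoc, hcomm (n + 1) (n + 1) le_rfl hm, mul_assoc, bd_th_self hm]

private theorem pull_insC_self {m : ℕ} (a : unitInterval) {U : Set X} {c : Ch R X}
    (hc : c ∈ M R m U) : pull R X (insC m a) c = c := by
  have h := M_induction (n := m) (U := U) (⊥ : Submodule R (Ch R X))
    (pull R X (insC m a) - 1) (fun T hT _ => by
      have h1 : T.comp (insC m a) = T := by
        ext t
        exact hT _ _ fun i hi => by simp [insC_apply', hi]
      rw [Submodule.mem_bot, LinearMap.sub_apply, pull_single, h1]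
      simp) hc
  rw [Submodule.mem_bot, LinearMap.sub_apply] at h
  simpa [sub_eq_zero] using h

/-- The face `t m = 0` of `Th m n T` (`n ≤ m`) is the subdivision of `T`, for a cube `T` that does not depend
on the coordinates `≥ m`. (`(tw m i e).comp (insC m 0) = (insC m 0).comp (half i e)` for `i < m`, and
`T.comp (insC m 0) = T` if `IsCube m T`.) -/
theorem Th_face_zero {m n : ℕ} (h : n ≤ m) {U : Set X} {c : Ch R X} (hc : c ∈ M R m U) :
    pull R X (insC m 0) (Th R X m n c) = sd R X n c := by
  have h1 : ∀ l, l ≤ m → pull R X (insC m 0) * Th R X m l = sd R X l * pull R X (insC m 0) := by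
    intro l
    induction l with
    | zero =>
      intro _
      simp [Th, sd]
    | succ l ih =>
      intro hl
      rw [Th, sd, ← mul_assoc, ih (by omega), mul_assoc, mul_assoc]
      congr 1
      have h2 : ∀ e, (tw m l e).comp (insC m 0) = (insC m 0).comp (half l e) := by
        intro e
        ext t k
        simp only [ContinuousMap.comp_apply, insC_apply', tw_apply', half_apply']
        have h3 : l < m := by omega
        simp only [h3, if_true, lt_irrefl, if_false]
        by_cases hk : k = l
        · subst hk
          simp [h3, eta_zero]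
        · simp only [hk, if_false]
          by_cases hk2 : k < m
          · simp [hk2]
          · by_cases hk3 : k = m
            · simp [hk3]
            · have : k - 1 ≠ l := by omega
              simp [hk2, hk3, this]
      simp only [th, hh, mul_add, add_mul, pull_mul, h2]
  have h3 := congrArg (fun φ : Module.End R (Ch R X) => φ c) (h1 n h)
  simp only [Module.End.mul_apply] at h3
  rw [h3, pull_insC_self 0 hc]

/-- Put the coordinate `i` equal to `1`. -/
private def up1 (i : ℕ) : C(W, W) :=
  ⟨fun t => Function.update t i 1, by exact (continuous_id).update i continuous_const⟩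

private theorem up1_apply (i : ℕ) (t : W) (j : ℕ) : up1 i t j = if j = i then 1 else t j := by
  show Function.update t i 1 j = _
  rw [Function.update_apply]

private theorem up1_mem {m i : ℕ} (hi : i < m) {U : Set X} {c : Ch R X} (hc : c ∈ M R m U) :
    pull R X (up1 i) c ∈ M R m (∅ : Set X) := by
  refine M_induction _ _ (fun T hT _ => ?_) hc
  rw [pull_single]
  refine Finsupp.single_mem_supported R _ ⟨?_, Or.inr ⟨i, hi, ?_⟩⟩
  · intro s t hst
    refine hT _ _ fun j hj => ?_
    rw [up1_apply, up1_apply, hst j hj]
  · intro s t hst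
    have : up1 i s = up1 i t := by
      funext j
      rw [up1_apply, up1_apply]
      by_cases hj : j = i
      · simp [hj]
      · simp [hj, hst j hj]
    rw [ContinuousMap.comp_apply, ContinuousMap.comp_apply, this]

/-- The face `t m = 1` of `Th m n T` is `T` up to degenerate cubes: `etaI false x 1 = x`, `etaI true x 1 = 1`. -/
theorem Th_face_one {m n : ℕ} (h : n ≤ m) {c : Ch R X} (hc : c ∈ M R m (Set.univ : Set X)) :
    pull R X (insC m 1) (Th R X m n c) - c ∈ M R m (∅ : Set X) := by
  have key : ∀ l, l ≤ m → ∃ Q : Module.End R (Ch R X),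
      pull R X (insC m 1) * Th R X m l = Q * pull R X (insC m 1) ∧
      (∀ c ∈ M R m (∅ : Set X), Q c ∈ M R m (∅ : Set X)) ∧
      (∀ c ∈ M R m (Set.univ : Set X), Q c - c ∈ M R m (∅ : Set X)) := by
    intro l
    induction l with
    | zero =>
      intro _
      refine ⟨1, by simp [Th], fun c hc => by simpa using hc, fun c _ => by simp⟩
    | succ l ih =>
      intro hl
      obtain ⟨Q, hQ1, hQ2, hQ3⟩ := ih (by omega)
      refine ⟨Q * (1 + pull R X (up1 l)), ?_, ?_, ?_⟩
      · rw [Th, ← mul_assoc, hQ1, mul_assoc, mul_assoc]
        congr 1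
        have h2 : (tw m l false).comp (insC m 1) = insC m 1 := by
          ext t k
          simp only [ContinuousMap.comp_apply, insC_apply', tw_apply']
          have h3 : l < m := by omega
          simp only [h3, if_true, lt_irrefl, if_false, eta_false_one']
          by_cases hk : k = l
          · subst hk
            simp [h3]
          · simp [hk]
        have h4 : (tw m l true).comp (insC m 1) = (insC m 1).comp (up1 l) := by
          ext t k
          simp only [ContinuousMap.comp_apply, insC_apply', tw_apply', up1_apply]
          have h3 : l < m := by omega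
          simp only [h3, if_true, lt_irrefl, if_false, eta_true_one']
          by_cases hk : k = l
          · subst hk
            simp [h3]
          · simp only [hk, if_false]
            by_cases hk2 : k < m
            · simp [hk2]
            · by_cases hk3 : k = m
              · simp [hk3]
              · have : k - 1 ≠ l := by omega
                simp [hk2, hk3, this]
        simp only [th, mul_add, add_mul, one_mul, pull_mul, h2, h4]
      · intro c hc
        have : (Q * (1 + pull R X (up1 l))) c = Q c + Q (pull R X (up1 l) c) := by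
          simp [Module.End.mul_apply]
        rw [this]
        exact Submodule.add_mem _ (hQ2 c hc) (hQ2 _ (up1_mem (by omega) hc))
      · intro c hc
        have : (Q * (1 + pull R X (up1 l))) c - c = (Q c - c) + Q (pull R X (up1 l) c) := by
          simp [Module.End.mul_apply]
          abel
        rw [this]
        exact Submodule.add_mem _ (hQ3 c hc) (hQ2 _ (up1_mem (by omega) hc))
  obtain ⟨Q, hQ1, _, hQ3⟩ := key n h
  have h3 := congrArg (fun φ : Module.End R (Ch R X) => φ c) hQ1
  simp only [Module.End.mul_apply] at h3
  rw [h3, pull_insC_self 1 hc]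
  exact hQ3 c hc

/-- `pull (tw n i e)` maps `n`-cubes and `(n+1)`-cubes to `(n+1)`-cubes if `i < n`, it keeps `Indep j` for
`j < n`, and the values. -/
theorem Phi_mem {n : ℕ} {U : Set X} {c : Ch R X} (h : c ∈ M R n U) :
    Phi R X n c ∈ M R (n + 1) U := by
  have h1 : ∀ (i : ℕ) (e : Bool), i < n → ∀ c ∈ Finsupp.supported R R
      {T : C(W, X) | IsCube (n + 1) T ∧ ((∀ t, T t ∈ U) ∨ Deg n T)},
      pull R X (tw n i e) c ∈ Finsupp.supported R R
      {T : C(W, X) | IsCube (n + 1) T ∧ ((∀ t, T t ∈ U) ∨ Deg n T)} := by
    intro i e hi c hc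
    rw [← Finsupp.sum_single c, Finsupp.sum, map_sum]
    refine Submodule.sum_mem _ fun T hT => ?_
    obtain ⟨h1, h2⟩ := (Finsupp.mem_supported R c).1 hc hT
    rw [pull_single]
    refine Finsupp.single_mem_supported R _ ⟨?_, ?_⟩
    · intro s t hst
      refine h1 _ _ fun j hj => ?_
      rw [tw_apply', tw_apply', hst j hj, hst n (by omega), hst i (by omega)]
    · rcases h2 with h2 | ⟨j, hj, h2⟩
      · exact Or.inl fun t => h2 _
      · refine Or.inr ⟨j, hj, ?_⟩
        intro s t hst
        refine h2 _ _ fun k hk => ?_
        rw [tw_apply', tw_apply']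
        by_cases hki : k = i
        · subst hki
          rw [hst k hk, hst n (by omega)]
        · simp only [hki, if_false]
          exact hst k hk
  have h2 : ∀ l ≤ n, ∀ c ∈ Finsupp.supported R R
      {T : C(W, X) | IsCube (n + 1) T ∧ ((∀ t, T t ∈ U) ∨ Deg n T)},
      Th R X n l c ∈ Finsupp.supported R R
      {T : C(W, X) | IsCube (n + 1) T ∧ ((∀ t, T t ∈ U) ∨ Deg n T)} := by
    intro l
    induction l with
    | zero =>
      intro _ c hc
      simpa [Th] using hc
    | succ l ih =>
      intro hl c hc
      rw [Th, Module.End.mul_apply]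
      refine ih (by omega) _ ?_
      rw [th, LinearMap.add_apply]
      exact Submodule.add_mem _ (h1 l false (by omega) c hc) (h1 l true (by omega) c hc)
  have h3 : c ∈ Finsupp.supported R R
      {T : C(W, X) | IsCube (n + 1) T ∧ ((∀ t, T t ∈ U) ∨ Deg n T)} := by
    refine Finsupp.supported_mono ?_ h
    rintro T ⟨h1, h2⟩
    exact ⟨fun s t hst => h1 s t fun i hi => hst i (by omega), h2⟩
  have h4 := h2 n le_rfl c h3
  have h5 : Th R X n n c ∈ M R (n + 1) U := by
    refine Finsupp.supported_mono ?_ h4
    rintro T ⟨h1, h2⟩
    refine ⟨h1, h2.imp id ?_⟩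
    rintro ⟨j, hj, h2⟩
    exact ⟨j, by omega, h2⟩
  rw [Phi, LinearMap.smul_apply]
  exact Submodule.smul_mem _ _ h5

/-- From `bd_Th`, `Th_face_zero`, `Th_face_one`: `d (n+1) = ∑ j < n, (-1)^j bd j + (-1)^n bd n`, and
`(-1)^j (-1)^n bd j (Th n n) = - (-1)^(n-1) (-1)^j (Th (n-1) (n-1)) (bd j)`. -/
theorem Phi_eq {n : ℕ} {c : Ch R X} (h : c ∈ M R n (Set.univ : Set X)) :
    c - sd R X n c - d R X (n + 1) (Phi R X n c) - Phi R X (n - 1) (d R X n c) ∈
      M R n (∅ : Set X) := by
  have h0 : d R X (n + 1) (Phi R X n c) =
      ((-1 : R) ^ n) • d R X n (Th R X n n c) +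
        (pull R X (insC n 1) (Th R X n n c) - sd R X n c) := by
    rw [← Th_face_zero (le_refl n) h, d, Finset.sum_range_succ, LinearMap.add_apply, Phi,
      LinearMap.smul_apply, map_smul, map_smul, LinearMap.smul_apply, smul_smul, ← mul_pow]
    simp [bd, d]
  have h2 : ((-1 : R) ^ n) • d R X n (Th R X n n c) + Phi R X (n - 1) (d R X n c) = 0 := by
    rcases n with _ | k
    · simp [d]
    · have h3 : d R X (k + 1) (Th R X (k + 1) (k + 1) c) = Th R X k k (d R X (k + 1) c) := by
        simp only [d, LinearMap.sum_apply, LinearMap.smul_apply, map_sum, map_smul]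
        refine Finset.sum_congr rfl fun j hj => ?_
        have h4 := congrArg (fun φ : Module.End R (Ch R X) => φ c)
          (bd_Th (R := R) (X := X) (m := k + 1) (Finset.mem_range.1 hj) (Nat.lt_succ_self k))
        simp only [Module.End.mul_apply, Nat.add_sub_cancel] at h4
        rw [h4]
      rw [h3, Phi, LinearMap.smul_apply, Nat.add_sub_cancel, pow_succ]
      simp
  have h5 : c - sd R X n c - d R X (n + 1) (Phi R X n c) - Phi R X (n - 1) (d R X n c) =
      -(pull R X (insC n 1) (Th R X n n c) - c) -
        (((-1 : R) ^ n) • d R X n (Th R X n n c) + Phi R X (n - 1) (d R X n c)) := by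
    rw [h0]
    abel
  rw [h5, h2, sub_zero]
  exact Submodule.neg_mem _ (Th_face_one le_rfl h)

end Pool.Agent.Lib.MP_c2ffe9_gt
end
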