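import Mathlib
import Pool.Agent.Lib.MP_c2ffe9_gt.Defs
import Pool.Agent.Lib.MP_c2ffe9_gt.Phi

section

/-!
# The example: definitions and elementary properties
-/

namespace Pool.Agent.Lib.MP_c2ffe9_gt

open unitInterval

/-- The complex coordinates of a point of the Hilbert cube. -/
noncomputable def zc (n : ℕ) (x : W) : ℂ :=
  ⟨2 * (x (2 * n) : ℝ) - 1, 2 * (x (2 * n + 1) : ℝ) - 1⟩

/-- `g 0 = 2 z 0`, `g (n+1) = 16 (g n)^2 - 4 z (n+1)`. -/
noncomputable def g : ℕ → W → ℂ
  | 0, x => 2 * zc 0 x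
  | n + 1, x => 16 * (g n x) ^ 2 - 4 * zc (n + 1) x

/-- The closed set of all `x` with `|g n x| ≤ 1` for all `n`. -/
def X0 : Set W := {x | ∀ n, ‖g n x‖ ≤ 1}

theorem norm_zc_le (n : ℕ) (x : W) : ‖zc n x‖ ≤ 3 / 2 := by
  have h1 := (x (2 * n)).2.1
  have h2 := (x (2 * n)).2.2
  have h3 := (x (2 * n + 1)).2.1
  have h4 := (x (2 * n + 1)).2.2
  have h5 : ‖zc n x‖ ^ 2 ≤ (3 / 2) ^ 2 := by
    rw [Complex.sq_norm, Complex.normSq_apply]
    unfold zc
    dsimp only
    nlinarith [mul_nonneg h1 (sub_nonneg.2 h2), mul_nonneg h3 (sub_nonneg.2 h4)]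
  exact le_of_sq_le_sq h5 (by norm_num)

private theorem ExA_continuous_zc (n : ℕ) : Continuous (zc n) := by
  have h : zc n = fun x => ((2 * (x (2 * n) : ℝ) - 1 : ℝ) : ℂ) +
      ((2 * (x (2 * n + 1) : ℝ) - 1 : ℝ) : ℂ) * Complex.I := by
    funext x
    exact (Complex.re_add_im _).symm
  rw [h]
  fun_prop

private theorem ExA_zc_dep {n : ℕ} {x y : W} (h : ∀ i < 2 * n + 2, x i = y i) : zc n x = zc n y := by
  unfold zc
  rw [h (2 * n) (by omega), h (2 * n + 1) (by omega)]

theorem continuous_g (n : ℕ) : Continuous (g n) := by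
  induction n with
  | zero => exact continuous_const.mul (ExA_continuous_zc 0)
  | succ n ih =>
    exact (continuous_const.mul (ih.pow 2)).sub (continuous_const.mul (ExA_continuous_zc (n + 1)))

theorem g_dep {n : ℕ} {x y : W} (h : ∀ i < 2 * n + 2, x i = y i) : g n x = g n y := by
  induction n with
  | zero =>
    rw [g, g, ExA_zc_dep h]
  | succ n ih =>
    rw [g, g, ExA_zc_dep h, ih fun i hi => h i (by omega)]

theorem g_step {n : ℕ} {x : W} (h : 1 < ‖g n x‖) : 1 < ‖g (n + 1) x‖ := by
  have h1 := norm_sub_norm_le (16 * (g n x) ^ 2) (4 * zc (n + 1) x)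
  rw [norm_mul, norm_mul, norm_pow] at h1
  have h2 := norm_zc_le (n + 1) x
  have h3 : ‖(16 : ℂ)‖ = 16 := by norm_num
  have h4 : ‖(4 : ℂ)‖ = 4 := by norm_num
  rw [h3, h4] at h1
  rw [g]
  nlinarith

theorem isClosed_X0 : IsClosed X0 := by
  have h : X0 = ⋂ n, {x | ‖g n x‖ ≤ 1} := by
    ext x
    simp only [X0, Set.mem_ofPred_eq, Set.mem_iInter]
  rw [h]
  exact isClosed_iInter fun n => isClosed_le (continuous_g n).norm continuous_const

/-- `(x, s)` goes to `x` with `z (n+1)` replaced by `exp (2 π i s)`. -/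
noncomputable def rot (n : ℕ) : C(W × unitInterval, W) :=
  ⟨fun p j => if j = 2 * n + 2 then
      ⟨(1 + Real.cos (2 * Real.pi * p.2)) / 2, by
        have h1 := Real.cos_le_one (2 * Real.pi * p.2)
        have h2 := Real.neg_one_le_cos (2 * Real.pi * p.2)
        constructor <;> linarith⟩
    else if j = 2 * n + 3 then
      ⟨(1 + Real.sin (2 * Real.pi * p.2)) / 2, by
        have h1 := Real.sin_le_one (2 * Real.pi * p.2)
        have h2 := Real.neg_one_le_sin (2 * Real.pi * p.2)
        constructor <;> linarith⟩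
    else p.1 j, by
    refine continuous_pi fun j => ?_
    split_ifs
    · fun_prop
    · fun_prop
    · fun_prop⟩

theorem g_rot (n : ℕ) (x : W) (s : unitInterval) : g n (rot n (x, s)) = g n x := by
  refine g_dep fun i hi => ?_
  change (if i = 2 * n + 2 then _ else if i = 2 * n + 3 then _ else x i) = x i
  rw [if_neg (by omega), if_neg (by omega)]

private theorem ExA_zc_rot (n : ℕ) (x : W) (s : unitInterval) :
    zc (n + 1) (rot n (x, s)) = Complex.exp (Real.pi * Complex.I * (s : ℝ)) ^ 2 := by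
  have h1 : ((rot n (x, s)) (2 * (n + 1)) : ℝ) = (1 + Real.cos (2 * Real.pi * s)) / 2 := by
    have : (rot n (x, s)) (2 * (n + 1)) = (rot n (x, s)) (2 * n + 2) := by
      rw [show 2 * (n + 1) = 2 * n + 2 by ring]
    rw [this]
    simp only [rot, ContinuousMap.coe_mk, if_true]
  have h2 : ((rot n (x, s)) (2 * (n + 1) + 1) : ℝ) = (1 + Real.sin (2 * Real.pi * s)) / 2 := by
    have : (rot n (x, s)) (2 * (n + 1) + 1) = (rot n (x, s)) (2 * n + 3) := by
      rw [show 2 * (n + 1) + 1 = 2 * n + 3 by ring]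
    rw [this]
    have h3 : ¬ (2 * n + 3 = 2 * n + 2) := by omega
    simp only [rot, ContinuousMap.coe_mk, if_neg h3, if_true]
  rw [← Complex.exp_nat_mul]
  have h4 : ((2 : ℕ) : ℂ) * (Real.pi * Complex.I * (s : ℝ)) = ((2 * Real.pi * (s : ℝ) : ℝ) : ℂ) * Complex.I := by
    push_cast
    ring
  rw [h4, Complex.exp_mul_I, ← Complex.ofReal_cos, ← Complex.ofReal_sin]
  unfold zc
  rw [h1, h2]
  generalize Real.cos (2 * Real.pi * (s : ℝ)) = c
  generalize Real.sin (2 * Real.pi * (s : ℝ)) = e
  apply Complex.ext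
  · simp
    ring
  · simp
    ring

theorem g_succ_rot (n : ℕ) (x : W) (s : unitInterval) :
    g (n + 1) (rot n (x, s)) = 16 * ((g n x - Complex.exp (Real.pi * Complex.I * (s : ℝ)) / 2) *
      (g n x + Complex.exp (Real.pi * Complex.I * (s : ℝ)) / 2)) := by
  rw [g, g_rot, ExA_zc_rot]
  ring

/-- The points whose first `n` coordinates determine that they are in `U`. -/
def fib (U : Set W) (n : ℕ) : Set W := {x | ∀ y : W, (∀ i < n, x i = y i) → y ∈ U}

theorem isOpen_fib {U : Set W} (hU : IsOpen U) (n : ℕ) : IsOpen (fib U n) := by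
  obtain ⟨r, hr⟩ : ∃ r : W → W, r = fun x i => if i < n then x i else 0 := ⟨_, rfl⟩
  have hrc : Continuous r := by
    rw [hr]
    refine continuous_pi fun i => ?_
    split_ifs
    · exact continuous_apply i
    · exact continuous_const
  have h1 : fib U n = (r ⁻¹' (r '' Uᶜ))ᶜ := by
    ext x
    constructor
    · rintro hx ⟨y, hy, hxy⟩
      refine hy (hx y fun i hi => ?_)
      have h2 := congrFun hxy i
      rw [hr] at h2
      simp only [if_pos hi] at h2
      exact h2.symm
    · intro hx y hxy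
      by_contra hy
      refine hx ⟨y, hy, ?_⟩
      rw [hr]
      funext i
      dsimp only
      split_ifs with hi
      · exact (hxy i hi).symm
      · rfl
  rw [h1]
  have h3 : IsCompact (Uᶜ) := hU.isClosed_compl.isCompact
  exact ((h3.image hrc).isClosed.preimage hrc).isOpen_compl

theorem fib_mono (U : Set W) {m n : ℕ} (h : m ≤ n) : fib U m ⊆ fib U n := by
  intro x hx y hxy
  exact hx y fun i hi => hxy i (lt_of_lt_of_le hi h)

theorem iUnion_fib {U : Set W} (hU : IsOpen U) : ⋃ n, fib U n = U := by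
  apply Set.Subset.antisymm
  · refine Set.iUnion_subset fun n x hx => hx x fun _ _ => rfl
  · intro x hx
    obtain ⟨J, u, hu, hsub⟩ := isOpen_pi_iff.1 hU x hx
    refine Set.mem_iUnion.2 ⟨J.sup id + 1, fun y hxy => hsub ?_⟩
    intro i hi
    have h1 : i ≤ J.sup id := Finset.le_sup (f := id) (Finset.mem_coe.1 hi)
    rw [← hxy i (by omega)]
    exact (hu i (Finset.mem_coe.1 hi)).2

end Pool.Agent.Lib.MP_c2ffe9_gt
end

section

/-!
# The cylinder operator and homotopies
-/

namespace Pool.Agent.Lib.MP_c2ffe9_gt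

open unitInterval

variable {R : Type} [CommRing R] {X Y : Type} [TopologicalSpace X] [TopologicalSpace Y]

/-- the cylinder of a cube -/
private def cylT (n : ℕ) (T : C(W, X)) : C(W, X × unitInterval) :=
  ⟨fun t => (T t, t n), T.continuous.prodMk (continuous_apply n)⟩

private theorem cyl_single (n : ℕ) (T : C(W, X)) (r : R) :
    cyl R X n (Finsupp.single T r) = Finsupp.single (cylT n T) r := by
  simp [cyl, cylT]

private theorem bd_single (i : ℕ) (T : C(W, X)) (r : R) :
    bd R X i (Finsupp.single T r) = Finsupp.single (T.comp (insC i 1)) r -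
      Finsupp.single (T.comp (insC i 0)) r := by
  simp [bd, pull_single]

private theorem cylT_comp_lt {n i : ℕ} (h : i < n) (a : unitInterval) (T : C(W, X)) :
    (cylT n T).comp (insC i a) = cylT (n - 1) (T.comp (insC i a)) := by
  ext1 t
  change (T (ins i a t), ins i a t n) = (T (ins i a t), t (n - 1))
  have h1 : ins i a t n = t (n - 1) := by
    unfold ins
    rw [if_neg (by omega), if_neg (by omega)]
  rw [h1]

private theorem cylT_comp_eq {n : ℕ} (a : unitInterval) {T : C(W, X)} (hT : IsCube n T) :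
    (cylT n T).comp (insC n a) = (incl X a).comp T := by
  ext1 t
  change (T (ins n a t), ins n a t n) = (T t, a)
  have h1 : ins n a t n = a := by
    unfold ins
    rw [if_neg (by omega), if_pos rfl]
  have h2 : T (ins n a t) = T t := hT _ _ fun i hi => by
    unfold ins
    rw [if_pos hi]
  rw [h1, h2]

theorem cyl_mem {n : ℕ} {U : Set X} {c : Ch R X} (hc : c ∈ M R n U) :
    cyl R X n c ∈ M R (n + 1) (U ×ˢ (Set.univ : Set unitInterval)) := by
  refine M_induction (M R (n + 1) (U ×ˢ (Set.univ : Set unitInterval))) (cyl R X n) ?_ hc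
  intro T hT h
  rw [cyl_single]
  refine Finsupp.single_mem_supported R 1 ⟨?_, ?_⟩
  · intro s t hst
    change (T s, s n) = (T t, t n)
    rw [hT s t fun i hi => hst i (by omega), hst n (by omega)]
  · rcases h with h | ⟨i, hi, h⟩
    · exact Or.inl fun t => ⟨h t, Set.mem_univ _⟩
    · refine Or.inr ⟨i, by omega, fun s t hst => ?_⟩
      change (T s, s n) = (T t, t n)
      rw [h s t hst, hst n (by omega)]

/-- For an `n`-cube `T`: `(cyl n T).comp (insC j a) = cyl (n-1) (T.comp (insC j a))` for `j < n`, and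
`(cyl n T).comp (insC n a) = (incl a).comp T` since `T.comp (insC n a) = T`. -/
theorem d_cyl {n : ℕ} {c : Ch R X} (hc : c ∈ M R n (Set.univ : Set X)) :
    d R (X × unitInterval) (n + 1) (cyl R X n c) = cyl R X (n - 1) (d R X n c) +
      ((-1 : R) ^ n) • (push R (incl X 1) c - push R (incl X 0) c) := by
  have key := M_induction (⊥ : Submodule R (Ch R (X × unitInterval)))
    ((d R (X × unitInterval) (n + 1)).comp (cyl R X n) - ((cyl R X (n - 1)).comp (d R X n) +
      ((-1 : R) ^ n) • (push R (incl X 1) - push R (incl X 0)))) ?_ hc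
  · rw [Submodule.mem_bot, LinearMap.sub_apply, sub_eq_zero] at key
    exact key
  intro T hT _
  rw [Submodule.mem_bot, LinearMap.sub_apply, sub_eq_zero]
  simp only [LinearMap.comp_apply, LinearMap.add_apply, LinearMap.smul_apply, LinearMap.sub_apply,
    cyl_single, push_single]
  unfold d
  rw [Finset.sum_range_succ, LinearMap.add_apply]
  congr 1
  · rw [LinearMap.sum_apply, LinearMap.sum_apply, map_sum]
    refine Finset.sum_congr rfl fun i hi => ?_
    rw [LinearMap.smul_apply, LinearMap.smul_apply, map_smul, bd_single, bd_single, map_sub,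
      cyl_single, cyl_single, cylT_comp_lt (Finset.mem_range.1 hi),
      cylT_comp_lt (Finset.mem_range.1 hi)]
  · rw [LinearMap.smul_apply, bd_single, cylT_comp_eq _ hT, cylT_comp_eq _ hT]

/-- A homotopy `H` from `f₀` to `f₁` gives `f₁ c - f₀ c = ± (d (H (cyl c)) - H (cyl (d c)))`. -/
theorem homotopy {n : ℕ} {c : Ch R X} {U V : Set X} {U' V' : Set Y} (hc : c ∈ M R n U)
    (hdc : d R X n c ∈ M R (n - 1) V) (H : C(X × unitInterval, Y)) (hU : ∀ x ∈ U, ∀ s, H (x, s) ∈ U')
    (hV : ∀ x ∈ V, ∀ s, H (x, s) ∈ V') :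
    ∃ e ∈ M R (n + 1) U', push R (H.comp (incl X 1)) c - push R (H.comp (incl X 0)) c -
      d R Y (n + 1) e ∈ M R n V' := by
  refine ⟨((-1 : R) ^ n) • push R H (cyl R X n c), ?_, ?_⟩
  · refine Submodule.smul_mem _ _ (push_mem (U := U ×ˢ (Set.univ : Set unitInterval)) ?_ (cyl_mem hc))
    rintro ⟨x, s⟩ hx
    exact hU x hx.1 s
  · have h1 : ((-1 : R) ^ n) * ((-1 : R) ^ n) = 1 := by
      rw [← pow_add, ← two_mul, pow_mul]
      simp
    have h2 : push R (H.comp (incl X 1)) c - push R (H.comp (incl X 0)) c -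
        d R Y (n + 1) (((-1 : R) ^ n) • push R H (cyl R X n c)) =
        -(((-1 : R) ^ n) • push R H (cyl R X (n - 1) (d R X n c))) := by
      rw [map_smul, d_push, d_cyl (M_mono (Set.subset_univ U) n hc), map_add, map_smul, smul_add,
        smul_smul, h1, one_smul, map_sub, push_push, push_push]
      abel
    rw [h2]
    refine Submodule.neg_mem _ (Submodule.smul_mem _ _ ?_)
    rcases Nat.eq_zero_or_pos n with h0 | h0
    · subst h0
      rw [d_zero, map_zero, map_zero]
      exact Submodule.zero_mem _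
    · have h3 := cyl_mem hdc
      rw [Nat.sub_add_cancel h0] at h3
      refine push_mem (U := V ×ˢ (Set.univ : Set unitInterval)) ?_ h3
      rintro ⟨x, s⟩ hx
      exact hV x hx.1 s

end Pool.Agent.Lib.MP_c2ffe9_gt
end

section

/-!
# Small cubes
-/

namespace Pool.Agent.Lib.MP_c2ffe9_gt

open unitInterval

variable {R : Type} [CommRing R] {X Y : Type} [TopologicalSpace X] [TopologicalSpace Y]

private theorem half_apply' (i : ℕ) (e : Bool) (t : W) (j : ℕ) :
    half i e t j = if j = i then halfI e (t i) else t j := by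
  show Function.update t i (halfI e (t i)) j = _
  rw [Function.update_apply]

private theorem halfI_sub (e : Bool) (x y : unitInterval) :
    |(halfI e x : ℝ) - halfI e y| = 1 / 2 * |(x : ℝ) - y| := by
  have h : (halfI e x : ℝ) - halfI e y = 1 / 2 * ((x : ℝ) - y) := by
    simp only [halfI]
    ring
  rw [h, abs_mul, abs_of_pos (by norm_num : (0 : ℝ) < 1 / 2)]

private theorem sd_single (n : ℕ) (S : C(W, X)) :
    sd R X n (Finsupp.single S (1 : R)) ∈ Finsupp.supported R R
      {S' : C(W, X) | ∃ κ : C(W, W), S' = S.comp κ ∧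
        (∀ s t : W, ∀ i < n, |((κ s i : ℝ) - κ t i)| ≤ (1 / 2) * |(s i : ℝ) - t i|) ∧
        ∀ s : W, ∀ i, n ≤ i → κ s i = s i} := by
  induction n generalizing S with
  | zero =>
    rw [sd, Module.End.one_apply]
    refine Finsupp.single_mem_supported R _ ⟨ContinuousMap.id W, by simp, ?_, ?_⟩
    · intro s t i hi
      omega
    · intro s i _
      rfl
  | succ n ih =>
    rw [sd, Module.End.mul_apply, hh, LinearMap.add_apply, pull_single, pull_single, map_add]
    have key : ∀ e : Bool, sd R X n (Finsupp.single (S.comp (half n e)) (1 : R)) ∈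
        Finsupp.supported R R
      {S' : C(W, X) | ∃ κ : C(W, W), S' = S.comp κ ∧
        (∀ s t : W, ∀ i < n + 1, |((κ s i : ℝ) - κ t i)| ≤ (1 / 2) * |(s i : ℝ) - t i|) ∧
        ∀ s : W, ∀ i, n + 1 ≤ i → κ s i = s i} := by
      intro e
      refine Finsupp.supported_mono ?_ (ih (S.comp (half n e)))
      rintro S' ⟨κ, rfl, h1, h2⟩
      refine ⟨(half n e).comp κ, ContinuousMap.comp_assoc _ _ _, ?_, ?_⟩
      · intro s t i hi
        simp only [ContinuousMap.comp_apply, half_apply']
        by_cases h : i = n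
        · subst h
          simp only [if_true]
          rw [halfI_sub, h2 s i le_rfl, h2 t i le_rfl]
        · simp only [h, if_false]
          exact h1 s t i (by omega)
      · intro s i hi
        simp only [ContinuousMap.comp_apply, half_apply']
        have h : i ≠ n := by omega
        simp only [h, if_false]
        exact h2 s i (by omega)
    exact Submodule.add_mem _ (key false) (key true)

/-- The iterated subdivision of a cube `T` is a combination of cubes `T.comp κ` where `κ` contracts each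
coordinate `i < n` by the factor `1 / 2 ^ N`. -/
theorem sd_pow_single (n N : ℕ) (T : C(W, X)) :
    (sd R X n ^ N) (Finsupp.single T (1 : R)) ∈ Finsupp.supported R R
      {S : C(W, X) | ∃ κ : C(W, W), S = T.comp κ ∧
        ∀ s t : W, ∀ i < n, |((κ s i : ℝ) - κ t i)| ≤ (1 / 2) ^ N * |(s i : ℝ) - t i|} := by
  induction N with
  | zero =>
    rw [pow_zero (sd R X n), Module.End.one_apply]
    refine Finsupp.single_mem_supported R _ ⟨ContinuousMap.id W, by simp, ?_⟩
    intro s t i _
    simp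
  | succ N ih =>
    rw [pow_succ' (sd R X n), Module.End.mul_apply]
    set c := (sd R X n ^ N) (Finsupp.single T (1 : R)) with hc
    rw [← Finsupp.sum_single c, Finsupp.sum, map_sum]
    refine Submodule.sum_mem _ fun S hS => ?_
    obtain ⟨κ, hκ, h1⟩ := (Finsupp.mem_supported R c).1 ih hS
    have h2 : Finsupp.single S (c S) = c S • (Finsupp.single S (1 : R)) := by simp
    rw [h2, map_smul]
    refine Submodule.smul_mem _ _ (Finsupp.supported_mono ?_ (sd_single n S))
    rintro S' ⟨κ', rfl, h3, _⟩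
    refine ⟨κ.comp κ', by rw [hκ, ContinuousMap.comp_assoc], ?_⟩
    intro s t i hi
    simp only [ContinuousMap.comp_apply]
    calc |((κ (κ' s) i : ℝ) - κ (κ' t) i)| ≤ (1 / 2) ^ N * |(κ' s i : ℝ) - κ' t i| :=
          h1 _ _ i hi
      _ ≤ (1 / 2) ^ N * ((1 / 2) * |(s i : ℝ) - t i|) :=
          mul_le_mul_of_nonneg_left (h3 s t i hi) (by positivity)
      _ = (1 / 2) ^ (N + 1) * |(s i : ℝ) - t i| := by ring

/-- If the values of the `n`-cube `T` are in the union of two open sets then all small pieces have their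
values in one of them (Lebesgue number of the compact uniform space `W`; replace the coordinates `≥ n` of the
points by `0`, which does not change `T`). -/
theorem lebesgue {n : ℕ} {T : C(W, X)} (hT : IsCube n T) {U V : Set X} (hU : IsOpen U)
    (hV : IsOpen V) (h : ∀ t, T t ∈ U ∪ V) :
    ∃ N : ℕ, ∀ κ : C(W, W), (∀ s t : W, ∀ i < n, |((κ s i : ℝ) - κ t i)| ≤ (1 / 2) ^ N) →
      (∀ t, T (κ t) ∈ U) ∨ (∀ t, T (κ t) ∈ V) := by
  classical
  let ext : (Fin n → unitInterval) → W := fun x i => if h : i < n then x ⟨i, h⟩ else 0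
  have hext : Continuous ext := by
    refine continuous_pi fun i => ?_
    by_cases hi : i < n
    · have : (fun x : Fin n → unitInterval => ext x i) = fun x => x ⟨i, hi⟩ := by
        funext x
        simp [ext, hi]
      rw [this]
      exact continuous_apply _
    · have : (fun x : Fin n → unitInterval => ext x i) = fun _ => 0 := by
        funext x
        simp [ext, hi]
      rw [this]
      exact continuous_const
  have hTe : Continuous fun x => T (ext x) := T.continuous.comp hext
  have hres : ∀ t : W, T (ext fun i : Fin n => t i) = T t := by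
    intro t
    refine hT _ _ fun i hi => ?_
    simp [ext, hi]
  let c : Bool → Set (Fin n → unitInterval) := fun b => (fun x => T (ext x)) ⁻¹' (if b then U else V)
  have hc1 : ∀ b, IsOpen (c b) := by
    intro b
    cases b
    · exact hV.preimage hTe
    · exact hU.preimage hTe
  have hc2 : (Set.univ : Set (Fin n → unitInterval)) ⊆ ⋃ b, c b := by
    intro x _
    rw [Set.mem_iUnion]
    rcases h (ext x) with h1 | h1
    · exact ⟨true, h1⟩
    · exact ⟨false, h1⟩
  obtain ⟨δ, hδ, hball⟩ := lebesgue_number_lemma_of_metric isCompact_univ hc1 hc2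
  obtain ⟨N, hN⟩ := exists_pow_lt_of_lt_one hδ (by norm_num : (1 / 2 : ℝ) < 1)
  refine ⟨N, fun κ hκ => ?_⟩
  obtain ⟨b, hb⟩ := hball (fun i : Fin n => κ 0 i) (Set.mem_univ _)
  have hmem : ∀ t : W, (fun i : Fin n => κ t i) ∈ c b := by
    intro t
    refine hb ?_
    rw [Metric.mem_ball, dist_pi_lt_iff hδ]
    intro i
    refine lt_of_le_of_lt ?_ hN
    rw [Subtype.dist_eq, Real.dist_eq]
    exact hκ t 0 i i.2
  cases b
  · right
    intro t
    have := hmem t
    simp only [c, Set.mem_preimage, hres] at this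
    simpa using this
  · left
    intro t
    have := hmem t
    simp only [c, Set.mem_preimage, hres] at this
    simpa using this

private theorem small_single {n : ℕ} {U V : Set X} (hU : IsOpen U) (hV : IsOpen V) {T : C(W, X)}
    (hT : IsCube n T) (h : (∀ t, T t ∈ U ∪ V) ∨ Deg n T) :
    ∃ N : ℕ, ∀ N' ≥ N, (sd R X n ^ N') (Finsupp.single T (1 : R)) ∈ M R n U ⊔ M R n V := by
  rcases h with h | h
  · obtain ⟨N, hN⟩ := lebesgue hT hU hV h
    refine ⟨N, fun N' hN' => ?_⟩
    have h1 := sd_pow_single (R := R) n N' T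
    have h2 : (sd R X n ^ N') (Finsupp.single T (1 : R)) ∈ M R n (Set.univ : Set X) :=
      sd_pow_mem (Finsupp.single_mem_supported R _ ⟨hT, Or.inl fun t => Set.mem_univ _⟩) N'
    set c := (sd R X n ^ N') (Finsupp.single T (1 : R)) with hc
    rw [← Finsupp.sum_single c, Finsupp.sum]
    refine Submodule.sum_mem _ fun S hS => ?_
    obtain ⟨κ, hκ, h3⟩ := (Finsupp.mem_supported R c).1 h1 hS
    obtain ⟨h4, _⟩ := (Finsupp.mem_supported R c).1 h2 hS
    have h5 : ∀ s t : W, ∀ i < n, |((κ s i : ℝ) - κ t i)| ≤ (1 / 2) ^ N := by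
      intro s t i hi
      refine (h3 s t i hi).trans ?_
      have h6 : |(s i : ℝ) - t i| ≤ 1 := by
        have a1 := (s i).2.1
        have a2 := (s i).2.2
        have a3 := (t i).2.1
        have a4 := (t i).2.2
        rw [abs_le]
        constructor <;> linarith
      calc (1 / 2 : ℝ) ^ N' * |(s i : ℝ) - t i| ≤ (1 / 2) ^ N' * 1 :=
            mul_le_mul_of_nonneg_left h6 (by positivity)
        _ = (1 / 2) ^ N' := mul_one _
        _ ≤ (1 / 2) ^ N := pow_le_pow_of_le_one (by norm_num) (by norm_num) hN'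
    rcases hN κ h5 with h6 | h6
    · refine Submodule.mem_sup_left (Finsupp.single_mem_supported R _ ⟨h4, Or.inl fun t => ?_⟩)
      rw [hκ]
      exact h6 t
    · refine Submodule.mem_sup_right (Finsupp.single_mem_supported R _ ⟨h4, Or.inl fun t => ?_⟩)
      rw [hκ]
      exact h6 t
  · refine ⟨0, fun N' _ => Submodule.mem_sup_left ?_⟩
    exact sd_pow_mem (Finsupp.single_mem_supported R _ ⟨hT, Or.inr h⟩) N'

/-- Small cubes: from `sd_pow_single`, `lebesgue` and `sd_pow_mem` (all `N' ≥ N` work since `sd` maps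
`M R n U` and `M R n V` to themselves; a degenerate cube stays in `M R n U`; take the maximum over the cubes of
`c`). -/
theorem small {n : ℕ} {U V : Set X} (hU : IsOpen U) (hV : IsOpen V) {c : Ch R X}
    (hc : c ∈ M R n (U ∪ V)) :
    ∃ N : ℕ, ∀ N' ≥ N, (sd R X n ^ N') c ∈ M R n U ⊔ M R n V := by
  classical
  have h1 : ∀ T ∈ c.support, ∃ N : ℕ, ∀ N' ≥ N,
      (sd R X n ^ N') (Finsupp.single T (1 : R)) ∈ M R n U ⊔ M R n V := by
    intro T hT
    obtain ⟨h1, h2⟩ := (Finsupp.mem_supported R c).1 hc hT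
    exact small_single hU hV h1 h2
  choose! f hf using h1
  refine ⟨c.support.sup f, fun N' hN' => ?_⟩
  rw [← Finsupp.sum_single c, Finsupp.sum, map_sum]
  refine Submodule.sum_mem _ fun T hT => ?_
  have h2 : Finsupp.single T (c T) = c T • (Finsupp.single T (1 : R)) := by simp
  rw [h2, map_smul]
  exact Submodule.smul_mem _ _ (hf T hT N' ((Finset.le_sup hT).trans hN'))

end Pool.Agent.Lib.MP_c2ffe9_gt
end

section

/-!
# Relative cycles: subdivision, Mayer-Vietoris, invariance
-/

namespace Pool.Agent.Lib.MP_c2ffe9_gt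

open unitInterval

variable {R : Type} [CommRing R] {X Y : Type} [TopologicalSpace X] [TopologicalSpace Y]

/-- One subdivision. -/
theorem sub_sd {n : ℕ} {U V : Set X} {c : Ch R X} (hc : c ∈ M R n U)
    (hdc : d R X n c ∈ M R (n - 1) V) :
    ∃ e ∈ M R (n + 1) U, c - sd R X n c - d R X (n + 1) e ∈ M R n V := by
  refine ⟨Phi R X n c, Phi_mem hc, ?_⟩
  have h1 := M_mono (Set.empty_subset V) n (Phi_eq (M_mono (Set.subset_univ U) n hc))
  have h2 : Phi R X (n - 1) (d R X n c) ∈ M R n V := by
    cases n with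
    | zero => rw [d_zero, map_zero]; exact Submodule.zero_mem _
    | succ m => exact Phi_mem hdc
  have h3 := Submodule.add_mem _ h1 h2
  rwa [sub_add_cancel] at h3

/-- A relative cycle (in the open set `U`, modulo `V`) is homologous to its subdivisions. By induction on `N`
from `Phi_eq`, `Phi_mem`, `sd_mem`. -/
theorem sub_sd_pow {n : ℕ} {U V : Set X} {c : Ch R X} (hc : c ∈ M R n U)
    (hdc : d R X n c ∈ M R (n - 1) V) (N : ℕ) :
    ∃ e ∈ M R (n + 1) U, c - (sd R X n ^ N) c - d R X (n + 1) e ∈ M R n V := by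
  induction N generalizing c with
  | zero => exact ⟨0, Submodule.zero_mem _, by simp⟩
  | succ N ih =>
    obtain ⟨e₁, he₁, h₁⟩ := sub_sd hc hdc
    have hdc' : d R X n (sd R X n c) ∈ M R (n - 1) V := by
      cases n with
      | zero => rw [d_zero]; exact Submodule.zero_mem _
      | succ m => rw [d_sd]; exact sd_mem hdc
    obtain ⟨e₂, he₂, h₂⟩ := ih (sd_mem hc) hdc'
    refine ⟨e₁ + e₂, Submodule.add_mem _ he₁ he₂, ?_⟩
    have h3 := Submodule.add_mem _ h₁ h₂
    rw [pow_succ, Module.End.mul_apply, map_add]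
    convert h3 using 1
    abel

theorem triv_of_sd_pow {n : ℕ} {L : Set X} {α : Ch R X} (h : RelCyc R n L α) (N : ℕ)
    (ht : Triv R n L ((sd R X n ^ N) α)) : Triv R n L α := by
  obtain ⟨e₁, he₁, h₁⟩ := sub_sd_pow h.1 h.2 N
  obtain ⟨e₂, he₂, h₂⟩ := ht
  refine ⟨e₁ + e₂, Submodule.add_mem _ he₁ he₂, ?_⟩
  have h3 := Submodule.add_mem _ h₁ h₂
  rw [map_add]
  convert h3 using 1
  abel

/-- Mayer-Vietoris. `α = d e₁ + a₁ = d e₂ + a₂` with `aᵢ ∈ M R n Lᵢᶜ`; `β = e₁ - e₂`. If
`β = d g + b` with `b ∈ M R (n+1) (L₁ ∩ L₂)ᶜ` then `sd^N b = b₁ + b₂` (`small`), and with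
`e' = sd^N e₁ - b₁ - d (sd^N g) = sd^N e₂ + b₂` the chain `sd^N α - d e'` is equal to `sd^N a₁ + d b₁` and to
`sd^N a₂ - d b₂`, so it is in `M R n (L₁ᶜ ∩ L₂ᶜ)`. -/
theorem mv {n : ℕ} {L₁ L₂ : Set X} (h₁ : IsClosed L₁) (h₂ : IsClosed L₂) {α : Ch R X}
    (hα : RelCyc R n (L₁ ∪ L₂) α) (ht₁ : Triv R n L₁ α) (ht₂ : Triv R n L₂ α)
    (hn : ¬ Triv R n (L₁ ∪ L₂) α) :
    ∃ β, RelCyc R (n + 1) (L₁ ∩ L₂) β ∧ ¬ Triv R (n + 1) (L₁ ∩ L₂) β := by
  obtain ⟨e₁, he₁, ha₁⟩ := ht₁
  obtain ⟨e₂, he₂, ha₂⟩ := ht₂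
  refine ⟨e₁ - e₂, ⟨Submodule.sub_mem _ he₁ he₂, ?_⟩, ?_⟩
  · have h1 := M_mono (R := R) (Set.compl_subset_compl.2 (Set.inter_subset_left (s := L₁) (t := L₂))) n ha₁
    have h2 := M_mono (R := R) (Set.compl_subset_compl.2 (Set.inter_subset_right (s := L₁) (t := L₂))) n ha₂
    have h3 := Submodule.sub_mem _ h2 h1
    rw [sub_sub_sub_cancel_left] at h3
    rw [map_sub]
    exact h3
  · rintro ⟨g, hg, hb⟩
    apply hn
    rw [Set.compl_inter] at hb
    obtain ⟨N, hN⟩ := small h₁.isOpen_compl h₂.isOpen_compl hb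
    obtain ⟨b₁, hb₁, b₂, hb₂, hbb⟩ := Submodule.mem_sup.1 (hN N le_rfl)
    refine triv_of_sd_pow hα N ⟨(sd R X (n + 1) ^ N) e₂ + b₂, ?_, ?_⟩
    · exact Submodule.add_mem _ (sd_pow_mem he₂ N) (M_mono (Set.subset_univ _) _ hb₂)
    · rw [Set.compl_union]
      -- the two expressions
      have key₂ : (sd R X n ^ N) α - d R X (n + 1) ((sd R X (n + 1) ^ N) e₂ + b₂) =
          (sd R X n ^ N) (α - d R X (n + 1) e₂) - d R X (n + 1) b₂ := by
        rw [map_add, map_sub, d_sd_pow]
        abel
      have hgd : d R X (n + 1) ((sd R X (n + 1) ^ N) (d R X (n + 1 + 1) g)) = 0 := by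
        rw [← d_sd_pow, d_d]
      have key₀ : (sd R X (n + 1) ^ N) e₂ + b₂ =
          (sd R X (n + 1) ^ N) e₁ - b₁ - (sd R X (n + 1) ^ N) (d R X (n + 1 + 1) g) := by
        rw [map_sub, map_sub] at hbb
        have := hbb.symm
        rw [sub_eq_iff_eq_add] at this
        rw [sub_eq_iff_eq_add] at this
        rw [this]
        abel
      have key₁ : (sd R X n ^ N) α - d R X (n + 1) ((sd R X (n + 1) ^ N) e₂ + b₂) =
          (sd R X n ^ N) (α - d R X (n + 1) e₁) + d R X (n + 1) b₁ := by
        rw [key₀, map_sub, map_sub, hgd, map_sub, d_sd_pow]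
        abel
      refine mem_M_inter ?_ ?_
      · rw [key₁]
        exact Submodule.add_mem _ (sd_pow_mem ha₁ N) (d_mem hb₁)
      · rw [key₂]
        exact Submodule.sub_mem _ (sd_pow_mem ha₂ N) (d_mem hb₂)

/-- The sum of the coefficients. -/
noncomputable def aug (R : Type) [CommRing R] (X : Type) [TopologicalSpace X] : Ch R X →ₗ[R] R :=
  Finsupp.lsum R fun _ => (LinearMap.id : R →ₗ[R] R)

theorem aug_pull (f : C(W, W)) (c : Ch R X) : aug R X (pull R X f c) = aug R X c := by
  induction c using Finsupp.induction_linear with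
  | zero => simp
  | add a b ha hb => simp [map_add, ha, hb]
  | single T r => simp [pull_single, aug]

theorem aug_bd (i : ℕ) (c : Ch R X) : aug R X (bd R X i c) = 0 := by
  simp [bd, aug_pull]

/-- The whole space is big: `n = 0` and `α` a point; the sum of the coefficients of a boundary is `0` and
`M R 0 ∅ = ⊥`. -/
theorem big_univ [Nontrivial R] [Nonempty X] : Big R (Set.univ : Set X) := by
  obtain ⟨x⟩ := ‹Nonempty X›
  refine ⟨isClosed_univ, 0, Finsupp.single (ContinuousMap.const W x) 1, ⟨?_, ?_⟩, ?_⟩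
  · refine Finsupp.single_mem_supported R 1 ⟨fun s t _ => rfl, Or.inl fun t => Set.mem_univ _⟩
  · rw [d_zero]; exact Submodule.zero_mem _
  · rintro ⟨e, -, he⟩
    rw [Set.compl_univ] at he
    have h0 : Finsupp.single (ContinuousMap.const W x) (1 : R) - d R X (0 + 1) e = 0 := by
      rw [← Finsupp.support_eq_empty, Finset.eq_empty_iff_forall_notMem]
      intro T hT
      have h1 := (Finsupp.mem_supported R _).1 he hT
      rcases h1.2 with h2 | ⟨i, hi, -⟩
      · exact h2 (fun _ => 0)
      · exact absurd hi (Nat.not_lt_zero i)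
    have h1 := congrArg (aug R X) h0
    have h2 : aug R X (Finsupp.single (ContinuousMap.const W x) (1 : R)) = 1 := by simp [aug]
    have h3 : aug R X (d R X (0 + 1) e) = 0 := by simp [d, aug_bd]
    rw [map_sub, h2, h3, map_zero, sub_zero] at h1
    exact one_ne_zero h1

theorem Big.image {L : Set X} (h : Big R L) (f : X ≃ₜ Y) : Big R (f '' L) := by
  obtain ⟨hL, n, α, ⟨h1, h2⟩, h3⟩ := h
  set F : C(X, Y) := ⟨f, f.continuous⟩ with hF
  set G : C(Y, X) := ⟨f.symm, f.symm.continuous⟩ with hG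
  have hGF : ∀ c : Ch R X, push R G (push R F c) = c := by
    intro c
    rw [push_push]
    have : G.comp F = ContinuousMap.id X := by ext x; simp [hF, hG]
    rw [this, push_id]
  refine ⟨f.isClosed_image.2 hL, n, push R F α, ⟨push_mem (fun x _ => Set.mem_univ _) h1, ?_⟩, ?_⟩
  · rw [d_push]
    refine push_mem ?_ h2
    rintro x hx ⟨y, hy, hxy⟩
    exact hx (f.injective hxy ▸ hy)
  · rintro ⟨e, he, h4⟩
    apply h3
    refine ⟨push R G e, push_mem (fun x _ => Set.mem_univ _) he, ?_⟩
    have h5 : push R G (push R F α - d R Y (n + 1) e) ∈ M R n Lᶜ := by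
      refine push_mem ?_ h4
      intro y hy hy'
      exact hy ⟨f.symm y, hy', f.apply_symm_apply y⟩
    rwa [map_sub, hGF, ← d_push] at h5

theorem not_big_empty : ¬ Big R (∅ : Set X) := by
  rintro ⟨-, n, α, h1, h2⟩
  refine h2 ⟨0, Submodule.zero_mem _, ?_⟩
  rw [map_zero, sub_zero, Set.compl_empty]
  exact h1.1

end Pool.Agent.Lib.MP_c2ffe9_gt
end

section

/-!
# Homological Z-sets: definition and approximation of the identity
-/

namespace Pool.Agent.Lib.MP_c2ffe9_gt

open unitInterval

/-- `[-1, 1]`. -/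
abbrev J : Type := Set.Icc (-1 : ℝ) 1

/-- Closed sets such that the maps of the Hilbert cube that miss `A` are dense. -/
def IsZomega {Y : Type} [TopologicalSpace Y] (A : Set Y) : Prop :=
  IsClosed A ∧ Dense {f : C(W, Y) | ∀ t, f t ∉ A}

/-- The closed set `A` is a homological Z-set: `A × {0}` is a Z-set in `W × [-1, 1]`. -/
def IsHZ (A : Set W) : Prop :=
  IsClosed A ∧ IsZomega {p : W × J | p.1 ∈ A ∧ (p.2 : ℝ) = 0}

/-- The segment in `[0,1]`. -/
noncomputable def lerpI (x y s : unitInterval) : unitInterval :=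
  ⟨(1 - (s : ℝ)) * x + s * y, by
    have h0 := x.2.1
    have h1 := x.2.2
    have h2 := y.2.1
    have h3 := y.2.2
    have h4 := s.2.1
    have h5 := s.2.2
    constructor
    · nlinarith [mul_nonneg (sub_nonneg.2 h5) h0, mul_nonneg h4 h2]
    · nlinarith [mul_nonneg (sub_nonneg.2 h5) (sub_nonneg.2 h1), mul_nonneg h4 (sub_nonneg.2 h3)]⟩

/-- The segment in `[-1,1]`. -/
noncomputable def lerpJ (x y : J) (s : unitInterval) : J :=
  ⟨(1 - (s : ℝ)) * x + s * y, by
    have h0 := x.2.1
    have h1 := x.2.2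
    have h2 := y.2.1
    have h3 := y.2.2
    have h4 := s.2.1
    have h5 := s.2.2
    constructor
    · nlinarith [mul_nonneg (sub_nonneg.2 h5) (sub_nonneg.2 h0), mul_nonneg h4 (sub_nonneg.2 h2),
        mul_nonneg (sub_nonneg.2 h5) (show (0 : ℝ) ≤ x - (-1) by linarith),
        mul_nonneg h4 (show (0 : ℝ) ≤ y - (-1) by linarith)]
    · nlinarith [mul_nonneg (sub_nonneg.2 h5) (sub_nonneg.2 h1), mul_nonneg h4 (sub_nonneg.2 h3)]⟩

/-- The segment in `W × [-1,1]`. -/
noncomputable def lerp (p q : W × J) (s : unitInterval) : W × J :=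
  (fun i => lerpI (p.1 i) (q.1 i) s, lerpJ p.2 q.2 s)

theorem continuous_lerp :
    Continuous fun z : ((W × J) × (W × J)) × unitInterval => lerp z.1.1 z.1.2 z.2 := by
  unfold lerp lerpI lerpJ
  refine Continuous.prodMk (continuous_pi fun i => Continuous.subtype_mk ?_ _)
    (Continuous.subtype_mk ?_ _)
  · fun_prop
  · fun_prop

theorem lerp_zero (p q : W × J) : lerp p q 0 = p := by
  unfold lerp lerpI lerpJ
  refine Prod.ext (funext fun i => Subtype.ext ?_) (Subtype.ext ?_)
  · simp
  · simp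

theorem lerp_one (p q : W × J) : lerp p q 1 = q := by
  unfold lerp lerpI lerpJ
  refine Prod.ext (funext fun i => Subtype.ext ?_) (Subtype.ext ?_)
  · simp
  · simp

private theorem lerp_self (p : W × J) (s : unitInterval) : lerp p p s = p := by
  unfold lerp lerpI lerpJ
  refine Prod.ext (funext fun i => Subtype.ext ?_) (Subtype.ext ?_)
  · change (1 - (s : ℝ)) * (p.1 i : ℝ) + s * (p.1 i : ℝ) = p.1 i
    ring
  · change (1 - (s : ℝ)) * (p.2 : ℝ) + s * (p.2 : ℝ) = p.2
    ring

/-- `W` is homeomorphic to `W × [0,1]`. -/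
private def homeoWI : W ≃ₜ W × unitInterval where
  toFun f := (fun n => f (n + 1), f 0)
  invFun p := fun n => Nat.casesOn n p.2 p.1
  left_inv f := by
    funext n
    cases n <;> rfl
  right_inv p := rfl
  continuous_toFun := (continuous_pi fun n => continuous_apply (n + 1)).prodMk (continuous_apply 0)
  continuous_invFun := by
    refine continuous_pi fun n => ?_
    cases n with
    | zero => exact continuous_snd
    | succ n => exact (continuous_apply n).comp continuous_fst

/-- `W` is homeomorphic to `W × [-1,1]`. -/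
theorem nonempty_homeoWJ : Nonempty (W ≃ₜ W × J) :=
  ⟨homeoWI.trans ((Homeomorph.refl W).prodCongr
    (iccHomeoI (-1 : ℝ) 1 (by norm_num)).symm)⟩

/-- A self-map of `W × J` that misses the Z-set `A'` and is so close to the identity that the segments from the
points of the compact set `K` (disjoint from `A'`) do not meet `A'`. The set of all `f : C(W × J, W × J)` with
`lerp x (f x) s ∉ A'` for `x ∈ K`, `s ∈ [0,1]` is open in the compact-open topology and contains the identity;
the maps that miss `A'` are dense (use `nonempty_homeoWJ`). -/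
theorem exists_push {A' : Set (W × J)} (hA : IsZomega A') {K : Set (W × J)} (hK : IsCompact K)
    (hd : Disjoint K A') :
    ∃ φ : C(W × J, W × J), (∀ x, φ x ∉ A') ∧ ∀ x ∈ K, ∀ s : unitInterval, lerp x (φ x) s ∉ A' := by
  obtain ⟨h⟩ := nonempty_homeoWJ
  have hev : Continuous fun p : C(W, W × J) × (W × unitInterval) =>
      lerp (h p.2.1) (p.1 p.2.1) p.2.2 := by
    have h1 : Continuous fun p : C(W, W × J) × (W × unitInterval) =>
        (((h p.2.1, p.1 p.2.1), p.2.2) : ((W × J) × (W × J)) × unitInterval) := by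
      fun_prop
    exact continuous_lerp.comp h1
  let Φ : C(W, W × J) → C(W × unitInterval, W × J) := fun f =>
    ⟨fun z => lerp (h z.1) (f z.1) z.2, hev.comp (Continuous.prodMk continuous_const continuous_id)⟩
  have hΦ : Continuous Φ := ContinuousMap.continuous_of_continuous_uncurry Φ hev
  have hK' : IsCompact ((h.symm '' K) ×ˢ (Set.univ : Set unitInterval)) :=
    (hK.image h.symm.continuous).prod isCompact_univ
  have hO : IsOpen (Φ ⁻¹' {g | Set.MapsTo g ((h.symm '' K) ×ˢ (Set.univ : Set unitInterval)) A'ᶜ}) :=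
    (ContinuousMap.isOpen_setOfPred_mapsTo hK' hA.1.isOpen_compl).preimage hΦ
  have hmem : (⟨h, h.continuous⟩ : C(W, W × J)) ∈
      Φ ⁻¹' {g | Set.MapsTo g ((h.symm '' K) ×ˢ (Set.univ : Set unitInterval)) A'ᶜ} := by
    rintro ⟨t, s⟩ ⟨⟨x, hx, hxt⟩, -⟩
    change lerp (h t) (h t) s ∈ A'ᶜ
    rw [lerp_self]
    intro hA'
    have : h t = x := by
      simp only at hxt
      rw [← hxt, h.apply_symm_apply]
    rw [this] at hA'
    exact Set.disjoint_left.1 hd hx hA'
  obtain ⟨f, hf1, hf2⟩ := hA.2.inter_open_nonempty _ hO ⟨_, hmem⟩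
  refine ⟨f.comp ⟨h.symm, h.symm.continuous⟩, fun x => hf2 _, fun x hx s => ?_⟩
  have h2 := hf1 (show ((h.symm x, s) : W × unitInterval) ∈ _ from
    ⟨⟨x, hx, rfl⟩, Set.mem_univ _⟩)
  change lerp (h (h.symm x)) (f (h.symm x)) s ∈ A'ᶜ at h2
  rw [h.apply_symm_apply] at h2
  exact h2

end Pool.Agent.Lib.MP_c2ffe9_gt
end
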