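import Mathlib
import Pool.Agent.Lib.MP_c2ffe9_gt.Defs
import Pool.Agent.Lib.MP_c2ffe9_gt.Phi
import Pool.Agent.Lib.MP_c2ffe9_gt.Zdef

section

/-!
# Continuous logarithms on the Hilbert cube
-/

namespace Pool.Agent.Lib.MP_c2ffe9_gt

open unitInterval

/-- The homotopy `s ↦ f (s t)` as a continuous map from the interval to functions. -/
private noncomputable def windHom (f : C(W, ℂ)) : C(unitInterval, C(W, ℂ)) :=
  ContinuousMap.curry ⟨fun p : unitInterval × W => f (fun j => p.1 * p.2 j), by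
    refine f.continuous.comp (continuous_pi fun j => ?_)
    exact continuous_fst.mul ((continuous_apply j).comp continuous_snd)⟩

private theorem windHom_apply (f : C(W, ℂ)) (s : unitInterval) (t : W) :
    windHom f s t = f (fun j => s * t j) := rfl

/-- A continuous function without zeros on the Hilbert cube has a continuous logarithm:
`L t = log (f 0) + ∑ k < m, log (f ((k+1) t / m) / f (k t / m))` for large `m` (uniform continuity: the
quotients have positive real part). -/
theorem exists_log (f : C(W, ℂ)) (hf : ∀ t, f t ≠ 0) :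
    ∃ L : C(W, ℂ), ∀ t, Complex.exp (L t) = f t := by
  classical
  obtain ⟨t0, -, ht0⟩ := (isCompact_univ (X := W)).exists_isMinOn
    ⟨fun _ => 0, Set.mem_univ _⟩ (f.continuous.norm.continuousOn)
  set c : ℝ := ‖f t0‖ with hc
  have hcpos : 0 < c := norm_pos_iff.2 (hf t0)
  have hcle : ∀ t, c ≤ ‖f t‖ := fun t => ht0 (Set.mem_univ t)
  have hu : UniformContinuous (windHom f) :=
    CompactSpace.uniformContinuous_of_continuous (windHom f).continuous
  obtain ⟨δ, hδ, hδ'⟩ := Metric.uniformContinuous_iff.1 hu c hcpos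
  obtain ⟨m, hm⟩ := exists_nat_one_div_lt hδ
  let p : ℕ → unitInterval := fun k => Set.projIcc (0 : ℝ) 1 zero_le_one ((k : ℝ) / ((m : ℝ) + 1))
  have hp0 : p 0 = 0 := by
    simp only [p, Nat.cast_zero, zero_div]
    exact Set.projIcc_left zero_le_one
  have hpm : p (m + 1) = 1 := by
    have : (((m + 1 : ℕ) : ℝ) / ((m : ℝ) + 1)) = 1 := by
      push_cast
      exact div_self (by positivity)
    simp only [p, this]
    exact Set.projIcc_right zero_le_one
  have hpd : ∀ k, dist (p (k + 1)) (p k) < δ := by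
    intro k
    have h1 : dist (p (k + 1)) (p k)
        ≤ |(((k + 1 : ℕ) : ℝ) / ((m : ℝ) + 1)) - ((k : ℝ) / ((m : ℝ) + 1))| := by
      rw [Subtype.dist_eq, Real.dist_eq]
      exact Set.abs_projIcc_sub_projIcc zero_le_one
    refine lt_of_le_of_lt h1 ?_
    have h2 : (((k + 1 : ℕ) : ℝ) / ((m : ℝ) + 1)) - ((k : ℝ) / ((m : ℝ) + 1)) = 1 / ((m : ℝ) + 1) := by
      push_cast
      ring
    rw [h2, abs_of_pos (by positivity)]
    exact hm
  have hne : ∀ k t, windHom f (p k) t ≠ 0 := fun k t => by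
    rw [windHom_apply]; exact hf _
  have hslit : ∀ k t, windHom f (p (k + 1)) t / windHom f (p k) t ∈ Complex.slitPlane := by
    intro k t
    have h1 : dist (windHom f (p (k + 1)) t) (windHom f (p k) t) < c :=
      lt_of_le_of_lt (ContinuousMap.dist_apply_le_dist t) (hδ' (hpd k))
    have h2 : c ≤ ‖windHom f (p k) t‖ := by
      rw [windHom_apply]; exact hcle _
    have h3 : ‖windHom f (p (k + 1)) t / windHom f (p k) t - 1‖ < 1 := by
      have : windHom f (p (k + 1)) t / windHom f (p k) t - 1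
          = (windHom f (p (k + 1)) t - windHom f (p k) t) / windHom f (p k) t := by
        field_simp [hne k t]
      rw [this, norm_div, div_lt_one (norm_pos_iff.2 (hne k t))]
      rw [dist_eq_norm] at h1
      linarith
    have h4 := Complex.mem_slitPlane_of_norm_lt_one h3
    simpa using h4
  let L : C(W, ℂ) := ⟨fun t => Complex.log (f (fun _ => 0))
      + ∑ k ∈ Finset.range (m + 1),
        Complex.log (windHom f (p (k + 1)) t / windHom f (p k) t), by
    refine continuous_const.add (continuous_finsetSum _ fun k _ => ?_)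
    refine Continuous.clog ?_ (hslit k)
    exact (windHom f (p (k + 1))).continuous.div (windHom f (p k)).continuous (hne k)⟩
  refine ⟨L, fun t => ?_⟩
  have key : ∀ n : ℕ, Complex.exp (Complex.log (f (fun _ => 0))
      + ∑ k ∈ Finset.range n,
        Complex.log (windHom f (p (k + 1)) t / windHom f (p k) t)) = windHom f (p n) t := by
    intro n
    induction n with
    | zero =>
      rw [Finset.sum_range_zero, add_zero, Complex.exp_log (hf _), windHom_apply, hp0]
      congr 1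
      funext j
      exact (zero_mul _).symm
    | succ n ih =>
      rw [Finset.sum_range_succ, ← add_assoc, Complex.exp_add, ih,
        Complex.exp_log (div_ne_zero (hne _ _) (hne _ _))]
      field_simp [hne n t]
  have h := key (m + 1)
  rw [windHom_apply, hpm] at h
  have h' : (fun j => (1 : unitInterval) * t j) = t := by
    funext j
    exact one_mul _
  rw [h'] at h
  exact h

/-- Two logarithms differ by a constant (`W` is connected). -/
theorem log_unique {L L' : C(W, ℂ)} {C : ℂ} (hC : C ≠ 0)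
    (h : ∀ t, Complex.exp (L t) = C * Complex.exp (L' t)) (s t : W) :
    L s - L t = L' s - L' t := by
  have h1 : ∀ x : W, ∃ n : ℤ, (L x - L' x) - (L t - L' t) = n * (2 * Real.pi * Complex.I) := by
    intro x
    have hx : Complex.exp (L x - L' x) = Complex.exp (L t - L' t) := by
      rw [Complex.exp_sub, Complex.exp_sub, h x, h t, mul_div_assoc, mul_div_assoc,
        div_self (Complex.exp_ne_zero _), div_self (Complex.exp_ne_zero _)]
    obtain ⟨n, hn⟩ := Complex.exp_eq_exp_iff_exists_int.1 hx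
    exact ⟨n, by rw [hn]; ring⟩
  choose n hn using h1
  have hnc : Continuous n := by
    rw [Int.isClosedEmbedding_coe_real.isEmbedding.continuous_iff]
    have : ((fun k : ℤ => (k : ℝ)) ∘ n)
        = fun x => (((L x - L' x) - (L t - L' t)) / (2 * Real.pi * Complex.I)).re := by
      funext x
      rw [hn x, mul_div_assoc, div_self Complex.two_pi_I_ne_zero, mul_one]
      simp
    rw [this]
    refine Complex.continuous_re.comp ?_
    exact (((L.continuous.sub L'.continuous).sub continuous_const).div_const _)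
  have h0 : n s = n t := PreconnectedSpace.constant inferInstance hnc
  have ht := hn t
  have hs := hn s
  rw [h0, ← ht] at hs
  linear_combination hs

end Pool.Agent.Lib.MP_c2ffe9_gt
end

section

/-!
# Compact supports
-/

namespace Pool.Agent.Lib.MP_c2ffe9_gt

open unitInterval

variable {R : Type} [CommRing R] {X Y : Type} [TopologicalSpace X] [TopologicalSpace Y]

/-- A chain in the union of a directed family of open sets is in one of them: it has finitely many cubes, with
compact images. -/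
theorem mem_directed {ι : Type} [Nonempty ι] (U : ι → Set X) (hU : ∀ i, IsOpen (U i))
    (hd : Directed (· ⊆ ·) U) {n : ℕ} {c : Ch R X} (hc : c ∈ M R n (⋃ i, U i)) :
    ∃ i, c ∈ M R n (U i) := by
  classical
  have hT : ∀ T : C(W, X), ∃ i, T ∈ c.support → ((∀ t, T t ∈ U i) ∨ Deg n T) := by
    intro T
    by_cases h : T ∈ c.support
    · have h1 := (Finsupp.mem_supported R c).1 hc h
      rcases h1.2 with h2 | h2
      · have hcomp : IsCompact (Set.range T) := isCompact_range T.continuous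
        obtain ⟨i, hi⟩ := hcomp.elim_directed_cover U hU (by
          rintro _ ⟨t, rfl⟩
          exact h2 t) hd
        exact ⟨i, fun _ => Or.inl fun t => hi ⟨t, rfl⟩⟩
      · exact ⟨Classical.arbitrary ι, fun _ => Or.inr h2⟩
    · exact ⟨Classical.arbitrary ι, fun h' => absurd h' h⟩
  choose iT hiT using hT
  obtain ⟨z, hz⟩ := hd.finset_le (c.support.image iT)
  refine ⟨z, (Finsupp.mem_supported R c).2 fun T hTc => ?_⟩
  have h1 := (Finsupp.mem_supported R c).1 hc hTc
  exact ⟨h1.1, (hiT T hTc).imp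
    (fun h t => hz (iT T) (Finset.mem_image_of_mem iT hTc) (h t)) id⟩

/-- Zorn's lemma: a minimal closed set for which `α` is not trivial. For a chain of closed sets `Lᵢ` with the
intersection `L`: if `α = d e + a` with `a ∈ M R n Lᶜ` then `a ∈ M R n Lᵢᶜ` for some `i`. -/
theorem exists_irred {n : ℕ} {L : Set X} {α : Ch R X} (hL : IsClosed L) (h : ¬ Triv R n L α) :
    ∃ L' ⊆ L, IsClosed L' ∧ ¬ Triv R n L' α ∧
      ∀ L'' ⊆ L', IsClosed L'' → L'' ≠ L' → Triv R n L'' α := by
  obtain ⟨L', hL'L, hmin⟩ := zorn_superset_nonempty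
    {K : Set X | K ⊆ L ∧ IsClosed K ∧ ¬ Triv R n K α} (by
      intro C hC hchain hne
      refine ⟨⋂₀ C, ⟨?_, isClosed_sInter fun K hK => (hC hK).2.1, ?_⟩,
        fun K hK => Set.sInter_subset_of_mem hK⟩
      · obtain ⟨K, hK⟩ := hne
        exact (Set.sInter_subset_of_mem hK).trans (hC hK).1
      · rintro ⟨e, he, ha⟩
        haveI : Nonempty C := hne.to_subtype
        have h1 : (⋂₀ C)ᶜ = ⋃ K : C, (K : Set X)ᶜ := by
          ext x
          simp
        rw [h1] at ha
        obtain ⟨K, hK⟩ := mem_directed (fun K : C => (K : Set X)ᶜ)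
          (fun K => (hC K.2).2.1.isOpen_compl) (by
            intro K₁ K₂
            rcases hchain.total K₁.2 K₂.2 with h2 | h2
            · exact ⟨K₁, subset_rfl, Set.compl_subset_compl.2 h2⟩
            · exact ⟨K₂, Set.compl_subset_compl.2 h2, subset_rfl⟩) ha
        exact (hC K.2).2.2 ⟨e, he, hK⟩) L ⟨subset_rfl, hL, h⟩
  refine ⟨L', hL'L, hmin.prop.2.1, hmin.prop.2.2, fun L'' h1 h2 h3 => ?_⟩
  by_contra h4
  exact h3 (h1.antisymm (hmin.le_of_le ⟨h1.trans hL'L, h2, h4⟩ h1))

end Pool.Agent.Lib.MP_c2ffe9_gt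
end

section

/-!
# The example is big over the complex numbers
-/

namespace Pool.Agent.Lib.MP_c2ffe9_gt

open unitInterval

/-- The point `(a, 0, 0, ...)`. -/
def pt (a : unitInterval) : W := fun j => if j = 0 then a else 0

open Classical in
/-- The variation of the logarithm of `g n` along `T`, if `g n` has no zeros on `T`, otherwise `0`. -/
noncomputable def wind1 (n : ℕ) (T : C(W, W)) : ℂ :=
  if h : ∀ t, g n (T t) ≠ 0 then
    (exists_log ⟨fun t => g n (T t), (continuous_g n).comp T.continuous⟩ h).choose (pt 1) -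
      (exists_log ⟨fun t => g n (T t), (continuous_g n).comp T.continuous⟩ h).choose (pt 0)
  else 0

/-- The linear extension of `wind1`. -/
noncomputable def wind (n : ℕ) : Ch ℂ W →ₗ[ℂ] ℂ :=
  Finsupp.lsum ℂ fun T => (wind1 n T) • (LinearMap.id : ℂ →ₗ[ℂ] ℂ)

theorem wind_single (n : ℕ) (T : C(W, W)) : wind n (Finsupp.single T 1) = wind1 n T := by
  simp [wind]

theorem wind1_eq {n : ℕ} {T : C(W, W)} {L : C(W, ℂ)} {C : ℂ} (hC : C ≠ 0)
    (h : ∀ t, g n (T t) = C * Complex.exp (L t)) : wind1 n T = L (pt 1) - L (pt 0) := by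
  have h0 : ∀ t, g n (T t) ≠ 0 := by
    intro t
    rw [h t]
    exact mul_ne_zero hC (Complex.exp_ne_zero _)
  unfold wind1
  rw [dif_pos h0]
  have hs := (exists_log ⟨fun t => g n (T t), (continuous_g n).comp T.continuous⟩ h0).choose_spec
  refine log_unique hC (fun t => ?_) _ _
  rw [hs t]
  exact h t

private theorem wind1_const {n : ℕ} {T : C(W, W)} (h : ∀ s t, T s = T t) : wind1 n T = 0 := by
  by_cases h0 : g n (T (pt 0)) = 0
  · unfold wind1
    rw [dif_neg]
    intro h1
    exact h1 (pt 0) h0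
  · have h1 := wind1_eq (n := n) (T := T) (L := ⟨fun _ => 0, continuous_const⟩) h0 (fun t => by
      rw [h t (pt 0)]
      simp)
    rw [h1]
    simp

private theorem d_two (T : C(W, W)) : d ℂ W 2 (Finsupp.single T 1) =
    (Finsupp.single (T.comp (insC 0 1)) 1 - Finsupp.single (T.comp (insC 0 0)) 1) -
      (Finsupp.single (T.comp (insC 1 1)) 1 - Finsupp.single (T.comp (insC 1 0)) 1) := by
  unfold d bd
  rw [Finset.sum_range_succ, Finset.sum_range_one]
  simp only [pow_zero, pow_one, one_smul, neg_smul, LinearMap.add_apply, LinearMap.sub_apply,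
    LinearMap.smul_apply, pull_single]
  abel

private theorem wind_d_two (n : ℕ) (T : C(W, W)) : wind n (d ℂ W 2 (Finsupp.single T 1)) =
    (wind1 n (T.comp (insC 0 1)) - wind1 n (T.comp (insC 0 0))) -
      (wind1 n (T.comp (insC 1 1)) - wind1 n (T.comp (insC 1 0))) := by
  rw [d_two]
  simp only [map_sub, wind_single]

/-- The boundary of a 2-cube on which `g n` has no zeros has winding number `0`; degenerate 2-cubes give
degenerate 1-cubes (constant maps), for which `wind1` is `0`. -/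
theorem wind_bd {n : ℕ} {b : Ch ℂ W} (hb : b ∈ M ℂ 2 {x | g n x ≠ 0}) :
    wind n (d ℂ W 2 b) = 0 := by
  have key := M_induction (P := (⊥ : Submodule ℂ ℂ)) ((wind n).comp (d ℂ W 2)) (fun T hT hU => by
    rw [Submodule.mem_bot, LinearMap.comp_apply, wind_d_two]
    rcases hU with hU | ⟨i, hi, hind⟩
    · obtain ⟨L, hL⟩ := exists_log ⟨fun t => g n (T t), (continuous_g n).comp T.continuous⟩ hU
      have hface : ∀ (i : ℕ) (a : unitInterval), wind1 n (T.comp (insC i a)) =
          L (ins i a (pt 1)) - L (ins i a (pt 0)) := by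
        intro i a
        exact wind1_eq (L := L.comp (insC i a)) (C := 1) one_ne_zero (fun t => by
          rw [one_mul]
          exact (hL (ins i a t)).symm)
      rw [hface, hface, hface, hface]
      have e : ∀ a b : unitInterval, ins 1 a (pt b) = ins 0 b (pt a) := by
        intro a b
        funext j
        rcases j with _ | _ | j
        · simp [ins, pt]
        · simp [ins, pt]
        · simp [ins, pt]
      rw [e, e, e, e]
      ring
    · rcases Nat.lt_or_ge i 1 with h0 | h1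
      · have hi0 : i = 0 := by omega
        subst hi0
        have e1 : T.comp (insC 0 1) = T.comp (insC 0 0) := by
          ext1 t
          refine hind _ _ fun j hj => ?_
          change ins 0 1 t j = ins 0 0 t j
          unfold ins
          rw [if_neg (by omega), if_neg hj, if_neg (by omega), if_neg hj]
        have e2 : ∀ a : unitInterval, wind1 n (T.comp (insC 1 a)) = 0 := by
          intro a
          refine wind1_const fun s t => ?_
          have h2 : T (ins 1 a s) = T (Function.update (ins 1 a s) 0 (ins 1 a t 0)) := by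
            refine hind _ _ fun j hj => ?_
            rw [Function.update_of_ne hj]
          have h3 : T (Function.update (ins 1 a s) 0 (ins 1 a t 0)) = T (ins 1 a t) := by
            refine hT _ _ fun j hj => ?_
            rcases j with _ | _ | j
            · rw [Function.update_self]
            · rw [Function.update_of_ne (by omega)]
              simp [ins]
            · omega
          exact h2.trans h3
        rw [e1, e2, e2]
        ring
      · have hi1 : i = 1 := by omega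
        subst hi1
        have e1 : T.comp (insC 1 1) = T.comp (insC 1 0) := by
          ext1 t
          refine hind _ _ fun j hj => ?_
          change ins 1 1 t j = ins 1 0 t j
          unfold ins
          by_cases h2 : j < 1
          · rw [if_pos h2, if_pos h2]
          · rw [if_neg h2, if_neg hj, if_neg h2, if_neg hj]
        have e2 : ∀ a : unitInterval, wind1 n (T.comp (insC 0 a)) = 0 := by
          intro a
          refine wind1_const fun s t => ?_
          have h2 : T (ins 0 a s) = T (Function.update (ins 0 a s) 1 (ins 0 a t 1)) := by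
            refine hind _ _ fun j hj => ?_
            rw [Function.update_of_ne hj]
          have h3 : T (Function.update (ins 0 a s) 1 (ins 0 a t 1)) = T (ins 0 a t) := by
            refine hT _ _ fun j hj => ?_
            rcases j with _ | _ | j
            · rw [Function.update_of_ne (by omega)]
              simp [ins]
            · rw [Function.update_self]
            · omega
          exact h2.trans h3
        rw [e1, e2, e2]
        ring) hb
  rw [Submodule.mem_bot, LinearMap.comp_apply] at key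
  exact key

/-- The square `z 0 ∈ [-1,1]²`, `z j = 0` for `j ≥ 1`. -/
noncomputable def T0 : C(W, W) :=
  ⟨fun t j => if j = 0 then t 0 else if j = 1 then t 1 else ⟨1 / 2, by norm_num, by norm_num⟩, by
    refine continuous_pi fun j => ?_
    split_ifs
    · fun_prop
    · fun_prop
    · fun_prop⟩

/-- On the square `g n = C (z 0)^(2^n)` with `C ≠ 0`. -/
theorem g_T0 (n : ℕ) : ∃ C : ℂ, C ≠ 0 ∧ ∀ t, g n (T0 t) = C * (zc 0 (T0 t)) ^ (2 ^ n) := by
  induction n with
  | zero => exact ⟨2, two_ne_zero, fun t => by rw [pow_zero, pow_one]; rfl⟩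
  | succ n ih =>
    obtain ⟨C, hC, h⟩ := ih
    refine ⟨16 * C ^ 2, mul_ne_zero (by norm_num) (pow_ne_zero _ hC), fun t => ?_⟩
    have hz : zc (n + 1) (T0 t) = 0 := by
      have h1 : ((T0 t (2 * (n + 1)) : unitInterval) : ℝ) = 1 / 2 := by
        change ((if 2 * (n + 1) = 0 then t 0 else if 2 * (n + 1) = 1 then t 1 else
          ⟨1 / 2, by norm_num, by norm_num⟩ : unitInterval) : ℝ) = 1 / 2
        rw [if_neg (by omega), if_neg (by omega)]
      have h2 : ((T0 t (2 * (n + 1) + 1) : unitInterval) : ℝ) = 1 / 2 := by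
        change ((if 2 * (n + 1) + 1 = 0 then t 0 else if 2 * (n + 1) + 1 = 1 then t 1 else
          ⟨1 / 2, by norm_num, by norm_num⟩ : unitInterval) : ℝ) = 1 / 2
        rw [if_neg (by omega), if_neg (by omega)]
      unfold zc
      rw [h1, h2]
      apply Complex.ext
      · norm_num
      · norm_num
    change 16 * (g n (T0 t)) ^ 2 - 4 * zc (n + 1) (T0 t) = _
    rw [hz, h t, pow_succ 2 n, pow_mul]
    ring

private theorem T0_zero (t : W) : T0 t 0 = t 0 := rfl

private theorem T0_one (t : W) : T0 t 1 = t 1 := rfl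

/-- `1 + i y` resp. `1 - i y`, `y = 2 t 0 - 1` -/
private noncomputable def lin (e : ℝ) (t : W) : ℂ := ⟨1, e * (2 * (t 0 : ℝ) - 1)⟩

private theorem continuous_lin (e : ℝ) : Continuous (lin e) := by
  have h : lin e = fun t => (1 : ℂ) + ((e * (2 * (t 0 : ℝ) - 1) : ℝ) : ℂ) * Complex.I := by
    funext t
    apply Complex.ext
    · simp [lin]
    · simp [lin]
  rw [h]
  fun_prop

private theorem lin_slit (e : ℝ) (t : W) : lin e t ∈ Complex.slitPlane := by
  left
  change (0 : ℝ) < 1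
  exact one_pos

private noncomputable def Lg (n : ℕ) (e : ℝ) : C(W, ℂ) :=
  ⟨fun t => (2 ^ n : ℕ) * Complex.log (lin e t), by
    refine continuous_const.mul ?_
    exact (continuous_lin e).clog (lin_slit e)⟩

private theorem exp_Lg (n : ℕ) (e : ℝ) (t : W) : Complex.exp (Lg n e t) = (lin e t) ^ (2 ^ n) := by
  change Complex.exp ((2 ^ n : ℕ) * Complex.log (lin e t)) = _
  rw [Complex.exp_nat_mul, Complex.exp_log]
  exact Complex.slitPlane_ne_zero (lin_slit e t)

private theorem wind_face {n : ℕ} {u : ℂ} (hu : u ≠ 0) {e : ℝ} {i : ℕ} {a : unitInterval}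
    (h : ∀ t, zc 0 (T0 (ins i a t)) = u * lin e t) :
    wind1 n (T0.comp (insC i a)) = Lg n e (pt 1) - Lg n e (pt 0) := by
  obtain ⟨C, hC, hg⟩ := g_T0 n
  refine wind1_eq (C := C * u ^ (2 ^ n)) (mul_ne_zero hC (pow_ne_zero _ hu)) fun t => ?_
  change g n (T0 (ins i a t)) = _
  rw [hg, h, exp_Lg, mul_pow]
  ring

/-- The four sides are `u (1 ± i y)`, `y = 2 t 0 - 1`, with `u ∈ {1, -1, i, -i}`, and `log (1 ± i y)` is
continuous. The sum is `4 * 2 ^ n * (log (1 + i) - log (1 - i)) ≠ 0`. -/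
theorem wind_T0 (n : ℕ) : wind n (d ℂ W 2 (Finsupp.single T0 1)) ≠ 0 := by
  have f1 : wind1 n (T0.comp (insC 0 1)) = Lg n 1 (pt 1) - Lg n 1 (pt 0) := by
    refine wind_face (u := 1) one_ne_zero fun t => ?_
    unfold zc lin
    rw [T0_zero, T0_one]
    apply Complex.ext
    · simp [ins]; norm_num
    · simp [ins]
  have f2 : wind1 n (T0.comp (insC 0 0)) = Lg n (-1) (pt 1) - Lg n (-1) (pt 0) := by
    refine wind_face (u := -1) (neg_ne_zero.2 one_ne_zero) fun t => ?_
    unfold zc lin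
    rw [T0_zero, T0_one]
    apply Complex.ext
    · simp [ins]
    · simp [ins]
  have f3 : wind1 n (T0.comp (insC 1 1)) = Lg n (-1) (pt 1) - Lg n (-1) (pt 0) := by
    refine wind_face (u := Complex.I) Complex.I_ne_zero fun t => ?_
    unfold zc lin
    rw [T0_zero, T0_one]
    apply Complex.ext
    · simp [ins]
    · simp [ins]; norm_num
  have f4 : wind1 n (T0.comp (insC 1 0)) = Lg n 1 (pt 1) - Lg n 1 (pt 0) := by
    refine wind_face (u := -Complex.I) (neg_ne_zero.2 Complex.I_ne_zero) fun t => ?_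
    unfold zc lin
    rw [T0_zero, T0_one]
    apply Complex.ext
    · simp [ins]
    · simp [ins]
  rw [wind_d_two, f1, f2, f3, f4]
  have v : ∀ (e : ℝ) (a : unitInterval), Lg n e (pt a) =
      (2 ^ n : ℕ) * Complex.log (⟨1, e * (2 * (a : ℝ) - 1)⟩ : ℂ) := fun e a => rfl
  rw [v, v, v, v]
  obtain ⟨p, hp⟩ : ∃ p : ℂ, p = Complex.log (⟨1, 1⟩ : ℂ) := ⟨_, rfl⟩
  obtain ⟨q, hq⟩ : ∃ q : ℂ, q = Complex.log (⟨1, -1⟩ : ℂ) := ⟨_, rfl⟩
  have e1 : Complex.log (⟨1, 1 * (2 * ((1 : unitInterval) : ℝ) - 1)⟩ : ℂ) = p := by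
    rw [hp]; norm_num
  have e2 : Complex.log (⟨1, 1 * (2 * ((0 : unitInterval) : ℝ) - 1)⟩ : ℂ) = q := by
    rw [hq]; norm_num
  have e3 : Complex.log (⟨1, -1 * (2 * ((1 : unitInterval) : ℝ) - 1)⟩ : ℂ) = q := by
    rw [hq]; norm_num
  have e4 : Complex.log (⟨1, -1 * (2 * ((0 : unitInterval) : ℝ) - 1)⟩ : ℂ) = p := by
    rw [hp]; norm_num
  rw [e1, e2, e3, e4]
  have hpq : p ≠ q := by
    intro h
    have h1 : Complex.exp p = ⟨1, 1⟩ := by
      rw [hp]
      refine Complex.exp_log ?_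
      intro h2
      have := congrArg Complex.re h2
      norm_num at this
    have h2 : Complex.exp q = ⟨1, -1⟩ := by
      rw [hq]
      refine Complex.exp_log ?_
      intro h2
      have := congrArg Complex.re h2
      norm_num at this
    rw [h, h2] at h1
    have := congrArg Complex.im h1
    norm_num at this
  have h2n : ((2 ^ n : ℕ) : ℂ) ≠ 0 := by
    exact_mod_cast (pow_pos two_pos n).ne'
  intro h
  apply hpq
  have h4 : (4 : ℂ) * ((2 ^ n : ℕ) * (p - q)) = 0 := by
    rw [← h]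
    ring
  have h5 := (mul_eq_zero.1 ((mul_eq_zero.1 h4).resolve_left (by norm_num))).resolve_left h2n
  exact sub_eq_zero.1 h5

private theorem isCube_T0 : IsCube 2 T0 := by
  intro s t h
  funext j
  rcases j with _ | _ | j
  · exact h 0 (by omega)
  · exact h 1 (by omega)
  · rfl

private theorem isCube_face (i : ℕ) (hi : i < 2) (a : unitInterval) :
    IsCube 1 (T0.comp (insC i a)) := by
  intro s t h
  change T0 (ins i a s) = T0 (ins i a t)
  refine isCube_T0 _ _ fun j hj => ?_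
  have h0 := h 0 (by omega)
  unfold ins
  by_cases h1 : j < i
  · have hj0 : j = 0 := by omega
    rw [if_pos h1, if_pos h1, hj0]
    exact h0
  · rw [if_neg h1, if_neg h1]
    by_cases h2 : j = i
    · rw [if_pos h2, if_pos h2]
    · rw [if_neg h2, if_neg h2]
      have hj0 : j - 1 = 0 := by omega
      rw [hj0]
      exact h0

private theorem face_mem (i : ℕ) (hi : i < 2) (a : unitInterval) (ha : a = 0 ∨ a = 1) :
    Finsupp.single (T0.comp (insC i a)) (1 : ℂ) ∈ M ℂ 1 X0ᶜ := by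
  unfold M
  refine Finsupp.single_mem_supported ℂ 1 ⟨isCube_face i hi a, Or.inl fun t => ?_⟩
  change T0 (ins i a t) ∈ X0ᶜ
  intro hX
  have h0 : ‖g 0 (T0 (ins i a t))‖ ≤ 1 := hX 0
  have h1 : g 0 (T0 (ins i a t)) = 2 * zc 0 (T0 (ins i a t)) := rfl
  have hn : 1 ≤ ‖zc 0 (T0 (ins i a t))‖ := by
    have ha' : |2 * (a : ℝ) - 1| = 1 := by
      rcases ha with rfl | rfl
      · norm_num
      · norm_num
    rcases Nat.lt_or_ge i 1 with h2 | h2
    · have hi0 : i = 0 := by omega
      subst hi0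
      refine le_trans (le_of_eq ?_) (Complex.abs_re_le_norm _)
      rw [← ha']
      rfl
    · have hi1 : i = 1 := by omega
      subst hi1
      refine le_trans (le_of_eq ?_) (Complex.abs_im_le_norm _)
      rw [← ha']
      rfl
  rw [h1, norm_mul] at h0
  have h3 : ‖(2 : ℂ)‖ = 2 := by norm_num
  rw [h3] at h0
  linarith

/-- The relative cycle `T0`. If `T0 = d e + a` with `a ∈ M 2 X0ᶜ` then `a ∈ M 2 {|g n| > 1}` for some `n` and
`d a = d T0`, a contradiction to `wind_bd` and `wind_T0`. -/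
theorem big_X0 : Big ℂ X0 := by
  refine ⟨isClosed_X0, 2, Finsupp.single T0 1, ⟨?_, ?_⟩, ?_⟩
  · unfold M
    exact Finsupp.single_mem_supported ℂ 1 ⟨isCube_T0, Or.inl fun t => Set.mem_univ _⟩
  · change d ℂ W 2 (Finsupp.single T0 1) ∈ M ℂ 1 X0ᶜ
    rw [d_two]
    exact Submodule.sub_mem _
      (Submodule.sub_mem _ (face_mem 0 (by omega) 1 (Or.inr rfl))
        (face_mem 0 (by omega) 0 (Or.inl rfl)))
      (Submodule.sub_mem _ (face_mem 1 (by omega) 1 (Or.inr rfl))
        (face_mem 1 (by omega) 0 (Or.inl rfl)))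
  · rintro ⟨e, he, ha⟩
    have hU : (X0ᶜ : Set W) = ⋃ n, {x | 1 < ‖g n x‖} := by
      ext x
      simp only [X0, Set.mem_compl_iff, Set.mem_ofPred_eq, not_forall, not_le, Set.mem_iUnion]
    rw [hU] at ha
    obtain ⟨n, hn⟩ := mem_directed (fun n => {x : W | 1 < ‖g n x‖})
      (fun n => isOpen_lt continuous_const (continuous_g n).norm)
      (directed_of_isDirected_le (monotone_nat_of_le_succ fun n x hx => g_step hx)) ha
    have h1 : Finsupp.single T0 1 - d ℂ W (2 + 1) e ∈ M ℂ 2 {x | g n x ≠ 0} :=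
      M_mono (fun x hx h0 => by
        have hx' : 1 < ‖g n x‖ := hx
        rw [h0, norm_zero] at hx'
        linarith) 2 hn
    have h2 := wind_bd h1
    rw [map_sub, d_d, sub_zero] at h2
    exact wind_T0 n h2

end Pool.Agent.Lib.MP_c2ffe9_gt
end

section

/-!
# The example: the main step modulo 2
-/

namespace Pool.Agent.Lib.MP_c2ffe9_gt

open unitInterval

private theorem exB_norm (s : unitInterval) :
    ‖Complex.exp (Real.pi * Complex.I * (s : ℝ)) / 2‖ = 1 / 2 := by
  have h1 : (Real.pi * Complex.I * (s : ℝ) : ℂ) = ((Real.pi * (s : ℝ) : ℝ) : ℂ) * Complex.I := by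
    push_cast
    ring
  rw [norm_div, h1, Complex.norm_exp_ofReal_mul_I]
  norm_num

private theorem exB_zero : Complex.exp (Real.pi * Complex.I * (((0 : unitInterval) : ℝ) : ℂ)) = 1 := by
  simp

private theorem exB_one : Complex.exp (Real.pi * Complex.I * (((1 : unitInterval) : ℝ) : ℂ)) = -1 := by
  simp [Complex.exp_pi_mul_I]

private theorem exB_rot_apply (n : ℕ) (x : W) (s : unitInterval) {j : ℕ} (hj : j < 2 * n + 2) :
    rot n (x, s) j = x j := by
  change (if j = 2 * n + 2 then _ else if j = 2 * n + 3 then _ else x j) = x j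
  rw [if_neg (by omega), if_neg (by omega)]

private theorem exB_rot_eq (n : ℕ) :
    (rot n).comp (incl W 1) = (rot n).comp (incl W 0) := by
  ext1 x
  change rot n (x, 1) = rot n (x, 0)
  funext j
  by_cases h1 : j = 2 * n + 2
  · refine Subtype.ext ?_
    simp [rot, h1]
  · by_cases h2 : j = 2 * n + 3
    · refine Subtype.ext ?_
      simp [rot, h2]
    · simp [rot, h1, h2]

private theorem exB_char (c : Ch (ZMod 2) W) : -c = c := by
  ext T
  exact ZMod.neg_eq_self_mod_two (c T)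

private theorem exB_sign (k : ℕ) : ((-1 : ZMod 2) ^ k) = 1 := by
  rw [ZMod.neg_eq_self_mod_two, one_pow]

/-- The main step modulo 2. `U` depends only on the coordinates `< 2n+2`. Let `ζ s = exp (π i s)`,
`O₁ = {(x, s) : |g n x - ζ s / 2| < 1/2}`, `O₂ = {(x, s) : |g n x - ζ s / 2| > 1/4}`. For large `N` we have
(`small`) `sd^N (cyl c) = y₁ + y₂` with `y₁ ∈ M (k+1) (O₁ ∩ U × [0,1])`, `y₂ ∈ M (k+1) (O₂ ∩ U × [0,1])`;
`sd^N c = u₁ + u₂` with `u₁ ∈ M k (U ∩ {|g n - 1/2| < 1/2})`, `u₂ ∈ M k (U ∩ {|g n - 1/2| > 1/4})`;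
`sd^N c = v₁ + v₂` with `v₁ ∈ M k (U ∩ {|g n + 1/2| < 1/2})`, `v₂ ∈ M k (U ∩ {|g n + 1/2| > 1/4})`
(`ζ 0 = 1`, `ζ 1 = -1`). By `d_cyl` the chain `d y₁ - (-1)^k (i₁ v₁ - i₀ u₁)` is in `M k (O₁ ∩ U × [0,1])`, and
it is equal to `- d y₂ + sd^N (cyl (d c)) + (-1)^k (i₁ v₂ - i₀ u₂)`, so it is in `M k (O₂ ∩ U × [0,1])`
(note that `|g n| > 1` implies `|g n - ζ/2| > 1/4`). On `O₁ ∩ O₂` we have `|g (n+1) (rot n (x, s))| > 1` since
`|g + ζ/2| ≥ 1 - |g - ζ/2| > 1/2` and `16 * 1/4 * 1/2 > 1`. So (with `ρ = rot n (·, 0) = rot n (·, 1)`)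
`ρ u₁ - ρ v₁` is trivial: it is `d e'` up to `M k (U ∩ {|g (n+1)| > 1})`. Finally
`w = sd^N c - u₁ - v₁ = u₂ - v₁ = v₂ - u₁` is in `M k (U ∩ {|g n - 1/2| > 1/4} ∩ {|g n + 1/2| > 1/4})`
and on this set `|g (n+1) (ρ x)| = 16 |g - 1/2| |g + 1/2| > 1`, since one of the two factors is `≥ 1/2`. Hence
`ρ (sd^N c)` is `ρ u₁ + ρ v₁ = 2 ρ u₁ = 0` up to boundaries and `M k (U ∩ {|g (n+1)| > 1})`; and `ρ c` is the
same as `ρ (sd^N c)` by `sub_sd_pow` (and `g_step`). -/
theorem trans_rot {n : ℕ} {U : Set W} (hU : IsOpen U)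
    (hd : ∀ x y : W, (∀ i < 2 * n + 2, x i = y i) → x ∈ U → y ∈ U) {k : ℕ} {c : Ch (ZMod 2) W}
    (hc : c ∈ M (ZMod 2) k U)
    (hdc : d (ZMod 2) W k c ∈ M (ZMod 2) (k - 1) (U ∩ {x | 1 < ‖g n x‖})) :
    ∃ e ∈ M (ZMod 2) (k + 1) U,
      push (ZMod 2) ((rot n).comp (incl W 0)) c - d (ZMod 2) W (k + 1) e ∈
        M (ZMod 2) k (U ∩ {x | 1 < ‖g (n + 1) x‖}) := by
  classical
  -- the geometric facts
  have hrotU : ∀ (x : W) (s : unitInterval), x ∈ U → rot n (x, s) ∈ U := fun x s hx =>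
    hd x _ (fun i hi => (exB_rot_apply n x s hi).symm) hx
  set ζ : unitInterval → ℂ := fun s => Complex.exp (Real.pi * Complex.I * (s : ℝ)) / 2 with hζ
  have hζn : ∀ s, ‖ζ s‖ = 1 / 2 := exB_norm
  have hζ0 : ζ 0 = 1 / 2 := by simp only [hζ, exB_zero]
  have hζ1 : ζ 1 = -(1 / 2) := by simp only [hζ, exB_one]; ring
  have hζc : Continuous ζ := by
    simp only [hζ]
    fun_prop
  have hgc := continuous_g n
  have hgr : ∀ (x : W) (s : unitInterval), ‖g (n + 1) (rot n (x, s))‖ =
      16 * (‖g n x - ζ s‖ * ‖g n x + ζ s‖) := by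
    intro x s
    rw [g_succ_rot, norm_mul, norm_mul]
    simp [hζ]
  have htri : ∀ (z : ℂ) (s : unitInterval), 1 ≤ ‖z - ζ s‖ + ‖z + ζ s‖ := by
    intro z s
    have h1 : ‖(z + ζ s) - (z - ζ s)‖ ≤ ‖z + ζ s‖ + ‖z - ζ s‖ := norm_sub_le _ _
    have h2 : (z + ζ s) - (z - ζ s) = 2 * ζ s := by ring
    rw [h2, norm_mul, hζn] at h1
    simp only [Complex.norm_ofNat] at h1
    linarith
  have hbig : ∀ (z : ℂ) (s : unitInterval), 1 / 4 < ‖z - ζ s‖ → 1 / 4 < ‖z + ζ s‖ →
      1 < 16 * (‖z - ζ s‖ * ‖z + ζ s‖) := by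
    intro z s h1 h2
    have h3 := htri z s
    rcases le_total (1 / 2) ‖z - ζ s‖ with h4 | h4
    · nlinarith
    · nlinarith
  -- the sets
  set O₁ : Set (W × unitInterval) := {p | ‖g n p.1 - ζ p.2‖ < 1 / 2} ∩ U ×ˢ Set.univ with hO₁
  set O₂ : Set (W × unitInterval) := {p | 1 / 4 < ‖g n p.1 - ζ p.2‖} ∩ U ×ˢ Set.univ with hO₂
  have hUo : IsOpen (U ×ˢ (Set.univ : Set unitInterval)) := hU.prod isOpen_univ
  have hO₁o : IsOpen O₁ := (isOpen_lt (by fun_prop) continuous_const).inter hUo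
  have hO₂o : IsOpen O₂ := (isOpen_lt continuous_const (by fun_prop)).inter hUo
  set P₁ : Set W := {x | ‖g n x - ζ 0‖ < 1 / 2} ∩ U with hP₁
  set P₂ : Set W := {x | 1 / 4 < ‖g n x - ζ 0‖} ∩ U with hP₂
  have hP₁o : IsOpen P₁ := (isOpen_lt (by fun_prop) continuous_const).inter hU
  have hP₂o : IsOpen P₂ := (isOpen_lt continuous_const (by fun_prop)).inter hU
  set Q₁ : Set W := {x | ‖g n x - ζ 1‖ < 1 / 2} ∩ U with hQ₁
  set Q₂ : Set W := {x | 1 / 4 < ‖g n x - ζ 1‖} ∩ U with hQ₂
  have hQ₁o : IsOpen Q₁ := (isOpen_lt (by fun_prop) continuous_const).inter hU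
  have hQ₂o : IsOpen Q₂ := (isOpen_lt continuous_const (by fun_prop)).inter hU
  have hcy : cyl (ZMod 2) W k c ∈ M (ZMod 2) (k + 1) (O₁ ∪ O₂) := by
    refine M_mono ?_ _ (cyl_mem hc)
    intro p hp
    rcases lt_or_ge ‖g n p.1 - ζ p.2‖ (1 / 2) with h | h
    · exact Or.inl ⟨h, hp⟩
    · exact Or.inr ⟨lt_of_lt_of_le (by norm_num) h, hp⟩
  have hcP : c ∈ M (ZMod 2) k (P₁ ∪ P₂) := by
    refine M_mono ?_ _ hc
    intro x hx
    rcases lt_or_ge ‖g n x - ζ 0‖ (1 / 2) with h | h
    · exact Or.inl ⟨h, hx⟩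
    · exact Or.inr ⟨lt_of_lt_of_le (by norm_num) h, hx⟩
  have hcQ : c ∈ M (ZMod 2) k (Q₁ ∪ Q₂) := by
    refine M_mono ?_ _ hc
    intro x hx
    rcases lt_or_ge ‖g n x - ζ 1‖ (1 / 2) with h | h
    · exact Or.inl ⟨h, hx⟩
    · exact Or.inr ⟨lt_of_lt_of_le (by norm_num) h, hx⟩
  obtain ⟨N₁, hN₁⟩ := small hO₁o hO₂o hcy
  obtain ⟨N₂, hN₂⟩ := small hP₁o hP₂o hcP
  obtain ⟨N₃, hN₃⟩ := small hQ₁o hQ₂o hcQ
  set N := max N₁ (max N₂ N₃) with hN
  obtain ⟨y₁, hy₁, y₂, hy₂, hy⟩ := Submodule.mem_sup.1 (hN₁ N (le_max_left _ _))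
  obtain ⟨u₁, hu₁, u₂, hu₂, hu⟩ := Submodule.mem_sup.1
    (hN₂ N ((le_max_left _ _).trans (le_max_right _ _)))
  obtain ⟨v₁, hv₁, v₂, hv₂, hv⟩ := Submodule.mem_sup.1
    (hN₃ N ((le_max_right _ _).trans (le_max_right _ _)))
  set ρ : C(W, W) := (rot n).comp (incl W 0) with hρ
  -- the chain in the middle
  set A : Ch (ZMod 2) (W × unitInterval) := d (ZMod 2) (W × unitInterval) (k + 1) y₁ -
    (push (ZMod 2) (incl W 1) v₁ - push (ZMod 2) (incl W 0) u₁) with hA
  have hA1 : A ∈ M (ZMod 2) k O₁ := by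
    refine Submodule.sub_mem _ (d_mem hy₁) (Submodule.sub_mem _ (push_mem ?_ hv₁) (push_mem ?_ hu₁))
    · rintro x ⟨h1, h2⟩
      exact ⟨h1, h2, Set.mem_univ _⟩
    · rintro x ⟨h1, h2⟩
      exact ⟨h1, h2, Set.mem_univ _⟩
  have hAeq : A = (sd (ZMod 2) (W × unitInterval) k ^ N) (cyl (ZMod 2) W (k - 1) (d (ZMod 2) W k c)) -
      d (ZMod 2) (W × unitInterval) (k + 1) y₂ +
      (push (ZMod 2) (incl W 1) v₂ - push (ZMod 2) (incl W 0) u₂) := by
    have h1 : d (ZMod 2) (W × unitInterval) (k + 1) (y₁ + y₂) =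
        (sd (ZMod 2) (W × unitInterval) k ^ N) (cyl (ZMod 2) W (k - 1) (d (ZMod 2) W k c)) +
          (push (ZMod 2) (incl W 1) (v₁ + v₂) - push (ZMod 2) (incl W 0) (u₁ + u₂)) := by
      rw [hy, d_sd_pow, d_cyl (M_mono (Set.subset_univ U) k hc), exB_sign, one_smul, map_add, map_sub,
        ← push_sd_pow, ← push_sd_pow, hu, hv]
    rw [map_add, map_add, map_add] at h1
    rw [hA, eq_sub_of_add_eq h1]
    abel
  have hA2 : A ∈ M (ZMod 2) k O₂ := by
    rw [hAeq]
    refine Submodule.add_mem _ (Submodule.sub_mem _ ?_ (d_mem hy₂))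
      (Submodule.sub_mem _ (push_mem ?_ hv₂) (push_mem ?_ hu₂))
    · rcases Nat.eq_zero_or_pos k with h0 | h0
      · subst h0
        rw [d_zero, map_zero, map_zero]
        exact Submodule.zero_mem _
      · have h3 := cyl_mem hdc
        rw [Nat.sub_add_cancel h0] at h3
        refine sd_pow_mem (M_mono ?_ _ h3) N
        rintro ⟨x, s⟩ ⟨⟨h4, h5⟩, -⟩
        refine ⟨?_, h4, Set.mem_univ _⟩
        have h6 : ‖g n x‖ ≤ ‖g n x - ζ s‖ + ‖ζ s‖ := by
          have := norm_add_le (g n x - ζ s) (ζ s)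
          rwa [sub_add_cancel] at this
        rw [hζn] at h6
        have h7 : 1 < ‖g n x‖ := h5
        change 1 / 4 < ‖g n x - ζ s‖
        linarith
    · rintro x ⟨h1, h2⟩
      exact ⟨h1, h2, Set.mem_univ _⟩
    · rintro x ⟨h1, h2⟩
      exact ⟨h1, h2, Set.mem_univ _⟩
  have hA3 : push (ZMod 2) (rot n) A ∈ M (ZMod 2) k (U ∩ {x | 1 < ‖g (n + 1) x‖}) := by
    refine push_mem ?_ (mem_M_inter hA1 hA2)
    rintro ⟨x, s⟩ ⟨⟨h1, h2, -⟩, ⟨h3, -⟩⟩
    refine ⟨hrotU x s h2, ?_⟩
    change 1 < ‖g (n + 1) (rot n (x, s))‖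
    rw [hgr]
    have h1' : ‖g n x - ζ s‖ < 1 / 2 := h1
    have h3' : 1 / 4 < ‖g n x - ζ s‖ := h3
    have h4 := htri (g n x) s
    exact hbig _ _ h3' (by linarith)
  have hA4 : push (ZMod 2) (rot n) A = d (ZMod 2) W (k + 1) (push (ZMod 2) (rot n) y₁) -
      (push (ZMod 2) ρ v₁ - push (ZMod 2) ρ u₁) := by
    rw [hA, map_sub, map_sub, push_push, push_push, exB_rot_eq, d_push]
  -- the remaining part
  set w : Ch (ZMod 2) W := (sd (ZMod 2) W k ^ N) c - u₁ - v₁ with hw
  have hgρ : ∀ x : W, ‖g (n + 1) (ρ x)‖ = 16 * (‖g n x - ζ 0‖ * ‖g n x + ζ 0‖) := fun x => hgr x 0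
  have hζ01 : ∀ z : ℂ, z - ζ 1 = z + ζ 0 := by
    intro z
    rw [hζ0, hζ1]
    ring
  have hw1 : w ∈ M (ZMod 2) k P₂ := by
    have h1 : w = u₂ - v₁ := by
      rw [hw, ← hu]
      abel
    rw [h1]
    refine Submodule.sub_mem _ hu₂ (M_mono ?_ _ hv₁)
    rintro x ⟨h2, h3⟩
    refine ⟨?_, h3⟩
    have h2' : ‖g n x - ζ 1‖ < 1 / 2 := h2
    rw [hζ01] at h2'
    have h4 := htri (g n x) 0
    change 1 / 4 < ‖g n x - ζ 0‖
    linarith
  have hw2 : w ∈ M (ZMod 2) k Q₂ := by
    have h1 : w = v₂ - u₁ := by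
      rw [hw, ← hv]
      abel
    rw [h1]
    refine Submodule.sub_mem _ hv₂ (M_mono ?_ _ hu₁)
    rintro x ⟨h2, h3⟩
    refine ⟨?_, h3⟩
    have h2' : ‖g n x - ζ 0‖ < 1 / 2 := h2
    have h4 := htri (g n x) 0
    change 1 / 4 < ‖g n x - ζ 1‖
    rw [hζ01]
    linarith
  have hw3 : push (ZMod 2) ρ w ∈ M (ZMod 2) k (U ∩ {x | 1 < ‖g (n + 1) x‖}) := by
    refine push_mem ?_ (mem_M_inter hw1 hw2)
    rintro x ⟨⟨h1, h2⟩, ⟨h3, -⟩⟩
    refine ⟨hrotU x 0 h2, ?_⟩
    change 1 < ‖g (n + 1) (ρ x)‖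
    rw [hgρ]
    have h1' : 1 / 4 < ‖g n x - ζ 0‖ := h1
    have h3' : 1 / 4 < ‖g n x - ζ 1‖ := h3
    rw [hζ01] at h3'
    exact hbig _ _ h1' h3'
  -- subdivision
  have hρc : push (ZMod 2) ρ c ∈ M (ZMod 2) k U := push_mem (fun x hx => hrotU x 0 hx) hc
  have hρd : d (ZMod 2) W k (push (ZMod 2) ρ c) ∈
      M (ZMod 2) (k - 1) (U ∩ {x | 1 < ‖g (n + 1) x‖}) := by
    rw [d_push]
    refine push_mem ?_ hdc
    rintro x ⟨h1, h2⟩
    refine ⟨hrotU x 0 h1, g_step ?_⟩
    change 1 < ‖g n (rot n (x, 0))‖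
    rw [g_rot]
    exact h2
  obtain ⟨e₁, he₁, h₁⟩ := sub_sd_pow hρc hρd N
  refine ⟨e₁ + push (ZMod 2) (rot n) y₁, Submodule.add_mem _ he₁ (push_mem ?_ hy₁), ?_⟩
  · rintro ⟨x, s⟩ ⟨-, h2, -⟩
    exact hrotU x s h2
  · have h2 : push (ZMod 2) ρ c - d (ZMod 2) W (k + 1) (e₁ + push (ZMod 2) (rot n) y₁) =
        (push (ZMod 2) ρ c - (sd (ZMod 2) W k ^ N) (push (ZMod 2) ρ c) - d (ZMod 2) W (k + 1) e₁) +
          (push (ZMod 2) ρ w - push (ZMod 2) (rot n) A) := by
      have h3 : (sd (ZMod 2) W k ^ N) (push (ZMod 2) ρ c) =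
          push (ZMod 2) ρ w + push (ZMod 2) ρ u₁ + push (ZMod 2) ρ v₁ := by
        rw [← push_sd_pow, hw, map_sub, map_sub]
        abel
      have h4 : push (ZMod 2) ρ u₁ + push (ZMod 2) ρ u₁ = 0 := by
        nth_rewrite 1 [← exB_char (push (ZMod 2) ρ u₁)]
        exact neg_add_cancel _
      rw [h3, hA4, map_add]
      have h5 : ∀ a b u v x y : Ch (ZMod 2) W, u + u = 0 →
          a - (b + y) = a - (x + u + v) - b + (x - (y - (v - u))) := by
        intro a b u v x y h
        have h6 : a - (x + u + v) - b + (x - (y - (v - u))) = a - (b + y) - (u + u) := by abel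
        rw [h6, h, sub_zero]
      exact h5 _ _ _ _ _ _ h4
    rw [h2]
    exact Submodule.add_mem _ h₁ (Submodule.sub_mem _ hw3 hA3)

end Pool.Agent.Lib.MP_c2ffe9_gt
end

section

/-!
# The main step: a big set stays big outside of a set without big connected subsets
-/

namespace Pool.Agent.Lib.MP_c2ffe9_gt

open unitInterval

variable {R : Type} [CommRing R] {X : Type} [TopologicalSpace X]

/-- Purely topological: if `B ∩ L` is not empty and not both dense in `L` and connected then `L` is the union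
of two proper closed subsets whose intersection does not meet `B`. -/
theorem split [TopologicalSpace.MetrizableSpace X] {L B : Set X} (hL : IsClosed L)
    (hne : (B ∩ L).Nonempty) (h : ¬ (IsConnected (B ∩ L) ∧ closure (B ∩ L) = L)) :
    ∃ L₁ L₂ : Set X, IsClosed L₁ ∧ IsClosed L₂ ∧ L₁ ∪ L₂ = L ∧ L₁ ≠ L ∧ L₂ ≠ L ∧
      Disjoint B (L₁ ∩ L₂) := by
  letI := TopologicalSpace.metrizableSpaceMetric X
  by_cases hcl : closure (B ∩ L) = L
  · have hnc : ¬ IsPreconnected (B ∩ L) := fun hp => h ⟨⟨hne, hp⟩, hcl⟩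
    unfold IsPreconnected at hnc
    push Not at hnc
    obtain ⟨U, V, hU, hV, hcov, hnU, hnV, hdis⟩ := hnc
    set B₁ : Set X := (B ∩ L) ∩ U with hB₁
    set B₂ : Set X := (B ∩ L) ∩ V with hB₂
    have hsep : ∀ x ∈ B₁, x ∉ B₂ := by
      intro x h1 h2
      have : x ∈ (B ∩ L) ∩ (U ∩ V) := ⟨h1.1, h1.2, h2.2⟩
      rw [hdis] at this
      exact this
    have h12 : ∀ x ∈ B₁, x ∉ closure B₂ := by
      intro x h1 h2
      obtain ⟨y, hyU, hy2⟩ := mem_closure_iff.1 h2 U hU h1.2
      exact hsep y ⟨hy2.1, hyU⟩ hy2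
    have h21 : ∀ x ∈ B₂, x ∉ closure B₁ := by
      intro x h1 h2
      obtain ⟨y, hyV, hy1⟩ := mem_closure_iff.1 h2 V hV h1.2
      exact hsep y hy1 ⟨hy1.1, hyV⟩
    have c1 : Continuous fun x : X => Metric.infDist x B₁ := Metric.continuous_infDist_pt _
    have c2 : Continuous fun x : X => Metric.infDist x B₂ := Metric.continuous_infDist_pt _
    have p1 : ∀ x ∈ B₁, Metric.infDist x B₁ < Metric.infDist x B₂ := by
      intro x hx
      rw [Metric.infDist_zero_of_mem hx]
      exact (Metric.infDist_pos_iff_notMem_closure hnV).1 (h12 x hx)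
    have p2 : ∀ x ∈ B₂, Metric.infDist x B₂ < Metric.infDist x B₁ := by
      intro x hx
      rw [Metric.infDist_zero_of_mem hx]
      exact (Metric.infDist_pos_iff_notMem_closure hnU).1 (h21 x hx)
    refine ⟨L ∩ {x | Metric.infDist x B₁ ≤ Metric.infDist x B₂},
      L ∩ {x | Metric.infDist x B₂ ≤ Metric.infDist x B₁}, hL.inter (isClosed_le c1 c2),
      hL.inter (isClosed_le c2 c1), ?_, ?_, ?_, ?_⟩
    · rw [← Set.inter_union_distrib_left]
      refine Set.inter_eq_left.2 fun x _ => ?_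
      rcases le_total (Metric.infDist x B₁) (Metric.infDist x B₂) with h | h
      · exact Or.inl h
      · exact Or.inr h
    · intro heq
      obtain ⟨y, hy⟩ := hnV
      have : y ∈ L ∩ {x | Metric.infDist x B₁ ≤ Metric.infDist x B₂} := by
        rw [heq]; exact hy.1.2
      exact absurd this.2 (not_le.2 (p2 y hy))
    · intro heq
      obtain ⟨y, hy⟩ := hnU
      have : y ∈ L ∩ {x | Metric.infDist x B₂ ≤ Metric.infDist x B₁} := by
        rw [heq]; exact hy.1.2
      exact absurd this.2 (not_le.2 (p1 y hy))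
    · rw [Set.disjoint_left]
      rintro x hxB ⟨⟨hxL, h1⟩, ⟨_, h2⟩⟩
      rcases hcov ⟨hxB, hxL⟩ with hxU | hxV
      · exact absurd h2 (not_le.2 (p1 x ⟨⟨hxB, hxL⟩, hxU⟩))
      · exact absurd h1 (not_le.2 (p2 x ⟨⟨hxB, hxL⟩, hxV⟩))
  · have hsub : closure (B ∩ L) ⊆ L := closure_minimal Set.inter_subset_right hL
    obtain ⟨x, hxL, hxc⟩ : ∃ x ∈ L, x ∉ closure (B ∩ L) := by
      by_contra hcon
      push Not at hcon
      exact hcl (Set.Subset.antisymm hsub hcon)
    obtain ⟨r, hr, hball⟩ := Metric.nhds_basis_closedBall.mem_iff.1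
      (isClosed_closure.isOpen_compl.mem_nhds hxc)
    have cd : Continuous fun y : X => dist y x := continuous_id.dist continuous_const
    obtain ⟨z, hz⟩ := hne
    have hzr : r < dist z x := by
      by_contra hcon
      exact hball (Metric.mem_closedBall.2 (not_lt.1 hcon)) (subset_closure hz)
    refine ⟨L ∩ {y | dist y x ≤ r}, L ∩ {y | r ≤ dist y x},
      hL.inter (isClosed_le cd continuous_const), hL.inter (isClosed_le continuous_const cd),
      ?_, ?_, ?_, ?_⟩
    · rw [← Set.inter_union_distrib_left]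
      refine Set.inter_eq_left.2 fun y _ => ?_
      rcases le_total (dist y x) r with h | h
      · exact Or.inl h
      · exact Or.inr h
    · intro heq
      have : z ∈ L ∩ {y | dist y x ≤ r} := by rw [heq]; exact hz.2
      exact absurd this.2 (not_le.2 hzr)
    · intro heq
      have : x ∈ L ∩ {y | r ≤ dist y x} := by rw [heq]; exact hxL
      have h2 : r ≤ dist x x := this.2
      rw [dist_self] at h2
      exact absurd h2 (not_le.2 hr)
    · rw [Set.disjoint_left]
      rintro y hyB ⟨⟨hyL, h1⟩, _⟩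
      exact hball (Metric.mem_closedBall.2 h1) (subset_closure ⟨hyB, hyL⟩)

/-- Take a nontrivial relative cycle `α` for `L` and a minimal `L' ⊆ L` (`exists_irred`). If `B ∩ L' = ∅` we
are done. If `B ∩ L'` is connected and dense in `L'` it contradicts `hB`. Otherwise use `split` and `mv`. -/
theorem star [TopologicalSpace.MetrizableSpace X] {L B : Set X} (hL : Big R L)
    (hB : ∀ C ⊆ B, IsConnected C → ¬ Big R (closure C)) : ∃ L' ⊆ L \ B, Big R L' := by
  obtain ⟨hLc, n, α, hα, hnt⟩ := hL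
  obtain ⟨L₀, hL₀L, hL₀c, hnt₀, hmin⟩ := exists_irred hLc hnt
  have hα₀ : RelCyc R n L₀ α := ⟨hα.1, M_mono (Set.compl_subset_compl.2 hL₀L) _ hα.2⟩
  have hbig₀ : Big R L₀ := ⟨hL₀c, n, α, hα₀, hnt₀⟩
  rcases Set.eq_empty_or_nonempty (B ∩ L₀) with he | hne
  · refine ⟨L₀, fun x hx => ⟨hL₀L hx, fun hxB => ?_⟩, hbig₀⟩
    have : x ∈ B ∩ L₀ := ⟨hxB, hx⟩
    rw [he] at this
    exact this
  · by_cases hcon : IsConnected (B ∩ L₀) ∧ closure (B ∩ L₀) = L₀
    · refine absurd ?_ (hB (B ∩ L₀) Set.inter_subset_left hcon.1)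
      rw [hcon.2]
      exact hbig₀
    · obtain ⟨L₁, L₂, h1, h2, hun, hne1, hne2, hdis⟩ := split hL₀c hne hcon
      have hs1 : L₁ ⊆ L₀ := hun ▸ Set.subset_union_left
      have hs2 : L₂ ⊆ L₀ := hun ▸ Set.subset_union_right
      obtain ⟨β, hβ1, hβ2⟩ := mv h1 h2 (by rw [hun]; exact hα₀) (hmin L₁ hs1 h1 hne1)
        (hmin L₂ hs2 h2 hne2) (by rw [hun]; exact hnt₀)
      refine ⟨L₁ ∩ L₂, fun x hx => ⟨hL₀L (hs1 hx.1), fun hxB => ?_⟩, h1.inter h2, n + 1, β, hβ1, hβ2⟩
      exact Set.disjoint_left.1 hdis hxB hx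

/-- Iterate `star`; nested nonempty compact sets. -/
theorem not_cover [TopologicalSpace.MetrizableSpace X] [CompactSpace X] {L : Set X} (hL : Big R L)
    (B : ℕ → Set X) (hB : ∀ n, ∀ C ⊆ B n, IsConnected C → ¬ Big R (closure C)) :
    ¬ L ⊆ ⋃ n, B n := by
  intro hcov
  have hstep : ∀ (n : ℕ) (K : {K : Set X // Big R K}), ∃ K' : {K : Set X // Big R K},
      K'.1 ⊆ K.1 \ B n := by
    intro n K
    obtain ⟨K', h1, h2⟩ := star K.2 (hB n)
    exact ⟨⟨K', h2⟩, h1⟩
  choose F hF using hstep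
  let S : ℕ → {K : Set X // Big R K} := fun n => Nat.rec ⟨L, hL⟩ (fun n K => F n K) n
  have hS0 : S 0 = ⟨L, hL⟩ := rfl
  have hS1 : ∀ n, S (n + 1) = F n (S n) := fun _ => rfl
  have hanti : ∀ n, (S (n + 1)).1 ⊆ (S n).1 := by
    intro n x hx
    rw [hS1] at hx
    exact (hF n (S n) hx).1
  have hne : ∀ n, (S n).1.Nonempty := by
    intro n
    by_contra hcon
    have h1 := (S n).2
    rw [Set.not_nonempty_iff_eq_empty.1 hcon] at h1
    exact not_big_empty h1
  obtain ⟨x, hx⟩ := IsCompact.nonempty_iInter_of_sequence_nonempty_isCompact_isClosed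
    (fun n => (S n).1) hanti hne (S 0).2.1.isCompact (fun n => (S n).2.1)
  rw [Set.mem_iInter] at hx
  obtain ⟨n, hn⟩ := Set.mem_iUnion.1 (hcov (hx 0))
  have h2 : x ∈ (S (n + 1)).1 := hx (n + 1)
  rw [hS1] at h2
  exact (hF n (S n) h2).2 hn

end Pool.Agent.Lib.MP_c2ffe9_gt
end

section

/-!
# Homological Z-sets are not big
-/

namespace Pool.Agent.Lib.MP_c2ffe9_gt

open unitInterval

variable {R : Type} [CommRing R]

/-- For a Z-set in `W × J` all relative cycles are trivial: take for `K` the union of the images of the cubes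
of `d α` that are in the complement of `A'` (a finite union of compact sets), then the homotopy
`lerp x (φ x) s`. -/
theorem triv_of_Z {A' : Set (W × J)} (hA : IsZomega A') {n : ℕ} {α : Ch R (W × J)}
    (hα : RelCyc R n A' α) : Triv R n A' α := by
  classical
  obtain ⟨hα1, hα2⟩ := hα
  set β := d R (W × J) n α with hβ
  set K : Set (W × J) := ⋃ T ∈ β.support.filter (fun T : C(W, W × J) => ∀ t, T t ∈ A'ᶜ),
    Set.range T with hK
  have hKc : IsCompact K :=
    Finset.isCompact_biUnion _ fun T _ => isCompact_range T.continuous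
  have hd : Disjoint K A' := by
    rw [Set.disjoint_left]
    intro x hx
    obtain ⟨T, hT, t, rfl⟩ := Set.mem_iUnion₂.1 hx
    exact (Finset.mem_filter.1 hT).2 t
  obtain ⟨φ, hφ1, hφ2⟩ := exists_push hA hKc hd
  let H : C((W × J) × unitInterval, W × J) :=
    ⟨fun z => lerp z.1 (φ z.1) z.2, continuous_lerp.comp
      ((continuous_fst.prodMk (φ.continuous.comp continuous_fst)).prodMk continuous_snd)⟩
  have hβK : β ∈ M R (n - 1) K := by
    rw [M, Finsupp.mem_supported]
    intro T hT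
    have h1 := (Finsupp.mem_supported R β).1 hα2 hT
    refine ⟨h1.1, h1.2.imp (fun h t => ?_) id⟩
    exact Set.mem_iUnion₂.2 ⟨T, Finset.mem_filter.2 ⟨hT, h⟩, t, rfl⟩
  obtain ⟨e, he, h⟩ := homotopy (U := Set.univ) (V := K) (U' := Set.univ) (V' := A'ᶜ) hα1 hβK H
    (fun _ _ _ => trivial) (fun x hx s => hφ2 x hx s)
  have e1 : H.comp (incl (W × J) 1) = φ := by
    ext1 x
    exact lerp_one x (φ x)
  have e0 : H.comp (incl (W × J) 0) = ContinuousMap.id (W × J) := by
    ext1 x
    exact lerp_zero x (φ x)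
  rw [e1, e0, push_id] at h
  have h2 : push R φ α ∈ M R n A'ᶜ := push_mem (fun x _ => hφ1 x) hα1
  refine ⟨-e, Submodule.neg_mem _ he, ?_⟩
  have h3 : α - d R (W × J) (n + 1) (-e) =
      push R φ α - (push R φ α - α - d R (W × J) (n + 1) e) := by
    rw [map_neg]
    abel
  rw [h3]
  exact Submodule.sub_mem _ h2 h

private theorem rho_mem (p : W × unitInterval) : 2 * (p.2 : ℝ) - 1 ∈ Set.Icc (-1 : ℝ) 1 := by
  have h0 := p.2.2.1
  have h1 := p.2.2.2
  constructor <;> linarith

/-- `(x, s) ↦ (x, 2 s - 1)`. -/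
private noncomputable def rho : C(W × unitInterval, W × J) where
  toFun p := (p.1, ⟨2 * (p.2 : ℝ) - 1, rho_mem p⟩)
  continuous_toFun := continuous_fst.prodMk (Continuous.subtype_mk (by fun_prop) _)

/-- Homological Z-sets are not big. Let `α` be a relative cycle for `A`, `A' = A × {0}` and let
`α' ∈ M R (n+1) univ` be the image of `cyl α` under `(x, s) ↦ (x, 2 s - 1)`. Then `d α'` is
`(-1)^n (α × {1} - α × {-1})` plus a chain in `Aᶜ × J`, so `α'` is a relative cycle for `A'`,
`α' = d e + b`, `b ∈ M R (n+1) A'ᶜ`. Let `P = {t > 0 or x ∉ A}`, `Q = {t < 0 or x ∉ A}`, so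
`sd^N b = b₁ + b₂` with `b₁ ∈ M (n+1) P`, `b₂ ∈ M (n+1) Q`. Taking boundaries:
`y = (-1)^n sd^N (α × {1}) + sd^N (rest) - d b₁ = (-1)^n sd^N (α × {-1}) + d b₂` is in `M n (P ∩ Q)`, and its
projection to `W` is in `M n Aᶜ` and equal to `(-1)^n sd^N α + d (projection of b₂)`. -/
theorem not_big_of_HZ {A : Set W} (h : IsHZ A) : ¬ Big R A := by
  rintro ⟨hAc, n, α, hα, hn⟩
  apply hn
  have hAZ := h.2
  set rest := push R rho (cyl R W (n - 1) (d R W n α)) with hrest_def
  set p1 := push R (rho.comp (incl W 1)) α with hp1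
  set p0 := push R (rho.comp (incl W 0)) α with hp0
  have hrest : rest ∈ M R n {p : W × J | p.1 ∉ A} := by
    rcases n with _ | n
    · have h1 : rest = 0 := by
        rw [hrest_def, d_zero, map_zero, map_zero]
      rw [h1]
      exact Submodule.zero_mem _
    · exact push_mem (fun x hx => hx.1) (cyl_mem hα.2)
  have hd' : d R (W × J) (n + 1) (push R rho (cyl R W n α)) =
      rest + ((-1 : R) ^ n) • (p1 - p0) := by
    rw [d_push, d_cyl hα.1, map_add, map_smul, map_sub, push_push, push_push]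
  have h1 : p1 ∈ M R n {p : W × J | 0 < (p.2 : ℝ)} := by
    refine push_mem (U := Set.univ) (fun x _ => ?_) hα.1
    change (0 : ℝ) < 2 * ((1 : unitInterval) : ℝ) - 1
    norm_num
  have h0 : p0 ∈ M R n {p : W × J | (p.2 : ℝ) < 0} := by
    refine push_mem (U := Set.univ) (fun x _ => ?_) hα.1
    change 2 * ((0 : unitInterval) : ℝ) - 1 < (0 : ℝ)
    norm_num
  have hrel : RelCyc R (n + 1) {p : W × J | p.1 ∈ A ∧ (p.2 : ℝ) = 0}
      (push R rho (cyl R W n α)) := by
    refine ⟨push_mem (V := Set.univ) (fun x _ => Set.mem_univ _) (cyl_mem hα.1), ?_⟩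
    rw [Nat.add_sub_cancel, hd']
    refine Submodule.add_mem _ (M_mono ?_ n hrest) (Submodule.smul_mem _ _
      (Submodule.sub_mem _ (M_mono ?_ n h1) (M_mono ?_ n h0)))
    · intro p hp hp'
      exact hp hp'.1
    · intro p hp hp'
      have h2 : (0 : ℝ) < p.2 := hp
      have h3 : (p.2 : ℝ) = 0 := hp'.2
      linarith
    · intro p hp hp'
      have h2 : (p.2 : ℝ) < 0 := hp
      have h3 : (p.2 : ℝ) = 0 := hp'.2
      linarith
  obtain ⟨e, he, hb⟩ := triv_of_Z hAZ hrel
  set b := push R rho (cyl R W n α) - d R (W × J) (n + 1 + 1) e with hbdef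
  have hdb : d R (W × J) (n + 1) b = rest + ((-1 : R) ^ n) • (p1 - p0) := by
    rw [hbdef, map_sub, d_d, sub_zero, hd']
  have hcont : Continuous fun p : W × J => (p.2 : ℝ) :=
    continuous_subtype_val.comp continuous_snd
  have hP : IsOpen {p : W × J | 0 < (p.2 : ℝ) ∨ p.1 ∉ A} := by
    refine (isOpen_lt continuous_const hcont).union ?_
    exact hAc.isOpen_compl.preimage continuous_fst
  have hQ : IsOpen {p : W × J | (p.2 : ℝ) < 0 ∨ p.1 ∉ A} := by
    refine (isOpen_lt hcont continuous_const).union ?_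
    exact hAc.isOpen_compl.preimage continuous_fst
  have hb' : b ∈ M R (n + 1)
      ({p : W × J | 0 < (p.2 : ℝ) ∨ p.1 ∉ A} ∪ {p : W × J | (p.2 : ℝ) < 0 ∨ p.1 ∉ A}) := by
    refine M_mono ?_ (n + 1) hb
    intro p hp
    by_cases hpA : p.1 ∈ A
    · have h2 : (p.2 : ℝ) ≠ 0 := fun h3 => hp ⟨hpA, h3⟩
      rcases lt_or_gt_of_ne h2 with h3 | h3
      · exact Or.inr (Or.inl h3)
      · exact Or.inl (Or.inl h3)
    · exact Or.inl (Or.inr hpA)
  obtain ⟨N, hN⟩ := small hP hQ hb'
  obtain ⟨b1, hb1, b2, hb2, hsum⟩ := Submodule.mem_sup.1 (hN N le_rfl)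
  have hdd : d R (W × J) (n + 1) b1 + d R (W × J) (n + 1) b2 =
      (sd R (W × J) n ^ N) rest + ((-1 : R) ^ n) •
        ((sd R (W × J) n ^ N) p1 - (sd R (W × J) n ^ N) p0) := by
    rw [← map_add, hsum, d_sd_pow, hdb, map_add, map_smul, map_sub]
  have hyeq : (sd R (W × J) n ^ N) rest + ((-1 : R) ^ n) • (sd R (W × J) n ^ N) p1 -
      d R (W × J) (n + 1) b1 =
      ((-1 : R) ^ n) • (sd R (W × J) n ^ N) p0 + d R (W × J) (n + 1) b2 := by
    have h2 : d R (W × J) (n + 1) b2 = (sd R (W × J) n ^ N) rest + ((-1 : R) ^ n) •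
        ((sd R (W × J) n ^ N) p1 - (sd R (W × J) n ^ N) p0) - d R (W × J) (n + 1) b1 := by
      rw [← hdd]
      abel
    rw [h2, smul_sub]
    abel
  have hyP : (sd R (W × J) n ^ N) rest + ((-1 : R) ^ n) • (sd R (W × J) n ^ N) p1 -
      d R (W × J) (n + 1) b1 ∈ M R n {p : W × J | 0 < (p.2 : ℝ) ∨ p.1 ∉ A} := by
    refine Submodule.sub_mem _ (Submodule.add_mem _ ?_ (Submodule.smul_mem _ _ ?_)) (d_mem hb1)
    · exact sd_pow_mem (M_mono (fun p hp => Or.inr hp) n hrest) N
    · exact sd_pow_mem (M_mono (fun p hp => Or.inl hp) n h1) N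
  have hyQ : (sd R (W × J) n ^ N) rest + ((-1 : R) ^ n) • (sd R (W × J) n ^ N) p1 -
      d R (W × J) (n + 1) b1 ∈ M R n {p : W × J | (p.2 : ℝ) < 0 ∨ p.1 ∉ A} := by
    rw [hyeq]
    refine Submodule.add_mem _ (Submodule.smul_mem _ _ ?_) (d_mem hb2)
    exact sd_pow_mem (M_mono (fun p hp => Or.inl hp) n h0) N
  have hy := mem_M_inter hyP hyQ
  have hproj : push R (ContinuousMap.fst : C(W × J, W))
      ((sd R (W × J) n ^ N) rest + ((-1 : R) ^ n) • (sd R (W × J) n ^ N) p1 -
        d R (W × J) (n + 1) b1) ∈ M R n Aᶜ := by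
    refine push_mem ?_ hy
    rintro p ⟨hp1', hp2'⟩
    rcases hp1' with h2 | h2
    · rcases hp2' with h3 | h3
      · exact absurd (lt_trans h2 h3) (lt_irrefl _)
      · exact h3
    · exact h2
  have hcomp : (ContinuousMap.fst : C(W × J, W)).comp (rho.comp (incl W 0)) =
      ContinuousMap.id W := by
    ext1 x
    rfl
  rw [hyeq, map_add, map_smul, push_sd_pow, hp0, push_push, hcomp, push_id, ← d_push] at hproj
  refine triv_of_sd_pow hα N ⟨-(((-1 : R) ^ n) • push R (ContinuousMap.fst : C(W × J, W)) b2),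
    Submodule.neg_mem _ (Submodule.smul_mem _ _ (push_mem (V := Set.univ) (fun _ _ => Set.mem_univ _) hb2)), ?_⟩
  have hsq : ((-1 : R) ^ n) * ((-1 : R) ^ n) = 1 := by
    rw [← mul_pow]
    simp
  have hfin : (sd R W n ^ N) α - d R W (n + 1)
      (-(((-1 : R) ^ n) • push R (ContinuousMap.fst : C(W × J, W)) b2)) =
      ((-1 : R) ^ n) • (((-1 : R) ^ n) • (sd R W n ^ N) α +
        d R W (n + 1) (push R (ContinuousMap.fst : C(W × J, W)) b2)) := by
    rw [smul_add, smul_smul, hsq, one_smul, map_neg, map_smul, sub_neg_eq_add]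
  rw [hfin]
  exact Submodule.smul_mem _ _ hproj

end Pool.Agent.Lib.MP_c2ffe9_gt
end

section

/-!
# The example: a closed set all of whose closed subsets are not big modulo 2
-/

namespace Pool.Agent.Lib.MP_c2ffe9_gt

open unitInterval

/-- The linear motion of the coordinates `2n+2`, `2n+3`. -/
noncomputable def linH (n : ℕ) : C(W × unitInterval, W) :=
  ⟨fun p j => ⟨(1 - (p.2 : ℝ)) * (p.1 j : ℝ) + (p.2 : ℝ) * ((rot n (p.1, 0) j : unitInterval) : ℝ), by
    have h0 := p.2.2.1
    have h1 := p.2.2.2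
    have h2 := (p.1 j).2.1
    have h3 := (p.1 j).2.2
    have h4 := (rot n (p.1, 0) j).2.1
    have h5 := (rot n (p.1, 0) j).2.2
    constructor
    · exact add_nonneg (mul_nonneg (sub_nonneg.2 h1) h2) (mul_nonneg h0 h4)
    · nlinarith [mul_le_mul_of_nonneg_left h3 (sub_nonneg.2 h1), mul_le_mul_of_nonneg_left h5 h0]⟩, by
    refine continuous_pi fun j => ?_
    have hr : Continuous fun p : W × unitInterval => (rot n (p.1, 0) j : unitInterval) :=
      (continuous_apply j).comp ((rot n).continuous.comp (continuous_fst.prodMk continuous_const))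
    have hx : Continuous fun p : W × unitInterval => (p.1 j : unitInterval) :=
      (continuous_apply j).comp continuous_fst
    refine Continuous.subtype_mk ?_ _
    exact ((continuous_const.sub (continuous_subtype_val.comp continuous_snd)).mul
      (continuous_subtype_val.comp hx)).add
      ((continuous_subtype_val.comp continuous_snd).mul (continuous_subtype_val.comp hr))⟩

theorem linH_apply (n : ℕ) (x : W) (s : unitInterval) (j : ℕ) :
    ((linH n (x, s) j : unitInterval) : ℝ) =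
      (1 - (s : ℝ)) * (x j : ℝ) + (s : ℝ) * ((rot n (x, 0) j : unitInterval) : ℝ) := rfl

theorem rot_small (n : ℕ) (x : W) {i : ℕ} (hi : i < 2 * n + 2) : rot n (x, 0) i = x i := by
  have h1 : i ≠ 2 * n + 2 := by omega
  have h2 : i ≠ 2 * n + 3 := by omega
  simp [rot, h1, h2]

theorem linH_small (n : ℕ) (x : W) (s : unitInterval) {i : ℕ} (hi : i < 2 * n + 2) :
    x i = linH n (x, s) i := by
  refine Subtype.ext ?_
  rw [linH_apply, rot_small n x hi]
  ring

theorem linH_zero (n : ℕ) : (linH n).comp (incl W 0) = ContinuousMap.id W := by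
  refine ContinuousMap.ext fun x => funext fun j => Subtype.ext ?_
  show ((linH n (x, 0) j : unitInterval) : ℝ) = (x j : ℝ)
  rw [linH_apply]
  simp

theorem linH_one (n : ℕ) : (linH n).comp (incl W 1) = (rot n).comp (incl W 0) := by
  refine ContinuousMap.ext fun x => funext fun j => Subtype.ext ?_
  show ((linH n (x, 1) j : unitInterval) : ℝ) = ((rot n (x, 0) j : unitInterval) : ℝ)
  rw [linH_apply]
  simp

theorem g_le {m n : ℕ} (h : m ≤ n) {x : W} (hx : 1 < ‖g m x‖) : 1 < ‖g n x‖ := by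
  induction n, h using Nat.le_induction with
  | base => exact hx
  | succ n _ ih => exact g_step ih

theorem fib_sub (U : Set W) (n : ℕ) : fib U n ⊆ U := fun x hx => hx x fun _ _ => rfl

/-- The same without `ρ`: `c` and `ρ c` are homotopic (`homotopy`): move the coordinates `2n+2`, `2n+3`
linearly; this does not change `g n` and stays in `U`. -/
theorem trans {n : ℕ} {U : Set W} (hU : IsOpen U)
    (hd : ∀ x y : W, (∀ i < 2 * n + 2, x i = y i) → x ∈ U → y ∈ U) {k : ℕ} {c : Ch (ZMod 2) W}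
    (hc : c ∈ M (ZMod 2) k U)
    (hdc : d (ZMod 2) W k c ∈ M (ZMod 2) (k - 1) (U ∩ {x | 1 < ‖g n x‖})) :
    ∃ e ∈ M (ZMod 2) (k + 1) U,
      c - d (ZMod 2) W (k + 1) e ∈ M (ZMod 2) k (U ∩ {x | 1 < ‖g (n + 1) x‖}) := by
  have hUU : ∀ x ∈ U, ∀ s, linH n (x, s) ∈ U := fun x hx s =>
    hd x _ (fun i hi => linH_small n x s hi) hx
  obtain ⟨e1, he1, h1⟩ := homotopy (U := U) (V := U ∩ {x | 1 < ‖g n x‖}) (U' := U)
    (V' := U ∩ {x | 1 < ‖g (n + 1) x‖}) hc hdc (linH n) hUU (by
      rintro x ⟨hx1, hx2⟩ s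
      refine ⟨hUU x hx1 s, ?_⟩
      refine g_step ?_
      rw [← g_dep (n := n) (x := x) fun i hi => linH_small n x s hi]
      exact hx2)
  obtain ⟨e2, he2, h2⟩ := trans_rot hU hd hc hdc
  rw [linH_zero, linH_one, push_id] at h1
  refine ⟨e2 - e1, Submodule.sub_mem _ he2 he1, ?_⟩
  have h3 := Submodule.sub_mem _ h2 h1
  have h4 : push (ZMod 2) ((rot n).comp (incl W 0)) c - d (ZMod 2) W (k + 1) e2 -
      (push (ZMod 2) ((rot n).comp (incl W 0)) c - c - d (ZMod 2) W (k + 1) e1) =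
      c - d (ZMod 2) W (k + 1) (e2 - e1) := by
    rw [map_sub]
    abel
  rw [h4] at h3
  exact h3

/-- For all open `U` the relative homology modulo 2 of `U` modulo `U \ X0` is zero: `c` is in
`M k (fib U (2n+2))` and `d c` is in `M (k-1) {|g n| > 1}` for some `n` (`mem_directed`); then `trans`. -/
theorem rel_zero {U : Set W} (hU : IsOpen U) {k : ℕ} {c : Ch (ZMod 2) W}
    (hc : c ∈ M (ZMod 2) k U) (hdc : d (ZMod 2) W k c ∈ M (ZMod 2) (k - 1) (U ∩ X0ᶜ)) :
    ∃ e ∈ M (ZMod 2) (k + 1) U, c - d (ZMod 2) W (k + 1) e ∈ M (ZMod 2) k (U ∩ X0ᶜ) := by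
  have hg : ∀ n, IsOpen {x : W | 1 < ‖g n x‖} := fun n =>
    isOpen_lt continuous_const (continuous_g n).norm
  have hm1 : Monotone fun n : ℕ => fib U (2 * n + 2) := fun a b hab => fib_mono U (by omega)
  have hm2 : Monotone fun n : ℕ => fib U (2 * n + 2) ∩ {x : W | 1 < ‖g n x‖} := fun a b hab =>
    Set.inter_subset_inter (fib_mono U (by omega)) fun x hx => g_le hab hx
  have hu1 : (⋃ n : ℕ, fib U (2 * n + 2)) = U := by
    refine Set.Subset.antisymm (Set.iUnion_subset fun n => fib_sub U _) fun x hx => ?_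
    rw [← iUnion_fib hU] at hx
    obtain ⟨m, hm⟩ := Set.mem_iUnion.1 hx
    exact Set.mem_iUnion.2 ⟨m, fib_mono U (by omega) hm⟩
  have hu2 : (⋃ n : ℕ, fib U (2 * n + 2) ∩ {x : W | 1 < ‖g n x‖}) = U ∩ X0ᶜ := by
    refine Set.Subset.antisymm (Set.iUnion_subset fun n => ?_) ?_
    · rintro x ⟨hx1, hx2⟩
      exact ⟨fib_sub U _ hx1, fun h => absurd (h n) (not_le.2 hx2)⟩
    · rintro x ⟨hx1, hx2⟩
      have hx3 : ∃ m, 1 < ‖g m x‖ := by
        by_contra hcon
        push Not at hcon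
        exact hx2 hcon
      obtain ⟨m, hm⟩ := hx3
      rw [← hu1] at hx1
      obtain ⟨l, hl⟩ := Set.mem_iUnion.1 hx1
      exact Set.mem_iUnion.2 ⟨max m l, hm1 (le_max_right m l) hl, g_le (le_max_left m l) hm⟩
  rw [← hu1] at hc
  rw [← hu2] at hdc
  obtain ⟨n1, hn1⟩ := mem_directed _ (fun n => isOpen_fib hU _) hm1.directed_le hc
  obtain ⟨n2, hn2⟩ := mem_directed _ (fun n => (isOpen_fib hU _).inter (hg n)) hm2.directed_le hdc
  have hn1' := M_mono (R := ZMod 2) (hm1 (le_max_left n1 n2)) k hn1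
  have hn2' := M_mono (R := ZMod 2) (hm2 (le_max_right n1 n2)) (k - 1) hn2
  obtain ⟨e, he, h⟩ := trans (n := max n1 n2) (U := fib U (2 * max n1 n2 + 2)) (isOpen_fib hU _)
    (fun x y hxy hx z hz => hx z fun i hi => (hxy i hi).trans (hz i hi)) hn1' hn2'
  refine ⟨e, M_mono (fib_sub U _) _ he, M_mono ?_ _ h⟩
  rintro x ⟨hx1, hx2⟩
  exact ⟨fib_sub U _ hx1, fun h => absurd (h _) (not_le.2 hx2)⟩

/-- Let `α` be a relative cycle for `A ⊆ X0`. Apply `rel_zero` to `d α` in `U = Aᶜ`: `d α = d e + r` with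
`r ∈ M X0ᶜ`; then `rel_zero` for `U = univ` and `α - e`. -/
theorem not_big_sub {A : Set W} (hA : IsClosed A) (h : A ⊆ X0) : ¬ Big (ZMod 2) A := by
  rintro ⟨-, n, α, ⟨h1, h2⟩, h3⟩
  apply h3
  have hs : (Set.univ : Set W) ∩ X0ᶜ ⊆ Aᶜ := fun x hx hxA => hx.2 (h hxA)
  rcases n with _ | m
  · obtain ⟨e, he, h4⟩ := rel_zero (U := Set.univ) isOpen_univ (k := 0) h1
      (by rw [d_zero]; exact Submodule.zero_mem _)
    exact ⟨e, he, M_mono hs _ h4⟩
  · obtain ⟨e, he, h4⟩ := rel_zero (U := Aᶜ) hA.isOpen_compl (k := m)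
      (c := d (ZMod 2) W (m + 1) α) h2 (by
        rcases m with _ | m
        · rw [d_zero]; exact Submodule.zero_mem _
        · rw [d_d]; exact Submodule.zero_mem _)
    have h5 : d (ZMod 2) W (m + 1) (α - e) ∈ M (ZMod 2) (m + 1 - 1) (Set.univ ∩ X0ᶜ) := by
      rw [map_sub]
      exact M_mono (Set.inter_subset_inter_left _ (Set.subset_univ _)) _ h4
    obtain ⟨e', he', h6⟩ := rel_zero (U := Set.univ) isOpen_univ (k := m + 1)
      (Submodule.sub_mem _ h1 (M_mono (Set.subset_univ _) _ he)) h5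
    refine ⟨e', he', ?_⟩
    have h7 := Submodule.add_mem _ (M_mono hs _ h6) he
    have h8 : α - e - d (ZMod 2) W (m + 1 + 1) e' + e = α - d (ZMod 2) W (m + 1 + 1) e' := by abel
    rw [h8] at h7
    exact h7

end Pool.Agent.Lib.MP_c2ffe9_gt
end

section

/-!
# One-point sets are homological Z-sets; invariance of the homological Z-sets
-/

namespace Pool.Agent.Lib.MP_c2ffe9_gt

open unitInterval

private theorem singClosed {A : Set W} (hA : IsClosed A) :
    IsClosed {p : W × J | p.1 ∈ A ∧ (p.2 : ℝ) = 0} := by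
  apply IsClosed.inter
  · exact hA.preimage continuous_fst
  · exact isClosed_eq (continuous_subtype_val.comp continuous_snd) continuous_const

/-- Change the `n`-th coordinate of `(f t).1` to `0` or `1`, whichever is not `p n`. For `n → ∞` these maps
converge to `f` in `C(W, W × J)` (uniform convergence), and they miss the point `(p, 0)`. -/
theorem isHZ_singleton (p : W) : IsHZ {p} := by
  classical
  refine ⟨isClosed_singleton, singClosed isClosed_singleton, ?_⟩
  have he : ∀ n, ∃ e : unitInterval, e ≠ p n := by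
    intro n
    by_cases h : p n = 0
    · exact ⟨1, by rw [h]; exact one_ne_zero⟩
    · exact ⟨0, fun h' => h h'.symm⟩
  choose e he using he
  intro f
  let g : ℕ → C(W, W × J) := fun n =>
    ⟨fun t => (Function.update (f t).1 n (e n), (f t).2), by
      have h1 : Continuous fun t => (f t).1 := continuous_fst.comp f.continuous
      have h2 : Continuous fun t => (f t).2 := continuous_snd.comp f.continuous
      exact (h1.update n continuous_const).prodMk h2⟩
  have hg : ∀ n t, g n t = (Function.update (f t).1 n (e n), (f t).2) := fun n t => rfl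
  have hmem : ∀ n, g n ∈ {f : C(W, W × J) |
      ∀ t, f t ∉ {q : W × J | q.1 ∈ ({p} : Set W) ∧ (q.2 : ℝ) = 0}} := by
    intro n t ht
    have h1 : (g n t).1 = p := ht.1
    have h2 := congrFun h1 n
    rw [hg] at h2
    simp only [Function.update_self] at h2
    exact he n h2
  have hlim : Filter.Tendsto g Filter.atTop (nhds f) := by
    rw [ContinuousMap.tendsto_iff_tendstoUniformly, tendstoUniformly_iff_tendsto, uniformity_prod,
      Filter.tendsto_inf, Filter.tendsto_comap_iff, Filter.tendsto_comap_iff, Pi.uniformity,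
      Filter.tendsto_iInf]
    constructor
    · intro i
      rw [Filter.tendsto_comap_iff]
      have h1 : ∀ᶠ q : ℕ × W in Filter.atTop ×ˢ ⊤,
          (((f q.2).1 i, (f q.2).1 i) : unitInterval × unitInterval) =
          ((fun a : W × W => (a.1 i, a.2 i)) ∘ (fun a : (W × J) × (W × J) => (a.1.1, a.2.1)) ∘
            fun q : ℕ × W => (f q.2, g q.1 q.2)) q := by
        have h2 : ∀ᶠ n : ℕ in Filter.atTop, i < n := Filter.eventually_gt_atTop i
        filter_upwards [h2.prod_inl (⊤ : Filter W)] with q hq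
        simp only [Function.comp_apply, hg]
        rw [Function.update_of_ne (by omega)]
      refine Filter.Tendsto.congr' h1 ?_
      exact tendsto_diag_uniformity (fun q : ℕ × W => (f q.2).1 i) _
    · exact tendsto_diag_uniformity (fun q : ℕ × W => (f q.2).2) _
  exact mem_closure_of_tendsto hlim (Filter.Eventually.of_forall hmem)

theorem isHZ_empty : IsHZ (∅ : Set W) := by
  refine ⟨isClosed_empty, singClosed isClosed_empty, ?_⟩
  have h1 : {f : C(W, W × J) | ∀ t, f t ∉ {q : W × J | q.1 ∈ (∅ : Set W) ∧ (q.2 : ℝ) = 0}} =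
      Set.univ := by
    ext f
    simp
  rw [h1]
  exact dense_univ

/-- `h × id` is a homeomorphism of `W × J`, and composition with it is a homeomorphism of `C(W, W × J)`. -/
theorem IsHZ.image {A : Set W} (hA : IsHZ A) (h : W ≃ₜ W) : IsHZ (h '' A) := by
  have hc : IsClosed (h '' A) := h.isClosed_image.2 hA.1
  refine ⟨hc, singClosed hc, ?_⟩
  let g : C(W × J, W × J) := ⟨fun q => (h q.1, q.2),
    (h.continuous.comp continuous_fst).prodMk continuous_snd⟩
  let g' : C(W × J, W × J) := ⟨fun q => (h.symm q.1, q.2),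
    (h.symm.continuous.comp continuous_fst).prodMk continuous_snd⟩
  have h1 : Continuous fun f : C(W, W × J) => g.comp f := ContinuousMap.continuous_postcomp g
  have h2 : Function.Surjective fun f : C(W, W × J) => g.comp f := by
    intro f
    refine ⟨g'.comp f, ?_⟩
    ext t : 1
    simp [g, g']
  refine (h2.denseRange.dense_image h1 hA.2.2).mono ?_
  rintro _ ⟨f, hf, rfl⟩ t ⟨⟨a, ha, hat⟩, ht2⟩
  have h3 : (g (f t)).1 = h (f t).1 := rfl
  have h4 : (g (f t)).2 = (f t).2 := rfl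
  apply hf t
  refine ⟨?_, ?_⟩
  · have h5 : h a = h (f t).1 := hat
    rw [← h.injective h5]
    exact ha
  · exact ht2

end Pool.Agent.Lib.MP_c2ffe9_gt
end
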