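import Mathlib
import Pool.Agent.Lib.MP_c2ffe9_gt.Sing

/-!
# The sigma-ideal is not maximal
-/

namespace Pool.Agent.Lib.MP_c2ffe9_gt

open Set
open scoped MeasureTheory

/-- The subsets of the countable unions of members of `F`. -/
def sigmaGen (F : Set (Set W)) : Set (Set W) := {A | ∃ B : ℕ → Set W, (∀ n, B n ∈ F) ∧ A ⊆ ⋃ n, B n}

/-- A non-trivial topologically invariant sigma-ideal with Borel base on the Hilbert cube. -/
structure Admissible (I : Set (Set W)) : Prop where
  empty : ∅ ∈ I
  subset : ∀ A ∈ I, ∀ B ⊆ A, B ∈ I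
  iUnion : ∀ A : ℕ → Set W, (∀ n, A n ∈ I) → ⋃ n, A n ∈ I
  uncountable : ∃ A ∈ I, ¬ A.Countable
  ne_univ : I ≠ univ
  invariant : ∀ h : W ≃ₜ W, (fun A : Set W => h '' A) '' I = I
  borelBase : ∀ A ∈ I, ∃ B ∈ I, A ⊆ B ∧ MeasurableSet[borel W] B

/-- The Borel sets all of whose connected subsets have a closure with the property `P`. -/
def calF (P : Set W → Prop) : Set (Set W) :=
  {B | MeasurableSet[borel W] B ∧ ∀ C ⊆ B, IsConnected C → P (closure C)}

theorem sigmaGen_mono {F G : Set (Set W)} (h : F ⊆ G) : sigmaGen F ⊆ sigmaGen G := by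
  rintro A ⟨B, hB, hA⟩
  exact ⟨B, fun n => h (hB n), hA⟩

theorem subset_sigmaGen (F : Set (Set W)) : F ⊆ sigmaGen F := fun A hA =>
  ⟨fun _ => A, fun _ => hA, subset_iUnion (fun _ : ℕ => A) 0⟩

/-- The Cantor set in the Hilbert cube. -/
private def cantorSet : Set W := {t : W | ∀ i, t i = 0 ∨ t i = 1}

private theorem cantorSet_mem {P : Set W → Prop} (hsing : ∀ p : W, P {p}) : cantorSet ∈ calF P := by
  refine ⟨?_, ?_⟩
  · borelize W
    have h1 : IsClosed cantorSet := by
      have h2 : cantorSet = ⋂ i, (fun t : W => t i) ⁻¹' ({0, 1} : Set unitInterval) := by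
        ext t
        simp [cantorSet]
      rw [h2]
      exact isClosed_iInter fun i =>
        (Set.toFinite ({0, 1} : Set unitInterval)).isClosed.preimage (continuous_apply i)
    exact h1.measurableSet
  · intro C hC hc
    have hsub : C.Subsingleton := by
      intro x hx y hy
      funext i
      by_contra hne
      have h1 : IsPreconnected ((fun t : W => t i) '' C) :=
        hc.isPreconnected.image _ (continuous_apply i).continuousOn
      have h2 : ((fun t : W => t i) '' C) ⊆ ({0, 1} : Set unitInterval) := by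
        rintro _ ⟨t, ht, rfl⟩
        exact hC ht i
      have h3 : ((fun t : W => t i) '' C).Nontrivial :=
        ⟨x i, mem_image_of_mem _ hx, y i, mem_image_of_mem _ hy, hne⟩
      exact h1.infinite_of_nontrivial h3
        ((Set.toFinite ({0, 1} : Set unitInterval)).subset h2)
    obtain ⟨p, hp⟩ := hc.nonempty
    have h4 : C = {p} := hsub.eq_singleton_of_mem hp
    rw [h4, closure_singleton]
    exact hsing p

private theorem cantorSet_uncountable : ¬ cantorSet.Countable := by
  classical
  intro h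
  have h1 : Function.Injective fun S : Set ℕ => (fun i => if i ∈ S then 1 else 0 : W) := by
    intro S T hST
    ext i
    have h2 := congrFun hST i
    simp only at h2
    by_cases h3 : i ∈ S <;> by_cases h4 : i ∈ T <;> simp [h3, h4] at h2 ⊢
  have h5 : Countable (Set ℕ) := by
    have h6 : Set.Countable (range fun S : Set ℕ => (fun i => if i ∈ S then 1 else 0 : W)) := by
      refine h.mono ?_
      rintro _ ⟨S, rfl⟩ i
      by_cases h3 : i ∈ S
      · right; simp [h3]
      · left; simp [h3]
    rw [← image_univ] at h6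
    exact countable_univ_iff.1 (countable_of_injective_of_countable_image h1.injOn h6)
  obtain ⟨f, hf⟩ := exists_surjective_nat (Set ℕ)
  exact Function.cantor_surjective f hf

private theorem calF_image {P : Set W → Prop} (hinv : ∀ A : Set W, P A → ∀ h : W ≃ₜ W, P (h '' A))
    (h : W ≃ₜ W) {B : Set W} (hB : B ∈ calF P) : h '' B ∈ calF P := by
  refine ⟨?_, ?_⟩
  · borelize W
    rw [h.image_eq_preimage_symm]
    exact h.symm.continuous.measurable hB.1
  · intro C hC hc
    have h1 : h.symm '' C ⊆ B := by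
      rintro _ ⟨x, hx, rfl⟩
      obtain ⟨y, hy, rfl⟩ := hC hx
      simpa using hy
    have h2 := hB.2 (h.symm '' C) h1 (hc.image _ h.symm.continuous.continuousOn)
    have h3 := hinv _ h2 h
    rwa [h.image_closure, ← image_comp, h.self_comp_symm, image_id] at h3

private theorem sigmaGen_image {P : Set W → Prop}
    (hinv : ∀ A : Set W, P A → ∀ h : W ≃ₜ W, P (h '' A)) (h : W ≃ₜ W) {A : Set W}
    (hA : A ∈ sigmaGen (calF P)) : h '' A ∈ sigmaGen (calF P) := by
  obtain ⟨B, hB, hAB⟩ := hA
  refine ⟨fun n => h '' B n, fun n => calF_image hinv h (hB n), ?_⟩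
  rw [← image_iUnion]
  exact image_mono hAB

/-- General properties of `sigmaGen (calF P)`. -/
theorem admissible_of {P : Set W → Prop} (hinv : ∀ A : Set W, P A → ∀ h : W ≃ₜ W, P (h '' A))
    (hsing : ∀ p : W, P {p}) (hne : sigmaGen (calF P) ≠ univ) : Admissible (sigmaGen (calF P)) := by
  refine ⟨?_, ?_, ?_, ?_, hne, ?_, ?_⟩
  · exact ⟨fun _ => cantorSet, fun _ => cantorSet_mem hsing, empty_subset _⟩
  · rintro A ⟨B, hB, hA⟩ C hC
    exact ⟨B, hB, hC.trans hA⟩
  · intro A hA
    choose B hB hAB using hA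
    refine ⟨fun m => B (Nat.unpair m).1 (Nat.unpair m).2, fun m => hB _ _, ?_⟩
    refine iUnion_subset fun n x hx => ?_
    obtain ⟨k, hk⟩ := mem_iUnion.1 (hAB n hx)
    refine mem_iUnion.2 ⟨Nat.pair n k, ?_⟩
    simpa using hk
  · exact ⟨cantorSet, subset_sigmaGen _ (cantorSet_mem hsing), cantorSet_uncountable⟩
  · intro h
    ext A
    constructor
    · rintro ⟨C, hC, rfl⟩
      exact sigmaGen_image hinv h hC
    · intro hA
      refine ⟨h.symm '' A, sigmaGen_image hinv h.symm hA, ?_⟩
      show h '' (h.symm '' A) = A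
      rw [← image_comp, h.self_comp_symm, image_id]
  · rintro A ⟨B, hB, hA⟩
    refine ⟨⋃ n, B n, ⟨B, hB, subset_rfl⟩, hA, ?_⟩
    borelize W
    exact MeasurableSet.iUnion fun n => (hB n).1

theorem main : Admissible (sigmaGen (calF IsHZ)) ∧
    ∃ I, Admissible I ∧ sigmaGen (calF IsHZ) ⊂ I := by
  have h1 : calF IsHZ ⊆ calF fun A => ¬ Big (ZMod 2) A := fun B hB =>
    ⟨hB.1, fun C hC hc => not_big_of_HZ (hB.2 C hC hc)⟩
  have h2 : X0 ∈ calF fun A => ¬ Big (ZMod 2) A := by
    refine ⟨?_, fun C hC _ => not_big_sub isClosed_closure (closure_minimal hC isClosed_X0)⟩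
    borelize W
    exact isClosed_X0.measurableSet
  have h3 : X0 ∉ sigmaGen (calF IsHZ) := by
    rintro ⟨B, hB, hX⟩
    exact not_cover (R := ℂ) big_X0 B (fun n C hC hc => not_big_of_HZ ((hB n).2 C hC hc)) hX
  have h4 : univ ∉ sigmaGen (calF fun A => ¬ Big (ZMod 2) A) := by
    rintro ⟨B, hB, hX⟩
    exact not_cover (R := ZMod 2) (X := W) big_univ B (fun n C hC hc => (hB n).2 C hC hc) hX
  refine ⟨admissible_of (fun A hA h => hA.image h) isHZ_singleton ?_,
    sigmaGen (calF fun A => ¬ Big (ZMod 2) A), admissible_of ?_ ?_ ?_, ?_⟩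
  · intro h
    exact h4 (sigmaGen_mono h1 (h ▸ mem_univ univ))
  · intro A hA h hB
    apply hA
    have := hB.image h.symm
    rwa [← image_comp, h.symm_comp_self, image_id] at this
  · exact fun p => not_big_of_HZ (isHZ_singleton p)
  · intro h
    exact h4 (h ▸ mem_univ univ)
  · refine ⟨sigmaGen_mono h1, fun h => h3 (h (subset_sigmaGen _ h2))⟩

end Pool.Agent.Lib.MP_c2ffe9_gt
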